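import Pool.Agent.L0h86.F3.Dnx
import Pool.Agent.L0h86.T3.Ent
import Pool.Agent.L0h74.T3.TR

/-!
# The density of the `D` whose matrix is not singular
-/

set_option autoImplicit false
set_option linter.unusedSectionVars false

open scoped Classical
open Filter Topology

namespace Pool.Agent.L0h86.F3

open Pool.Agent.Y696
open Pool.Agent.L0h86.F1 (AdmM M1 M2)
open Pool.Agent.L0h74.T3 (RecA Gd)
open Pool.Agent.N973.ND (uu)
open Pool.Agent.Y698.SG (ix lg mem_ix)
open Pool.Agent.L0h23.FDE (eD)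
open Pool.Agent.L0h86.T3 (m_ff m_tt m_tf m_ft m_self m_self' m_pq m_qp m_qq t_q r_q t_p r_f r_t
  recA exists_gens)

lemma sum_uu {S : Finset ℕ} (hS : ∀ l ∈ S, l % 2 = 1) :
    ((∏ l ∈ S, l) % 4 = 1 ∧ ∑ l ∈ S, uu l = 0) ∨ ((∏ l ∈ S, l) % 4 = 3 ∧ ∑ l ∈ S, uu l = 1) := by
  induction S using Finset.induction_on with
  | empty => left; simp
  | insert l S hl ih =>
    rw [Finset.prod_insert hl, Finset.sum_insert hl, Nat.mul_mod]
    have h1 := hS l (Finset.mem_insert_self _ _)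
    have h2 := ih fun k hk => hS k (Finset.mem_insert_of_mem hk)
    have h3 : l % 4 = 1 ∨ l % 4 = 3 := by omega
    have e : (1 : ZMod 2) + 1 = 0 := by decide
    rcases h3 with h3 | h3 <;> rcases h2 with ⟨h4, h5⟩ | ⟨h4, h5⟩ <;> rw [h3, h4, h5] <;>
      unfold uu <;> rw [h3]
    · left; simp
    · right; simp
    · right; simp
    · left
      refine ⟨rfl, ?_⟩
      rw [if_pos rfl, e]

lemma prod_Q {S : Finset ℕ} (hS : ∀ l ∈ S, l % 3 = 2) :
    ((∏ l ∈ S, l) % 3 = 1 ∧ (S.card : ZMod 2) = 0) ∨ ((∏ l ∈ S, l) % 3 = 2 ∧ (S.card : ZMod 2) = 1) := by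
  induction S using Finset.induction_on with
  | empty => left; simp
  | insert l S hl ih =>
    rw [Finset.prod_insert hl, Finset.card_insert_of_notMem hl, Nat.mul_mod,
      hS l (Finset.mem_insert_self _ _)]
    have h2 := ih fun k hk => hS k (Finset.mem_insert_of_mem hk)
    have e : (1 : ZMod 2) + 1 = 0 := by decide
    push_cast
    rcases h2 with ⟨h4, h5⟩ | ⟨h4, h5⟩ <;> rw [h4, h5]
    · right; simp
    · left; exact ⟨rfl, e⟩

lemma prod_P {S : Finset ℕ} (hS : ∀ l ∈ S, l % 3 = 1) : (∏ l ∈ S, l) % 3 = 1 := by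
  induction S using Finset.induction_on with
  | empty => simp
  | insert l S hl ih =>
    rw [Finset.prod_insert hl, Nat.mul_mod, hS l (Finset.mem_insert_self _ _),
      ih fun k hk => hS k (Finset.mem_insert_of_mem hk)]

/-- **the translation of the criterion** -/
theorem tr_D {ϖ : ℕ → eis} (hϖ : ∀ p, SpQ p → N1 (ϖ p) ∧ ϖ p * cj (ϖ p) = (p : eis)) {D : ℕ}
    (h : AdmM D) : (mM D).det ≠ 0 ↔
      Gd (fun p k => lg (sy (ϖ p) (ϖ k)) + uu p * uu k + uu p * (bt (ϖ k)).re)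
        (fun p => (bt (ϖ p)).re) D.primeFactors := by
  have hd : Dt (M2 D) (M1 D) ϖ := ⟨adm_q h, adm_p h, fun p hp => (hϖ p (adm_p h p hp)).1,
    fun p hp => (hϖ p (adm_p h p hp)).2⟩
  have hD := adm_prod h
  rw [← sys_iff hd hD, ← adm_union h]
  refine Pool.Agent.L0h74.T3.TR.tr (m := mm (pf (M2 D) ϖ))
    (n := fun i => F4.tr (bt (pf (M2 D) ϖ i))) (r := fun i => F4.tr (F4.w * bt (pf (M2 D) ϖ i)))
    (ε := eD D) (a := fun p k => lg (sy (ϖ k) (ϖ p))) (t := fun p => (bt (ϖ p)).re) ?_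
  refine ⟨fun q hq => ⟨(hd.q q hq).pr, (hd.q q hq).odd, (hd.q q hq).m3⟩,
    fun p hp => ⟨(hd.p p hp).pr, (hd.p p hp).m3⟩, fun p hp k hk _ => m_ff hd hp hk,
    fun p hp k hk _ => m_tt hd hp hk, fun p hp k hk hne => m_tf hd hp hk hne,
    fun p hp k hk hne => m_ft hd hp hk hne, fun p hp => m_self hd hp, fun p hp => m_self' hd hp,
    fun p hp q hq b => m_pq hd hp hq b, fun p hp q hq b => m_qp hd hp hq b,
    fun q hq q' hq' hne => m_qq hd hq hq' hne, fun q hq => t_q hd hq, fun q hq => r_q hd hq,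
    fun p hp b => t_p hd hp b, fun p hp => r_f hd hp, fun p hp => r_t hd hp, ?_, ?_⟩
  · have hodd : ∀ l ∈ M2 D ∪ M1 D, l % 2 = 1 := by
      rw [adm_union h]
      exact fun l hl => adm_odd h hl
    have h4 := h.m4
    rcases sum_uu hodd with h5 | h5
    · exact h5.2
    · rw [← hD] at h5
      omega
  · have h1 := prod_Q fun l hl => (hd.q l hl).m3
    have h2 := prod_P fun l hl => (hd.p l hl).m3
    have h3 : D % 3 = (∏ l ∈ M2 D, l) % 3 := by
      conv_lhs => rw [hD]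
      rw [Finset.prod_union (disM D), Nat.mul_mod, h2, mul_one, Nat.mod_mod]
    unfold eD
    rcases h1 with h1 | h1
    · rw [if_pos (by omega), h1.2]
    · rw [if_neg (by omega), h1.2]

/-- **the density** -/
theorem densM {R : ℕ → Prop} (hR : ∀ D : ℕ, 1 < D → AdmM D → (R D ↔ (mM D).det ≠ 0)) :
    Tendsto (fun X : ℕ => (((Finset.Icc 1 X).filter fun D => (1 < D ∧ AdmM D) ∧ R D).card : ℝ) /
      (((Finset.Icc 1 X).filter fun D => 1 < D ∧ AdmM D).card : ℝ))
    atTop (nhds ((∏' i : ℕ, (1 - (1 / 2 : ℝ) ^ (2 * i + 1))) / 2)) := by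
  obtain ⟨ϖ, hϖ⟩ := exists_gens
  have h := dens_of (recA hϖ) (Q := fun D => Gd (fun p k => lg (sy (ϖ p) (ϖ k)) + uu p * uu k +
    uu p * (bt (ϖ k)).re) (fun p => (bt (ϖ p)).re) D.primeFactors) fun D _ => Iff.rfl
  refine h.congr fun X => congrArg₂ (fun a b : ℕ => (a : ℝ) / (b : ℝ)) ?_ rfl
  refine congrArg Finset.card (Finset.ext fun D => ?_)
  rw [Finset.mem_filter, Finset.mem_filter]
  refine and_congr_right fun _ => and_congr_right fun hD => ?_
  rw [hR D hD.1 hD.2, tr_D hϖ hD.2]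

end Pool.Agent.L0h86.F3
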