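import Pool.Agent.Y715.T.LF
import Pool.Agent.Y698.SG.Rd

/-!
# The curves `y² = x³ + D³`: the analytic criterion, definitions

`eis = ℤ[ω]`, `la = √-3`, `cj` the conjugation, `sp x` the ideal `(x)`.  The generators of the prime
ideals prime to six are normalised by `≡ 1` modulo `2√-3`.
-/

set_option autoImplicit false
set_option linter.unusedSectionVars false

open scoped Topology PeriodPair

namespace Pool.Agent.L0h86.F3

open H667R3 Pool.Agent.W192.HK Pool.Agent.TH936.CM Pool.Agent.TH936.PU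
open Pool.Agent.Y696 Pool.Agent.Y715.T.Lat
open Pool.Agent.Y698.SG (lg lg_one lg_neg_one lg_mul sgn_mul sgn_prod ix)

/-- the field with four elements, `re + im ω` -/
@[ext] structure F4 where
  re : ZMod 2
  im : ZMod 2
deriving DecidableEq, Fintype

namespace F4

instance : Zero F4 := ⟨⟨0, 0⟩⟩
instance : One F4 := ⟨⟨1, 0⟩⟩
instance : Add F4 := ⟨fun a b => ⟨a.re + b.re, a.im + b.im⟩⟩
instance : Neg F4 := ⟨fun a => a⟩
instance : Mul F4 := ⟨fun a b => ⟨a.re * b.re + a.im * b.im, a.re * b.im + a.im * b.re + a.im * b.im⟩⟩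

instance : CommRing F4 where
  add_assoc := by decide
  zero_add := by decide
  add_zero := by decide
  add_comm := by decide
  left_distrib := by decide
  right_distrib := by decide
  zero_mul := by decide
  mul_zero := by decide
  mul_assoc := by decide
  one_mul := by decide
  mul_one := by decide
  neg_add_cancel := by decide
  mul_comm := by decide
  nsmul := nsmulRec
  zsmul := zsmulRec

instance : Inv F4 := ⟨fun a => a * a⟩

instance : Field F4 where
  exists_pair_ne := ⟨0, 1, by decide⟩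
  mul_inv_cancel := by decide
  inv_zero := by decide
  nnqsmul := _
  nnqsmul_def := fun _ _ => rfl
  qsmul := _
  qsmul_def := fun _ _ => rfl

instance : CharP F4 2 := CharTwo.of_one_ne_zero_of_two_eq_zero (by decide) (by decide)

/-- the embedding of the field with two elements -/
def of : ZMod 2 →+* F4 where
  toFun a := ⟨a, 0⟩
  map_one' := rfl
  map_zero' := rfl
  map_add' := by decide
  map_mul' := by decide

/-- the conjugation -/
def cj : F4 →+* F4 where
  toFun a := ⟨a.re + a.im, a.im⟩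
  map_one' := rfl
  map_zero' := rfl
  map_add' := by decide
  map_mul' := by decide

/-- the trace -/
def tr (a : F4) : ZMod 2 := a.im

/-- the generator -/
def w : F4 := ⟨0, 1⟩

lemma cj_eq (a : F4) : cj a = a * a := by
  revert a
  decide

lemma cj_cj (a : F4) : cj (cj a) = a := by
  revert a
  decide

lemma of_tr (a : F4) : of (tr a) = a + cj a := by
  revert a
  decide

end F4

/-- the reduction modulo two -/
noncomputable def rhf (r : eis) : F4 :=
  ⟨((ez_ex r).choose : ZMod 2), ((ez_ex r).choose_spec.choose : ZMod 2)⟩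

lemma rhf_ez (a b : ℤ) : rhf (ez a b) = ⟨(a : ZMod 2), (b : ZMod 2)⟩ := by
  have h := (ez_ex (ez a b)).choose_spec.choose_spec
  obtain ⟨h1, h2⟩ := ez_inj h
  exact F4.ext (congrArg Int.cast h1.symm) (congrArg Int.cast h2.symm)

/-- reduction modulo two -/
noncomputable def rho : eis →+* F4 where
  toFun := rhf
  map_one' := by
    rw [← ez_one, rhf_ez]
    decide
  map_mul' r s := by
    obtain ⟨a, b, rfl⟩ := ez_ex r
    obtain ⟨c, d, rfl⟩ := ez_ex s
    rw [ez_mul, rhf_ez, rhf_ez, rhf_ez]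
    show _ = (⟨_, _⟩ : F4)
    have h : ∀ x y : ZMod 2, x - y = x + y := by decide
    ext
    · show ((a * c - b * d : ℤ) : ZMod 2) = _
      push_cast
      exact h _ _
    · show ((a * d + b * c - b * d : ℤ) : ZMod 2) = _
      push_cast
      exact h _ _
  map_zero' := by
    rw [← ez_zero, rhf_ez]
    decide
  map_add' r s := by
    obtain ⟨a, b, rfl⟩ := ez_ex r
    obtain ⟨c, d, rfl⟩ := ez_ex s
    rw [ez_add, rhf_ez, rhf_ez, rhf_ez]
    push_cast
    rfl

lemma rho_ez (a b : ℤ) : rho (ez a b) = ⟨(a : ZMod 2), (b : ZMod 2)⟩ := rhf_ez a b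

/-- normalised elements: `≡ 1` modulo `2√-3` -/
def N1 (x : eis) : Prop := ∃ u : eis, x = 1 + 2 * la * u

open Classical in
/-- `(x - 1) / 2` modulo two -/
noncomputable def bt (x : eis) : F4 := if h : ∃ t : eis, x = 1 + 2 * t then rho h.choose else 0

lemma two_inj {s t : eis} (h : (1 : eis) + 2 * s = 1 + 2 * t) : s = t := by
  have h2 : (2 : eis) ≠ 0 := by
    intro h0
    have := congrArg (fun t : eis => (t : ℂ)) h0
    have e : ((2 : eis) : ℂ) = 2 := rfl
    simp only [e] at this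
    exact two_ne_zero this
  have h3 : (2 : eis) * s = 2 * t := by linear_combination h
  exact mul_left_cancel₀ h2 h3

lemma bt_eq (t : eis) : bt (1 + 2 * t) = rho t := by
  have h : ∃ s : eis, 1 + 2 * t = 1 + 2 * s := ⟨t, rfl⟩
  unfold bt
  rw [dif_pos h]
  exact congrArg rho (two_inj h.choose_spec).symm

open Classical in
/-- the quadratic residue symbol modulo `ϖ` -/
noncomputable def sy (ϖ x : eis) : ℂ :=
  if x ∈ sp ϖ then 0 else if IsSquare (Ideal.Quotient.mk (sp ϖ) x) then 1 else -1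

/-- the prime elements used -/
structure PX (ϖ : eis) : Prop where
  pr : Prime ϖ
  n1 : N1 ϖ

/-- a family of primes -/
structure FX {ι : Type} (S : Finset ι) (π : ι → eis) : Prop where
  pd : ∀ i ∈ S, PX (π i)
  ne : ∀ i ∈ S, ∀ j ∈ S, i ≠ j → π i ∉ sp (π j)

/-- the symbols, as elements of the field with two elements -/
noncomputable def mm {ι : Type} (π : ι → eis) (i j : ι) : ZMod 2 := lg (sy (π j) (π i))

/-- the determinant of the matrix with the entries `r i j` off the diagonal and `c i + ∑_{k ≠ i} r i k`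
on the diagonal -/
def gk {k : Type} [CommRing k] {ι : Type} [DecidableEq ι] (c : ι → k) (r : ι → ι → k)
    (S : Finset ι) : k :=
  Matrix.det (Matrix.of fun i j : S =>
    if i = j then c i + ∑ k ∈ S.erase i, r i k else r i j : Matrix S S k)

/-- the determinant over the field with four elements: off the diagonal `mm π i j`, and the sums of
the rows are the conjugates of `(π i - 1) / 2` modulo two -/
noncomputable def g4 {ι : Type} [DecidableEq ι] (π : ι → eis) (S : Finset ι) : F4 :=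
  gk (fun i => F4.cj (bt (π i))) (fun i j => F4.of (mm π i j)) S

/-- the primes `q ≠ 2` that are inert in `ℚ(√-3)` -/
structure InQ (q : ℕ) : Prop where
  pr : q.Prime
  odd : q % 2 = 1
  m3 : q % 3 = 2

/-- the primes that split in `ℚ(√-3)` -/
structure SpQ (p : ℕ) : Prop where
  pr : p.Prime
  m3 : p % 3 = 1

/-- the primes, with a normalised generator `ϖ p` of one of the two primes above every `p` of `P` -/
structure Dt (Q P : Finset ℕ) (ϖ : ℕ → eis) : Prop where
  q : ∀ q ∈ Q, InQ q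
  p : ∀ p ∈ P, SpQ p
  n1 : ∀ p ∈ P, N1 (ϖ p)
  nm : ∀ p ∈ P, ϖ p * cj (ϖ p) = (p : eis)

/-- the normalised generators of the primes above `Q ∪ P`, indexed by `ix Q P`: the index `(q, false)`
for `q ∈ Q` and `(p, false)`, `(p, true)` for `p ∈ P` -/
noncomputable def pf (Q : Finset ℕ) (ϖ : ℕ → eis) (i : ℕ × Bool) : eis :=
  if i.1 ∈ Q then -(i.1 : eis) else if i.2 then cj (ϖ i.1) else ϖ i.1

/-- **the criterion** -/
def Cr4 (Q P : Finset ℕ) (ϖ : ℕ → eis) : Prop := g4 (pf Q ϖ) (ix Q P) ≠ 0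

open Classical in
/-- the Hecke character of conductor `2√-3`: the generator congruent to one -/
noncomputable def psi6 (I : Ideal eis) : ℂ :=
  if h : ∃ α : eis, I = sp α ∧ α - 1 ∈ (sp (2 * la) : Ideal eis) then
    ((Classical.choose h : eis) : ℂ)
  else 0

/-- the quadratic character `(N I / D)` -/
noncomputable def XD (D : ℕ) (I : Ideal eis) : ℂ := (jacobiSym (Nat.card (eis ⧸ I)) D : ℂ)

section val

variable {Γ : Type*} [LinearOrderedCommGroupWithZero Γ]

/-- `z` reduces to `a` -/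
def R4 (v : Valuation ℂ Γ) (z : ℂ) (a : F4) : Prop := ∃ r : eis, rho r = a ∧ v (z - r) < 1

end val

/-! ### statements -/

/-- M1: `psi6` is a Hecke character -/
def S_PSI : Prop := HC 1 (sp (2 * la : eis)) psi6

/-- M2: the quadratic characters -/
def S_HCD : Prop := ∀ (Q P : Finset ℕ) (D : ℕ), (∀ q ∈ Q, InQ q) → (∀ p ∈ P, SpQ p) →
  D = ∏ q ∈ Q ∪ P, q → (Q ∪ P).Nonempty → HC 0 (sp (D : eis)) (XD D)

/-- M3: the reciprocity law -/
def S_REC : Prop := ∀ π ρ : eis, PX π → PX ρ → π ∉ sp ρ →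
  lg (sy ρ π) + lg (sy π ρ) = F4.tr (bt π * bt ρ)

/-- M5: the supplementary laws -/
def S_SUP : Prop := ∀ π : eis, PX π → lg (sy π (-1)) = F4.tr (bt π) ∧
  lg (sy π la) = F4.tr (F4.w * bt π)

/-- M6: conjugation, and the properties of the generators -/
def S_GEN : Prop := ∀ (Q P : Finset ℕ) (ϖ : ℕ → eis) (D : ℕ), Dt Q P ϖ → D = ∏ q ∈ Q ∪ P, q →
  FX (ix Q P) (pf Q ϖ) ∧
    ((∏ i ∈ ix Q P, pf Q ϖ i = (D : eis) ∧ D % 3 = 1) ∨
      (∏ i ∈ ix Q P, pf Q ϖ i = -(D : eis) ∧ D % 3 = 2)) ∧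
    (D % 4 = 1 → ∑ i ∈ ix Q P, bt (pf Q ϖ i) = if D % 3 = 1 then 0 else 1) ∧
    (∀ x y : eis, sy (cj x) (cj y) = sy x y) ∧ (∀ x : eis, N1 x → bt (cj x) = F4.cj (bt x)) ∧
    ∀ x : eis, ∏ i ∈ ix Q P, sy (pf Q ϖ i) x = XD D (sp x)

/-- M7: the determinant over the field with four elements and the system over the field with two
elements -/
def S_LIN : Prop := ∀ (ι : Type) [DecidableEq ι] (S : Finset ι) (c : ι → ι) (b : ι → F4)
  (m : ι → ι → ZMod 2) (ε : ZMod 2), (∀ i ∈ S, c i ∈ S) → (∀ i ∈ S, c (c i) = i) →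
  (∀ i ∈ S, b (c i) = F4.cj (b i)) →
  (∀ i ∈ S, ∀ j ∈ S, i ≠ j → m (c i) (c j) = m i j) →
  (∀ i ∈ S, ∀ j ∈ S, i ≠ j → m i j + m j i = F4.tr (b i * b j)) →
  ∑ i ∈ S, b i = F4.of ε →
  (gk (fun i => F4.cj (b i)) (fun i j => F4.of (m i j)) S ≠ 0 ↔
    ∀ x : ι → ZMod 2, (∀ j ∈ S, ∑ i ∈ S.erase j, m i j * x i +
      (∑ i ∈ S.erase j, m i j + F4.tr (F4.w * b j) + ε * F4.tr (b j)) * x j +
      F4.tr (b j) * x (c j) = 0) → ∀ i ∈ S, x i = 0)

/-- M4: the values of the `L`-series -/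
def S_VAL : Prop := ∀ (Q P : Finset ℕ) (ϖ : ℕ → eis) (D : ℕ), Dt Q P ϖ → D = ∏ q ∈ Q ∪ P, q →
  (Q ∪ P).Nonempty → ∃ F : ℂ → ℂ, Differentiable ℂ F ∧
    (∀ z : ℂ, 3 / 2 < z.re →
      HasSum (fun J : Ideal eis => psi6 J * XD D J * (nm J : ℂ) ^ (-z)) (F z)) ∧
    ∀ {Γ : Type} [LinearOrderedCommGroupWithZero Γ] (v : Valuation ℂ Γ), v 2 < 1 →
    ∀ (L : PeriodPair) (Ω : ℂ), Cur L Ω → ∃ s : ℂ, R4 v s (g4 (pf Q ϖ) (ix Q P)) ∧
      v ((starRingEnd ℂ) (F 1) / Ω) = v 2 ^ (ix Q P).card * v (℘[L] (Ω / 2)) ^ 2 * v s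

end Pool.Agent.L0h86.F3
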