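import Pool.Agent.L0h86.F3.Va
import Pool.Agent.L0h86.F1.Tor
import Pool.Agent.L0h80.F3.Hcd
import Pool.Agent.L0h4.T3.Psi
import Pool.Agent.L0h4.T3.Eul
import Pool.Agent.Y696.Hex

/-!
# The value of the `L`-function of `y² = x³ + D³` modulo the primes above two
-/

set_option autoImplicit false
set_option linter.unusedSectionVars false

open Filter MeasureTheory
open scoped Topology PeriodPair

namespace Pool.Agent.L0h86.F3

open H667R3 Pool.Agent.W192.HK Pool.Agent.TH936.CM Pool.Agent.TH936.PU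
open Pool.Agent.Y696 Pool.Agent.Y715.T.Lat
open Pool.Agent.Y698 (conj_val v_oddI tam)
open Pool.Agent.Y698.SG (ix card_ix tnum)
open Pool.Agent.L0h86.F1
open Pool.Agent.L0h4.TW Pool.Agent.L0h4.TA Pool.Agent.L0h23.EV
open NumberField IsDedekindDomain WithZero WeierstrassCurve

/-- the quotient of the two sides of the formula, without the order of `Ш` -/
noncomputable def quoM (D : ℕ) (z : ℂ) : ℂ :=
  z * (tnum (WM ℚ D) : ℂ) ^ 2 /
    (((∫ x in {x : ℝ | 0 < psM D x}, 2 / Real.sqrt (psM D x) : ℝ) : ℂ) *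
      ((∏ᶠ v : HeightOneSpectrum (𝓞 ℚ), tam (WM ℚ D) v : ℕ) : ℂ))

lemma adm_odd {D : ℕ} (h : AdmM D) {p : ℕ} (hp : p ∈ D.primeFactors) : p % 2 = 1 := by
  have h1 := Nat.dvd_of_mem_primeFactors hp
  have h2 := h.m4
  by_contra h3
  have h4 : 2 ∣ p := by omega
  have h5 := h4.trans h1
  omega

lemma adm_q {D : ℕ} (h : AdmM D) : ∀ q ∈ M2 D, InQ q := fun q hq =>
  ⟨Nat.prime_of_mem_primeFactors (Finset.mem_filter.1 hq).1, (adm_odd h) (Finset.mem_filter.1 hq).1,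
    (Finset.mem_filter.1 hq).2⟩

lemma adm_p {D : ℕ} (h : AdmM D) : ∀ p ∈ M1 D, SpQ p := fun p hp =>
  ⟨Nat.prime_of_mem_primeFactors (Finset.mem_filter.1 hp).1, (Finset.mem_filter.1 hp).2⟩

lemma adm_union {D : ℕ} (h : AdmM D) : M2 D ∪ M1 D = D.primeFactors := by
  ext p
  unfold M1 M2
  rw [Finset.mem_union, Finset.mem_filter, Finset.mem_filter]
  constructor
  · rintro (h1 | h1)
    · exact h1.1
    · exact h1.1
  · intro hp
    have hpp := Nat.prime_of_mem_primeFactors hp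
    have h3 : ¬ 3 ∣ p := by
      intro hc
      have : 3 = p := (Nat.prime_dvd_prime_iff_eq Nat.prime_three hpp).1 hc
      exact h.n3 (this ▸ Nat.dvd_of_mem_primeFactors hp)
    have h4 : p % 3 = 2 ∨ p % 3 = 1 := by omega
    rcases h4 with h4 | h4
    · exact Or.inl ⟨hp, h4⟩
    · exact Or.inr ⟨hp, h4⟩

lemma adm_prod {D : ℕ} (h : AdmM D) : D = ∏ q ∈ M2 D ∪ M1 D, q := by
  rw [(adm_union h), Nat.prod_primeFactors_of_squarefree h.sf]

lemma adm_ne {D : ℕ} (h : AdmM D) (h1 : D ≠ 1) : (M2 D ∪ M1 D).Nonempty := by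
  rw [(adm_union h)]
  exact Nat.nonempty_primeFactors.2 (by
    have := h.sf.ne_zero
    omega)

/-- a choice of the generators exists -/
lemma adm_exists_dt {D : ℕ} (h : AdmM D) : ∃ ϖ : ℕ → eis, Dt (M2 D) (M1 D) ϖ :=
  Pool.Agent.L0h80.F3.exists_Dt (adm_q h) (adm_p h)

lemma disM (D : ℕ) : Disjoint (M2 D) (M1 D) := by
  rw [Finset.disjoint_left]
  intro p h1 h2
  have h3 := (Finset.mem_filter.1 h1).2
  have h4 := (Finset.mem_filter.1 h2).2
  omega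

/-- **the values of the `L`-series** -/
theorem t_VAL : S_VAL := val_of Pool.Agent.L0h4.T3.t_PSI Pool.Agent.L0h80.F3.t_HCD
  Pool.Agent.L0h80.F3.t_GEN

section
variable {Γ : Type} [LinearOrderedCommGroupWithZero Γ] {v : Valuation ℂ Γ} {L : PeriodPair} {Ω : ℂ}

/-- the valuation of the quotient -/
theorem v_quoM {D : ℕ} (h : AdmM D) (t2 : v 2 < 1) (hC : Cur L Ω) {z s : ℂ}
    (hz : v (z / Ω) = v 2 ^ (ix (M2 D) (M1 D)).card * v (℘[L] (Ω / 2)) ^ 2 * v s) :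
    v (quoM D z) = v s := by
  have hm4 := h.m4
  have hΩ : v Ω ≠ 0 := (v.ne_zero_iff).2 hC.lat.ne
  have h20 : v 2 ≠ 0 := (v.ne_zero_iff).2 two_ne_zero
  have hc4 : v ((c4 : ℝ) : ℂ) ≠ 0 := (v.ne_zero_iff).2 (by exact_mod_cast c4_pos.ne')
  obtain ⟨m, hm, hcard⟩ := tnum_WM h.sf.ne_zero
  have k4 : v (tnum (WM ℚ D) : ℂ) = v 2 := by
    rw [hcard]
    push_cast
    rw [map_mul]
    have := v_oddI v t2 (m := (m : ℤ)) (by exact_mod_cast hm)
    rw [Int.cast_natCast] at this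
    rw [this, mul_one]
  have k6 : v (((∏ᶠ v : HeightOneSpectrum (𝓞 ℚ), tam (WM ℚ D) v : ℕ)) : ℂ) =
      v 2 * v 2 ^ (ix (M2 D) (M1 D)).card := by
    rw [prodtam_WM h, card_ix (disM D)]
    push_cast
    rw [map_mul, map_mul, map_pow]
    have : v (if D % 8 = 1 then (3 : ℂ) else 1) = 1 := by
      split_ifs
      · exact v_three t2
      · exact map_one v
    rw [this, mul_one]
  have k1 := v_periodM t2 hC (D := D) (by omega)
  have k2 := v_half (v := v) hC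
  have k3 := v_c4 (v := v)
  have hP : v ((∫ x in {x : ℝ | 0 < psM D x}, 2 / Real.sqrt (psM D x) : ℝ) : ℂ) ≠ 0 := by
    intro h0
    rw [h0, zero_mul] at k1
    exact mul_ne_zero hc4 hΩ k1.symm
  have kz : v z = v 2 ^ (ix (M2 D) (M1 D)).card * v (℘[L] (Ω / 2)) ^ 2 * v s * v Ω := by
    rw [← hz, map_div₀, div_mul_cancel₀ _ hΩ]
  unfold quoM
  rw [map_div₀, map_mul, map_mul, map_pow, k4, k6, div_eq_iff (mul_ne_zero hP
    (mul_ne_zero h20 (pow_ne_zero _ h20))), kz]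
  set n := (ix (M2 D) (M1 D)).card
  set P := v ((∫ x in {x : ℝ | 0 < psM D x}, 2 / Real.sqrt (psM D x) : ℝ) : ℂ)
  set e := v (℘[L] (Ω / 2))
  set c := v ((c4 : ℝ) : ℂ)
  -- `c³ = v(2)²`, `c e = 1`, `P v(2) = c v(Ω)`
  have : e ^ 2 * v 2 ^ 2 = c := by
    rw [← k3]
    calc e ^ 2 * c ^ 3 = (c * e) ^ 2 * c := by
          rw [mul_pow, pow_succ c 2]
          ac_rfl
      _ = c := by rw [k2, one_pow, one_mul]
  calc v 2 ^ n * e ^ 2 * v s * v Ω * v 2 ^ 2 = v 2 ^ n * v s * ((e ^ 2 * v 2 ^ 2) * v Ω) := by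
        ac_rfl
    _ = v 2 ^ n * v s * (P * v 2) := by rw [this, k1]
    _ = v s * (P * (v 2 * v 2 ^ n)) := by ac_rfl

end

/-- **the formula modulo the primes above two** -/
theorem levelM {D : ℕ} (h : AdmM D) (h1 : D ≠ 1) {ϖ : ℕ → eis} (hd : Dt (M2 D) (M1 D) ϖ) :
    ∃ Λ : ℂ → ℂ, Differentiable ℂ Λ ∧ (∀ s : ℂ, 2 < s.re → Λ s = (WM ℚ D).LSeries s) ∧
      ∀ (Γ : Type) [LinearOrderedCommGroupWithZero Γ] (v : Valuation ℂ Γ), v 2 < 1 →
        v (quoM D (Λ 1)) ≤ 1 ∧ (v (quoM D (Λ 1)) = 1 ↔ Cr4 (M2 D) (M1 D) ϖ) := by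
  obtain ⟨F, hF, hsum, hval⟩ := t_VAL _ _ ϖ D hd (adm_prod h) ((adm_ne h) h1)
  have hser := (Pool.Agent.L0h4.T3.t_DEUR h hsum).2
  have hreal : (starRingEnd ℂ) (F 1) = F 1 := conj_val hF (fun k => (WM ℚ D).LFunction k) hser
  refine ⟨F, hF, hser, fun Γ _ v hv => ?_⟩
  obtain ⟨Ω, hΩ, hC⟩ := exists_cur
  obtain ⟨s, hs, hvs⟩ := hval v hv _ Ω hC
  rw [hreal] at hvs
  have key := v_quoM h hv hC hvs
  rw [key]
  exact ⟨hs.le, hs.unit_iff hv⟩

end Pool.Agent.L0h86.F3
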