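import Pool.Agent.L0h86.F3.Cof

/-!
# The matrix of `D` over the field with two elements
-/

set_option autoImplicit false
set_option linter.unusedSectionVars false

namespace Pool.Agent.L0h86.F3

open Pool.Agent.W192.HK Pool.Agent.Y696 Pool.Agent.Y715.T.Lat
open Pool.Agent.Y698.SG (ix lg lg_one lg_neg_one lg_mul sgn_mul sgn_prod mem_ix)
open Pool.Agent.L0h23.FDE (Sys eD cI cI_cI cI_mem pf_cI sum_sub)

/-- the normalised prime elements which divide `D`: one generator `π`, with `π ≡ 1` modulo `2 √-3`, of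
each of the prime ideals which divide `D` (for `D ≠ 0` prime to six) -/
def pset (D : ℕ) : Set eis := {π | D ≠ 0 ∧ Prime π ∧ π ∣ (D : eis) ∧ 2 * la ∣ π - 1}

theorem pset_finite (D : ℕ) : (pset D).Finite := by
  by_cases hD : D = 0
  · have : pset D = ∅ := by
      ext x
      simp [pset, hD]
    rw [this]
    exact Set.finite_empty
  · refine Set.Finite.subset (((Set.finite_Icc (-(2 * (D : ℤ))) (2 * D)).prod
      (Set.finite_Icc (-(2 * (D : ℤ))) (2 * D))).image fun p : ℤ × ℤ => ez p.1 p.2) ?_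
    rintro x ⟨-, -, ⟨y, hy⟩, -⟩
    obtain ⟨a, b, rfl⟩ := ez_ex x
    obtain ⟨c, d, rfl⟩ := ez_ex y
    refine ⟨(a, b), ?_, rfl⟩
    have h1 : ez (D : ℤ) 0 = ez a b * ez c d := by
      rw [ez_int, ← hy, Int.cast_natCast]
    rw [ez_mul] at h1
    obtain ⟨h2, h3⟩ := ez_inj h1
    have h4 : (a ^ 2 - a * b + b ^ 2) * (c ^ 2 - c * d + d ^ 2) = (D : ℤ) ^ 2 := by
      linear_combination (-(a * c - b * d) - (D : ℤ)) * h2 +
        ((a * c - b * d) - (a * d + b * c - b * d)) * h3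
    have h5 : 0 ≤ a ^ 2 - a * b + b ^ 2 := by nlinarith [sq_nonneg (2 * a - b), sq_nonneg b]
    have h6 : a ^ 2 - a * b + b ^ 2 ≤ (D : ℤ) ^ 2 :=
      Int.le_of_dvd (by positivity) (Dvd.intro _ h4)
    have h7 : b ^ 2 ≤ (2 * (D : ℤ)) ^ 2 := by nlinarith [sq_nonneg (2 * a - b)]
    have h8 : a ^ 2 ≤ (2 * (D : ℤ)) ^ 2 := by nlinarith [sq_nonneg (2 * b - a)]
    exact ⟨abs_le_of_sq_le_sq' h8 (by positivity), abs_le_of_sq_le_sq' h7 (by positivity)⟩

noncomputable instance inst_pset (D : ℕ) : Fintype (pset D) := (pset_finite D).fintype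

open Classical in
/-- `0` if `x` is a square modulo `y`, `1` if it is not -/
noncomputable def nsq (x y : eis) : ZMod 2 := if ∃ z : eis, y ∣ x - z ^ 2 then 0 else 1

open Classical in
/-- `0` if `√-3 (D / y)` is a square modulo `y`, `1` if it is not -/
noncomputable def nsd (D : ℕ) (y : eis) : ZMod 2 :=
  if ∃ u z : eis, (D : eis) = y * u ∧ y ∣ la * u - z ^ 2 then 0 else 1

open Classical in
/-- the matrix of `D` -/
noncomputable def mM (D : ℕ) : Matrix (pset D) (pset D) (ZMod 2) := Matrix.of fun i j =>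
  if i = j then nsd D i else nsq j i + if (j : eis) = cj i then nsq (-1) i else 0

lemma nsq_sy {x y : eis} (h : x ∉ sp y) : nsq x y = lg (sy y x) := by
  classical
  have key : IsSquare (Ideal.Quotient.mk (sp y) x) ↔ ∃ z : eis, y ∣ x - z ^ 2 := by
    constructor
    · rintro ⟨t, ht⟩
      obtain ⟨z, rfl⟩ := Ideal.Quotient.mk_surjective t
      refine ⟨z, ?_⟩
      rw [← Ideal.mem_span_singleton, ← Ideal.Quotient.eq, ht, map_pow, pow_two]
    · rintro ⟨z, hz⟩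
      rw [← Ideal.mem_span_singleton, ← Ideal.Quotient.eq, map_pow, pow_two] at hz
      exact ⟨_, hz⟩
  unfold nsq sy
  rw [if_neg h]
  by_cases h1 : ∃ z : eis, y ∣ x - z ^ 2
  · rw [if_pos h1, if_pos (key.2 h1), lg_one]
  · rw [if_neg h1, if_neg (fun h2 => h1 (key.1 h2)), lg_neg_one]

lemma N1_dvd {x : eis} : 2 * la ∣ x - 1 ↔ N1 x := by
  constructor
  · rintro ⟨u, hu⟩
    exact ⟨u, by linear_combination hu⟩
  · rintro ⟨u, hu⟩
    exact ⟨u, by linear_combination hu⟩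

/-- associated normalised elements are equal -/
lemma N1_uniq {x y : eis} (hx : N1 x) (hy : N1 y) (h : Associated x y) : x = y := by
  obtain ⟨u, hu⟩ := h
  have h1 : (u : eis) = 1 := by
    refine unit_mod6 u.isUnit isUnit_one ?_
    obtain ⟨s, rfl⟩ := hx
    obtain ⟨t, rfl⟩ := hy
    rw [Ideal.mem_span_singleton]
    exact ⟨t - s * u, by linear_combination hu⟩
  rw [← hu, h1, mul_one]

section
variable {Q P : Finset ℕ} {ϖ : ℕ → eis}

open Pool.Agent.L0h80.F3 (fx ix_PX ix_cases disj)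

lemma Dt_mem (h : Dt Q P ϖ) {D : ℕ} (hD : D = ∏ q ∈ Q ∪ P, q) {i : ℕ × Bool} (hi : i ∈ ix Q P) :
    pf Q ϖ i ∈ pset D := by
  have hfx := ix_PX h hi
  have hD0 : D ≠ 0 := Pool.Agent.L0h23.FDE.D_ne h hD
  refine ⟨hD0, hfx.pr, ?_, N1_dvd.2 hfx.n1⟩
  have h1 : i.1 ∈ Q ∪ P → (i.1 : eis) ∣ (D : eis) := by
    intro h2
    have h3 : i.1 ∣ D := by
      rw [hD]
      exact Finset.dvd_prod_of_mem _ h2
    exact Nat.cast_dvd_cast h3
  rcases ix_cases h hi with ⟨h2, -, h3⟩ | ⟨h2, -, h3⟩ | ⟨h2, -, h3⟩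
  · rw [h3, neg_dvd]
    exact h1 (Finset.mem_union_left _ h2)
  · rw [h3]
    exact (Dvd.intro _ (h.nm _ h2)).trans (h1 (Finset.mem_union_right _ h2))
  · rw [h3]
    exact (Dvd.intro_left _ (h.nm _ h2)).trans (h1 (Finset.mem_union_right _ h2))

lemma Dt_inj (h : Dt Q P ϖ) {i j : ℕ × Bool} (hi : i ∈ ix Q P) (hj : j ∈ ix Q P)
    (hij : pf Q ϖ i = pf Q ϖ j) : i = j := by
  by_contra hne
  apply (fx h).ne i hi j hj hne
  rw [hij]
  exact Ideal.mem_span_singleton_self _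

lemma Dt_surj (h : Dt Q P ϖ) {D : ℕ} (hD : D = ∏ q ∈ Q ∪ P, q) {x : eis} (hx : x ∈ pset D) :
    ∃ i ∈ ix Q P, pf Q ϖ i = x := by
  obtain ⟨hD0, hpr, hdv, hn⟩ := hx
  rw [N1_dvd] at hn
  have h1 : x ∣ ∏ i ∈ ix Q P, pf Q ϖ i := by
    rcases Pool.Agent.L0h80.F3.prod_pf h hD with ⟨h2, -⟩ | ⟨h2, -⟩
    · rw [h2]
      exact hdv
    · rw [h2, dvd_neg]
      exact hdv
  obtain ⟨i, hi, hxi⟩ := (Prime.dvd_finsetProd_iff hpr _).1 h1
  refine ⟨i, hi, ?_⟩
  have h2 := ix_PX h hi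
  exact (N1_uniq hn h2.n1 (hpr.associated_of_dvd h2.pr hxi)).symm

/-- the bijection of the two sets of indices -/
noncomputable def eix (h : Dt Q P ϖ) {D : ℕ} (hD : D = ∏ q ∈ Q ∪ P, q) : ix Q P ≃ pset D :=
  Equiv.ofBijective (fun i => ⟨pf Q ϖ i.1, Dt_mem h hD i.2⟩) ⟨fun i j hij =>
    Subtype.ext (Dt_inj h i.2 j.2 (congrArg Subtype.val hij)), fun x => by
      obtain ⟨i, hi, e⟩ := Dt_surj h hD x.2
      exact ⟨⟨i, hi⟩, Subtype.ext e⟩⟩

lemma eix_coe (h : Dt Q P ϖ) {D : ℕ} (hD : D = ∏ q ∈ Q ∪ P, q) (i : ix Q P) :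
    ((eix h hD i : pset D) : eis) = pf Q ϖ i.1 := rfl

/-- the diagonal -/
lemma nsd_eq (h : Dt Q P ϖ) {D : ℕ} (hD : D = ∏ q ∈ Q ∪ P, q) {j : ℕ × Bool} (hj : j ∈ ix Q P) :
    nsd D (pf Q ϖ j) = ∑ i ∈ (ix Q P).erase j, mm (pf Q ϖ) i j +
      F4.tr (F4.w * bt (pf Q ϖ j)) + eD D * F4.tr (bt (pf Q ϖ j)) := by
  classical
  have hF := fx h
  obtain ⟨hpr, hn1⟩ := hF.pd j hj
  have hsup := Pool.Agent.L0h23.FR.t_SUP _ (hF.pd j hj)
  have h1 : ∀ i ∈ (ix Q P).erase j, pf Q ϖ i ∉ sp (pf Q ϖ j) := fun i hi =>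
    hF.ne i (Finset.mem_of_mem_erase hi) j hj (Finset.ne_of_mem_erase hi)
  have hla : la ∉ sp (pf Q ϖ j) := by
    intro h2
    rw [Ideal.mem_span_singleton] at h2
    obtain ⟨u, hu⟩ := hn1
    have h3 : pf Q ϖ j ∣ 1 := by
      have e : (1 : eis) = pf Q ϖ j - la * (2 * u) := by rw [hu]; ring
      rw [e]
      exact dvd_sub dvd_rfl (h2.mul_right _)
    exact hpr.not_isUnit (isUnit_of_dvd_one h3)
  have hm1 : (-1 : eis) ∉ sp (pf Q ϖ j) := neg_one_notin hpr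
  set U : eis := (-1) ^ (eD D).val * ∏ i ∈ (ix Q P).erase j, pf Q ϖ i with hU
  have hDU : (D : eis) = pf Q ϖ j * U := by
    have h2 : ∏ i ∈ ix Q P, pf Q ϖ i = pf Q ϖ j * ∏ i ∈ (ix Q P).erase j, pf Q ϖ i :=
      (Finset.mul_prod_erase _ _ hj).symm
    rw [hU]
    rcases Pool.Agent.L0h80.F3.prod_pf h hD with ⟨h3, h4⟩ | ⟨h3, h4⟩
    · unfold eD
      rw [if_pos h4, ZMod.val_zero, pow_zero, one_mul, ← h2, h3]
    · unfold eD
      rw [if_neg (by omega), show ZMod.val (1 : ZMod 2) = 1 from rfl, pow_one]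
      linear_combination h3 - h2
  have hU0 : ∏ i ∈ (ix Q P).erase j, pf Q ϖ i ∉ sp (pf Q ϖ j) := by
    intro h2
    rw [Ideal.mem_span_singleton] at h2
    obtain ⟨i, hi, h3⟩ := (Prime.dvd_finsetProd_iff hpr _).1 h2
    exact h1 i hi (Ideal.mem_span_singleton.2 h3)
  have hsg : ∀ i ∈ (ix Q P).erase j, sy (pf Q ϖ j) (pf Q ϖ i) = 1 ∨ sy (pf Q ϖ j) (pf Q ϖ i) = -1 :=
    fun i hi => sy_sgn (h1 i hi)
  have hsprod : ∀ S : Finset (ℕ × Bool), sy (pf Q ϖ j) (∏ i ∈ S, pf Q ϖ i) =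
      ∏ i ∈ S, sy (pf Q ϖ j) (pf Q ϖ i) := by
    intro S
    induction S using Finset.induction_on with
    | empty =>
      rw [Finset.prod_empty, Finset.prod_empty]
      unfold sy
      rw [if_neg, if_pos]
      · rw [map_one]
        exact IsSquare.one
      · intro h2
        exact hpr.not_isUnit (isUnit_of_dvd_one (Ideal.mem_span_singleton.1 h2))
    | insert i S hi ih => rw [Finset.prod_insert hi, Finset.prod_insert hi, sy_mul' hpr, ih]
  have hprodS := sgn_prod hsg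
  have hpow : ∀ n : ℕ, (sy (pf Q ϖ j) ((-1) ^ n) = 1 ∨ sy (pf Q ϖ j) ((-1) ^ n) = -1) ∧
      lg (sy (pf Q ϖ j) ((-1) ^ n)) = n * lg (sy (pf Q ϖ j) (-1)) := by
    intro n
    induction n with
    | zero =>
      have h2 : sy (pf Q ϖ j) 1 = 1 := by
        have := hsprod ∅
        rwa [Finset.prod_empty, Finset.prod_empty] at this
      rw [pow_zero, h2, lg_one, Nat.cast_zero, zero_mul]
      exact ⟨Or.inl rfl, rfl⟩
    | succ n ih =>
      rw [pow_succ, sy_mul' hpr]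
      refine ⟨sgn_mul ih.1 (sy_neg_one hpr), ?_⟩
      rw [lg_mul ih.1 (sy_neg_one hpr), ih.2]
      push_cast
      ring
  have hlaU : la * U ∉ sp (pf Q ϖ j) := by
    rw [hU]
    intro h2
    rw [Ideal.mem_span_singleton] at h2
    rcases hpr.dvd_or_dvd h2 with h3 | h3
    · exact hla (Ideal.mem_span_singleton.2 h3)
    · rcases hpr.dvd_or_dvd h3 with h4 | h4
      · exact hm1 (Ideal.mem_span_singleton.2 (hpr.dvd_of_dvd_pow h4))
      · exact hU0 (Ideal.mem_span_singleton.2 h4)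
  have hkey : nsd D (pf Q ϖ j) = nsq (la * U) (pf Q ϖ j) := by
    unfold nsd nsq
    have e : (∃ u z : eis, (D : eis) = pf Q ϖ j * u ∧ pf Q ϖ j ∣ la * u - z ^ 2) ↔
        ∃ z : eis, pf Q ϖ j ∣ la * U - z ^ 2 := by
      constructor
      · rintro ⟨u, z, h2, h3⟩
        have : u = U := mul_left_cancel₀ hpr.ne_zero (h2.symm.trans hDU)
        exact ⟨z, this ▸ h3⟩
      · rintro ⟨z, h3⟩
        exact ⟨U, z, hDU, h3⟩
    simp only [e]
  rw [hkey, nsq_sy hlaU, sy_mul' hpr, hU, sy_mul' hpr, hsprod,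
    lg_mul (sy_sgn hla) (sgn_mul (hpow _).1 hprodS.1), lg_mul (hpow _).1 hprodS.1, hprodS.2,
    (hpow _).2, hsup.1, hsup.2, ZMod.natCast_zmod_val]
  unfold mm
  ring

/-- **the two forms of the criterion** -/
theorem sys_iff (h : Dt Q P ϖ) {D : ℕ} (hD : D = ∏ q ∈ Q ∪ P, q) :
    Sys Q P ϖ (eD D) ↔ (mM D).det ≠ 0 := by
  classical
  have hF := fx h
  have hM : (mM D).det ≠ 0 ↔ ∀ x : pset D → ZMod 2, Matrix.mulVec (mM D) x = 0 → x = 0 := by
    rw [← not_iff_not, not_not, ← Matrix.exists_mulVec_eq_zero_iff]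
    push Not
    exact ⟨fun ⟨x, h1, h2⟩ => ⟨x, h2, h1⟩, fun ⟨x, h1, h2⟩ => ⟨x, h2, h1⟩⟩
  rw [hM]
  -- the rows
  have hrow : ∀ (X : ℕ × Bool → ZMod 2) (x : pset D → ZMod 2),
      (∀ i : ix Q P, x (eix h hD i) = X i) → ∀ j (hj : j ∈ ix Q P),
      Matrix.mulVec (mM D) x (eix h hD ⟨j, hj⟩) =
        ∑ i ∈ (ix Q P).erase j, mm (pf Q ϖ) i j * X i +
      (∑ i ∈ (ix Q P).erase j, mm (pf Q ϖ) i j + F4.tr (F4.w * bt (pf Q ϖ j)) +
        eD D * F4.tr (bt (pf Q ϖ j))) * X j +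
      F4.tr (bt (pf Q ϖ j)) * X (cI Q j) := by
    intro X x hX j hj
    have hm1 : nsq (-1) (pf Q ϖ j) = F4.tr (bt (pf Q ϖ j)) := by
      rw [nsq_sy (neg_one_notin (hF.pd j hj).pr)]
      exact (Pool.Agent.L0h23.FR.t_SUP _ (hF.pd j hj)).1
    have hent : ∀ i : ix Q P, mM D (eix h hD ⟨j, hj⟩) (eix h hD i) =
        if i = ⟨j, hj⟩ then nsd D (pf Q ϖ j) else mm (pf Q ϖ) i j +
          if i.1 = cI Q j then F4.tr (bt (pf Q ϖ j)) else 0 := by
      intro i
      unfold mM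
      rw [Matrix.of_apply]
      by_cases hij : i = ⟨j, hj⟩
      · rw [if_pos hij, if_pos (by rw [hij])]
        rfl
      · rw [if_neg hij, if_neg (fun h1 => hij ((eix h hD).injective h1).symm)]
        have h1 : i.1 ≠ j := fun h2 => hij (Subtype.ext h2)
        have h3 := hF.ne i.1 i.2 j hj h1
        have h4 : ((eix h hD i : pset D) : eis) = cj (eix h hD ⟨j, hj⟩ : pset D) ↔
            i.1 = cI Q j := by
          rw [eix_coe, eix_coe]
          show pf Q ϖ i.1 = cj (pf Q ϖ j) ↔ _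
          rw [← pf_cI]
          exact ⟨fun h5 => Dt_inj h i.2 (cI_mem hj) h5, fun h5 => by rw [h5]⟩
        simp only [h4]
        rw [eix_coe, eix_coe, hm1, nsq_sy h3]
        rfl
    have h1 : Matrix.mulVec (mM D) x (eix h hD ⟨j, hj⟩) =
        ∑ i : ix Q P, mM D (eix h hD ⟨j, hj⟩) (eix h hD i) * X i := by
      unfold Matrix.mulVec dotProduct
      rw [← (eix h hD).sum_comp]
      exact Finset.sum_congr rfl fun i _ => by rw [hX i]
    rw [h1, ← Finset.add_sum_erase _ _ (Finset.mem_univ (⟨j, hj⟩ : ix Q P)), hent, if_pos rfl,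
      nsd_eq h hD hj]
    have h2 : ∑ i ∈ (Finset.univ : Finset (ix Q P)).erase ⟨j, hj⟩,
        mM D (eix h hD ⟨j, hj⟩) (eix h hD i) * X i =
        ∑ i ∈ (ix Q P).erase j, (mm (pf Q ϖ) i j +
          if i = cI Q j then F4.tr (bt (pf Q ϖ j)) else 0) * X i := by
      rw [← sum_sub (ix Q P) ⟨j, hj⟩ fun i => (mm (pf Q ϖ) i j +
          if i = cI Q j then F4.tr (bt (pf Q ϖ j)) else 0) * X i]
      refine Finset.sum_congr rfl fun i hi => ?_
      rw [hent, if_neg (Finset.ne_of_mem_erase hi)]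
    have h3 : ∑ i ∈ (ix Q P).erase j, (mm (pf Q ϖ) i j +
          if i = cI Q j then F4.tr (bt (pf Q ϖ j)) else 0) * X i =
        ∑ i ∈ (ix Q P).erase j, mm (pf Q ϖ) i j * X i +
          F4.tr (bt (pf Q ϖ j)) * X (cI Q j) := by
      have h4 : ∀ i ∈ (ix Q P).erase j, (mm (pf Q ϖ) i j +
          if i = cI Q j then F4.tr (bt (pf Q ϖ j)) else 0) * X i =
          mm (pf Q ϖ) i j * X i +
            if i = cI Q j then F4.tr (bt (pf Q ϖ j)) * X (cI Q j) else 0 := by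
        intro i _
        by_cases h5 : i = cI Q j
        · rw [if_pos h5, if_pos h5, h5]
          ring
        · rw [if_neg h5, if_neg h5]
          ring
      rw [Finset.sum_congr rfl h4, Finset.sum_add_distrib, Finset.sum_ite_eq']
      congr 1
      by_cases h5 : cI Q j = j
      · rw [if_neg (by rw [h5]; exact Finset.notMem_erase _ _)]
        have h6 : F4.cj (bt (pf Q ϖ j)) = bt (pf Q ϖ j) := by
          rw [← Pool.Agent.L0h80.F3.bt_cj (hF.pd j hj).n1, ← pf_cI, h5]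
        have h7 : F4.tr (bt (pf Q ϖ j)) = 0 := by
          revert h6
          generalize bt (pf Q ϖ j) = a
          revert a
          decide
        rw [h7, zero_mul]
      · rw [if_pos (Finset.mem_erase.2 ⟨h5, cI_mem hj⟩)]
    rw [h2, h3]
    ring
  constructor
  · intro hs x hx
    have h1 := hs (fun i => if hi : i ∈ ix Q P then x (eix h hD ⟨i, hi⟩) else 0) (fun j hj => by
      have h2 := hrow (fun i => if hi : i ∈ ix Q P then x (eix h hD ⟨i, hi⟩) else 0) x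
        (fun i => by rw [dif_pos i.2]) j hj
      rw [hx] at h2
      exact h2.symm)
    funext y
    obtain ⟨i, rfl⟩ := (eix h hD).surjective y
    have h3 := h1 i.1 i.2
    rw [dif_pos i.2] at h3
    exact h3
  · intro hs X hX i hi
    have h1 := hs (fun y => X ((eix h hD).symm y)) (by
      funext y
      obtain ⟨j, rfl⟩ := (eix h hD).surjective y
      have h2 := hrow X (fun y => X ((eix h hD).symm y))
        (fun i => by rw [Equiv.symm_apply_apply]) j.1 j.2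
      rw [hX j.1 j.2] at h2
      exact h2)
    have h3 := congrFun h1 (eix h hD ⟨i, hi⟩)
    beta_reduce at h3
    rw [Equiv.symm_apply_apply] at h3
    exact h3

/-- **the criterion in the intrinsic form** -/
theorem cr_iff (h : Dt Q P ϖ) {D : ℕ} (hD : D = ∏ q ∈ Q ∪ P, q) (h4 : D % 4 = 1) :
    Cr4 Q P ϖ ↔ (mM D).det ≠ 0 :=
  (Pool.Agent.L0h23.FDE.cr4_sys Pool.Agent.L0h80.F3.t_GEN Pool.Agent.L0h23.FR.t_REC
    Pool.Agent.L0h61.T3.t_LIN h hD h4).trans (sys_iff h hD)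

end

/-- the number of the prime ideals which divide `D` -/
lemma card_pset {D : ℕ} (h : Pool.Agent.L0h86.F1.AdmM D) :
    (Pool.Agent.L0h86.F1.M2 D).card + 2 * (Pool.Agent.L0h86.F1.M1 D).card =
      Fintype.card (pset D) := by
  classical
  obtain ⟨ϖ, hd⟩ := adm_exists_dt h
  rw [← Fintype.card_congr (eix hd (adm_prod h)), Fintype.card_coe,
    Pool.Agent.Y698.SG.card_ix (disM D)]

end Pool.Agent.L0h86.F3
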