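import Pool.Agent.L0h86.F3.Rf

/-!
# Weighted sums of the Eisenstein numbers
-/

set_option autoImplicit false
set_option linter.unusedSectionVars false

open Filter
open scoped Topology PeriodPair

namespace Pool.Agent.L0h86.F3

open H667R3 Pool.Agent.W192.HK Pool.Agent.TH936.CM Pool.Agent.TH936.PU
open Pool.Agent.Y696 Pool.Agent.Y715.T.Lat
open Pool.Agent.Y698.SG (lg lg_one lg_neg_one lg_mul sgn_mul sgn_prod ix)

variable {L : PeriodPair} {Ω : ℂ} {Γ : Type*} [LinearOrderedCommGroupWithZero Γ]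
  {v : Valuation ℂ Γ}

lemma la_ne : (la : eis) ≠ 0 := by
  intro h
  have h1 := la_sq
  rw [h, mul_zero] at h1
  have h2 := congrArg (fun t : eis => (t : ℂ)) h1
  have e : ((-3 : eis) : ℂ) = -3 := rfl
  simp only [e] at h2
  norm_num at h2

lemma two_ne : (2 : eis) ≠ 0 := by
  intro h0
  have := congrArg (fun t : eis => (t : ℂ)) h0
  simp only [two_coe] at this
  exact two_ne_zero this

lemma f6_ne : (2 * la : eis) ≠ 0 := mul_ne_zero two_ne la_ne

/-- the division point -/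
noncomputable def P0 (Ω : ℂ) : ℂ := Ω / ((2 * la : eis) : ℂ)

lemma P0_tor (hL : IsLat L eis Ω) : Tor L (P0 Ω) := by
  have h := Tor.of hL f6_ne 1
  have e : Ω * ((1 : eis) : ℂ) / ((2 * la : eis) : ℂ) = P0 Ω := by
    unfold P0
    push_cast
    ring
  rwa [e] at h

/-- the translated Eisenstein number -/
noncomputable def Fv (Ω z : ℂ) : ℂ := Ev Ω (P0 Ω + z)

lemma Fv_per (hL : IsLat L eis Ω) {z w : ℂ} (h : w - z ∈ L.lattice) : Fv Ω w = Fv Ω z := by
  unfold Fv
  apply Ev_per hL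
  rwa [add_sub_add_left_eq_sub]

theorem Fv_dist (hL : IsLat L eis Ω) {a : eis} (ha : a ≠ 0) (h1 : N1 a) [Fintype (eis ⧸ sp a)]
    {z : ℂ} (hz : Tor L z) : ∑ q : eis ⧸ sp a, Fv Ω (z + Ω * q.out / a) = a * Fv Ω (a * z) := by
  have h2 := Ev_dist hL ha ((P0_tor hL).add hL hz)
  unfold Fv
  simp only [← add_assoc]
  rw [h2]
  congr 1
  apply Ev_per hL
  obtain ⟨u, rfl⟩ := h1
  have h3 : ((2 * la : eis) : ℂ) ≠ 0 := coe_ne f6_ne
  have e : ((1 + 2 * la * u : eis) : ℂ) * (P0 Ω + z) - (P0 Ω + ((1 + 2 * la * u : eis) : ℂ) * z) =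
      Ω * u := by
    have e1 : ((1 + 2 * la * u : eis) : ℂ) = 1 + ((2 * la : eis) : ℂ) * u := by push_cast; ring
    rw [e1]
    unfold P0
    field_simp
    ring
  rw [e]
  exact hL.mem_mul u

/-- the weighted sum -/
noncomputable def Bv (Ω : ℂ) (n : eis) (φ : eis → ℂ) : ℂ :=
  ∑ᶠ x : eis ⧸ sp n, φ x.out * Fv Ω (Ω * x.out / (n : ℂ))

lemma Bv_eq (n : eis) [Fintype (eis ⧸ sp n)] (φ : eis → ℂ) :
    Bv Ω n φ = ∑ x : eis ⧸ sp n, φ x.out * Fv Ω (Ω * x.out / (n : ℂ)) :=
  finsum_eq_sum_of_fintype _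

lemma Bv_term (hL : IsLat L eis Ω) {n : eis} (hn : n ≠ 0)
    {φ : eis → ℂ} (hφ : Pe n φ) {x y : eis} (h : x - y ∈ sp n) :
    φ x * Fv Ω (Ω * x / (n : ℂ)) = φ y * Fv Ω (Ω * y / (n : ℂ)) := by
  rw [hφ _ _ h]
  congr 1
  apply Fv_per hL
  have h1 := (div_mem_iff hL hn (x - y)).2 h
  convert h1 using 1
  push_cast
  ring

theorem Bv_dist (hL : IsLat L eis Ω) {n q : eis} (hn0 : n ≠ 0)
    (hq0 : q ≠ 0) (hq1 : N1 q) {φ : eis → ℂ}
    (hφ : Pe n φ) : Bv Ω (q * n) φ = q * Bv Ω n φ := by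
  have hqn0 : q * n ≠ 0 := mul_ne_zero hq0 hn0
  have f1 := fin_quot hn0
  have f2 := fin_quot hq0
  have f3 := fin_quot hqn0
  let _ : Fintype (eis ⧸ sp n) := Fintype.ofFinite _
  let _ : Fintype (eis ⧸ sp q) := Fintype.ofFinite _
  let _ : Fintype (eis ⧸ sp (q * n)) := Fintype.ofFinite _
  have hq0' := coe_ne hq0
  have hn0' := coe_ne hn0
  have hφ' : Pe (q * n) φ := hφ.mono (Dvd.intro_left q rfl)
  rw [Bv_eq, Bv_eq]
  have hb := bij_mul (R := eis) (a := q) (f := n) hn0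
  rw [sum_rep _ hb (fun x : eis => φ x * Fv Ω (Ω * x / ((q * n : eis) : ℂ)))
    (fun x y h => Bv_term hL hqn0 hφ' h), Fintype.sum_prod_type, Finset.mul_sum]
  refine Finset.sum_congr rfl fun y _ => ?_
  have h1 := Fv_dist hL hq0 hq1 (Tor.of hL hqn0 y.out)
  have h2 : ∀ t : eis ⧸ sp q, φ (y.out + n * t.out) = φ y.out := by
    intro t
    apply hφ
    rw [add_sub_cancel_left, Ideal.mem_span_singleton']
    exact ⟨t.out, mul_comm _ _⟩
  simp only [h2]
  rw [← Finset.mul_sum]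
  have e1 : ∀ t : eis ⧸ sp q, Ω * ((y.out + n * t.out : eis) : ℂ) / ((q * n : eis) : ℂ) =
      Ω * (y.out : eis) / ((q * n : eis) : ℂ) + Ω * t.out / q := by
    intro t
    push_cast
    field_simp
  simp only [e1]
  rw [h1]
  have e2 : (q : ℂ) * (Ω * (y.out : eis) / ((q * n : eis) : ℂ)) = Ω * (y.out : eis) / n := by
    push_cast
    field_simp
  rw [e2]
  ring

open Classical in
/-- the multiples of `q` -/
theorem Bv_mult (hL : IsLat L eis Ω) {n q : eis} (hn0 : n ≠ 0)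
    (hq0 : q ≠ 0) {φ : eis → ℂ} (hφ : Pe n φ) :
    Bv Ω (q * n) (fun m => if m ∈ sp q then φ m else 0) =
      Bv Ω n (fun m => φ (q * m)) := by
  have hqn0 : q * n ≠ 0 := mul_ne_zero hq0 hn0
  have f1 := fin_quot hn0
  have f3 := fin_quot hqn0
  let _ : Fintype (eis ⧸ sp n) := Fintype.ofFinite _
  let _ : Fintype (eis ⧸ sp (q * n)) := Fintype.ofFinite _
  have hφ' : Pe (q * n) φ := hφ.mono (Dvd.intro_left q rfl)
  have hq0' : (q : ℂ) ≠ 0 := coe_ne hq0
  have hn0' : (n : ℂ) ≠ 0 := coe_ne hn0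
  rw [Bv_eq, Bv_eq]
  -- the injection
  set g : eis ⧸ sp n → eis ⧸ sp (q * n) := fun y => Ideal.Quotient.mk _ (q * y.out) with hg
  have hginj : Function.Injective g := by
    intro y y' h
    have h1 : q * y.out - q * y'.out ∈ sp (q * n) := by
      rw [← Ideal.Quotient.mk_eq_mk_iff_sub_mem]
      exact h
    rw [Ideal.mem_span_singleton'] at h1
    obtain ⟨b, hb⟩ := h1
    apply mk_eq
    rw [Ideal.mem_span_singleton']
    refine ⟨b, ?_⟩
    apply mul_left_cancel₀ hq0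
    linear_combination hb
  have hterm : ∀ y : eis ⧸ sp n, (if (g y).out ∈ sp q then φ (g y).out else 0) *
      Fv Ω (Ω * (g y).out / ((q * n : eis) : ℂ)) =
      φ (q * y.out) * Fv Ω (Ω * y.out / (n : ℂ)) := by
    intro y
    have h1 : (g y).out - q * y.out ∈ sp (q * n) := by
      have := neg_mem (out_mk (sp (q * n)) (q * y.out))
      rwa [neg_sub] at this
    have h2 : (g y).out ∈ sp q := by
      have h3 : (g y).out - q * y.out ∈ sp q := by
        rw [Ideal.mem_span_singleton'] at h1 ⊢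
        obtain ⟨b, hb⟩ := h1
        exact ⟨b * n, by linear_combination hb⟩
      have h4 := add_mem h3 (Ideal.mul_mem_right y.out (sp q) (Ideal.mem_span_singleton_self q))
      rwa [sub_add_cancel] at h4
    rw [if_pos h2, Bv_term hL hqn0 hφ' h1]
    congr 2
    push_cast
    field_simp
  rw [← Finset.sum_congr rfl (fun y _ => hterm y)]
  rw [← Finset.sum_image (s := Finset.univ) (g := g) (f := fun x : eis ⧸ sp (q * n) =>
    (if x.out ∈ sp q then φ x.out else 0) *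
      Fv Ω (Ω * x.out / ((q * n : eis) : ℂ))) (fun a _ b _ h => hginj h)]
  symm
  refine Finset.sum_subset (Finset.subset_univ _) fun x _ hx => ?_
  rw [if_neg, zero_mul]
  intro hd
  apply hx
  rw [Ideal.mem_span_singleton'] at hd
  obtain ⟨c, hc⟩ := hd
  rw [Finset.mem_image]
  refine ⟨Ideal.Quotient.mk _ c, Finset.mem_univ _, ?_⟩
  show Ideal.Quotient.mk _ (q * (Ideal.Quotient.mk (sp n) c).out) = x
  conv_rhs => rw [← Ideal.Quotient.mk_out x]
  rw [Ideal.Quotient.mk_eq_mk_iff_sub_mem]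
  have h1 := out_mk (sp n) c
  rw [Ideal.mem_span_singleton'] at h1
  obtain ⟨b, hb⟩ := h1
  rw [Ideal.mem_span_singleton']
  exact ⟨-b, by linear_combination -q * hb - hc⟩

open Classical in
/-- removing a prime -/
theorem Bv_rem (hL : IsLat L eis Ω) {n q : eis} (hn0 : n ≠ 0)
    (hq0 : q ≠ 0) (hq1 : N1 q) {κ : ℂ} {φ : eis → ℂ}
    (hφ : Pe n φ) (hφq : ∀ m : eis, φ (q * m) = κ * φ m) :
    Bv Ω (q * n) (fun m => if m ∈ sp q then 0 else φ m) = (q - κ) * Bv Ω n φ := by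
  have hqn0 : q * n ≠ 0 := mul_ne_zero hq0 hn0
  have f1 := fin_quot hn0
  let _ : Fintype (eis ⧸ sp n) := Fintype.ofFinite _
  have f3 := fin_quot hqn0
  let _ : Fintype (eis ⧸ sp (q * n)) := Fintype.ofFinite _
  have h1 := Bv_dist hL hn0 hq0 hq1 hφ
  have h2 := Bv_mult hL hn0 hq0 hφ
  simp only [hφq] at h2
  have h3 : Bv Ω (q * n) (fun m => if m ∈ sp q then 0 else φ m) =
      Bv Ω (q * n) φ - Bv Ω (q * n) (fun m => if m ∈ sp q then φ m else 0) := by
    rw [Bv_eq, Bv_eq, Bv_eq, ← Finset.sum_sub_distrib]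
    refine Finset.sum_congr rfl fun x _ => ?_
    split_ifs <;> ring
  have h4 : Bv Ω n (fun m => κ * φ m) = κ * Bv Ω n φ := by
    rw [Bv_eq, Bv_eq, Finset.mul_sum]
    exact Finset.sum_congr rfl fun x _ => by ring
  rw [h3, h1, h2, h4]
  ring

lemma Bv_smul {n : eis} (hn : n ≠ 0) (c : ℂ) (φ : eis → ℂ) :
    Bv Ω n (fun m => c * φ m) = c * Bv Ω n φ := by
  have f1 := fin_quot hn
  let _ : Fintype (eis ⧸ sp n) := Fintype.ofFinite _
  rw [Bv_eq, Bv_eq, Finset.mul_sum]
  exact Finset.sum_congr rfl fun x _ => by ring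

lemma Bv_sum {n : eis} (hn : n ≠ 0) {ι : Type*} (s : Finset ι) (φ : ι → eis → ℂ) :
    Bv Ω n (fun m => ∑ i ∈ s, φ i m) = ∑ i ∈ s, Bv Ω n (φ i) := by
  have f1 := fin_quot hn
  let _ : Fintype (eis ⧸ sp n) := Fintype.ofFinite _
  simp only [Bv_eq]
  rw [Finset.sum_comm]
  exact Finset.sum_congr rfl fun x _ => by rw [Finset.sum_mul]

lemma FX.mono {ι : Type} {S S' : Finset ι} {π : ι → eis} (h : FX S π) (hs : S' ⊆ S) :
    FX S' π := ⟨fun i hi => h.pd i (hs hi), fun i hi j hj => h.ne i (hs hi) j (hs hj)⟩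

lemma prod_ne {ι : Type} {S : Finset ι} {π : ι → eis} (h : FX S π) : ∏ i ∈ S, π i ≠ 0 :=
  Finset.prod_ne_zero_iff.2 fun i hi => (h.pd i hi).ne

lemma prod_odd {ι : Type} {S : Finset ι} {π : ι → eis} (h : FX S π) :
    IsCoprime (2 : eis) (∏ i ∈ S, π i) := IsCoprime.prod_right fun i hi => (h.pd i hi).odd

/-- removing several primes -/
theorem Bv_rems {ι : Type} (hL : IsLat L eis Ω) {n : eis} (hn : n ≠ 0) {φ : eis → ℂ}
    (hφ : Pe n φ) {π : ι → eis} (κ : ι → ℂ) (B : Finset ι) (hB : FX B π)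
    (hκ : ∀ i ∈ B, Mu (π i) φ (κ i)) :
    Bv Ω ((∏ i ∈ B, π i) * n) (fun m => φ m * ∏ i ∈ B, tr (π i) m) =
      (∏ i ∈ B, ((π i : ℂ) - κ i)) * Bv Ω n φ := by
  classical
  induction B using Finset.induction_on with
  | empty => simp
  | insert q B hq ih =>
    have hBs : FX B π := hB.mono (Finset.subset_insert _ _)
    have ih' := ih hBs fun p hp => hκ p (Finset.mem_insert_of_mem hp)
    have h1 := hB.pd q (Finset.mem_insert_self _ _)
    rw [Finset.prod_insert hq, mul_assoc, Finset.prod_insert hq, mul_assoc, ← ih']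
    have hBg : (∏ i ∈ B, π i) * n ≠ 0 := mul_ne_zero (prod_ne hBs) hn
    have e : (fun m : eis => φ m * ∏ i ∈ insert q B, tr (π i) m) =
        fun m : eis => if m ∈ sp (π q) then 0 else φ m * ∏ i ∈ B, tr (π i) m := by
      funext m
      rw [Finset.prod_insert hq]
      unfold tr
      split_ifs <;> ring
    rw [e]
    have hne : ∀ p ∈ B, p ≠ q := fun p hp h => hq (h ▸ hp)
    refine Bv_rem hL hBg h1.ne h1.n1 ?_ ?_
    · exact (hφ.mono (Dvd.intro_left _ rfl)).mul ((Pe.prod fun p _ => tr_per (π p)).mono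
        (Dvd.intro _ rfl))
    · have h2 : Mu (π q) (fun m => φ m * ∏ i ∈ B, tr (π i) m) (κ q * ∏ i ∈ B, (1 : ℂ)) := by
        refine (hκ q (Finset.mem_insert_self _ _)).mul (Mu.prod fun p hp m => ?_)
        rw [one_mul]
        exact tr_mul (hBs.pd p hp).pr (hB.ne q (Finset.mem_insert_self _ _) p
          (Finset.mem_insert_of_mem hp) (hne p hp).symm) m
      intro m
      have h3 := h2 m
      rw [Finset.prod_const_one, mul_one] at h3
      exact h3

/-- the sum over the subsets -/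
theorem Bv_subsets {ι : Type} [DecidableEq ι] (hL : IsLat L eis Ω) {π : ι → eis} (S : Finset ι)
    (hS : FX S π) :
    ∑ A ∈ S.powerset, (∏ i ∈ S \ A, ((π i : ℂ) - ∏ j ∈ A, sy (π j) (π i))) *
      Bv Ω (∏ i ∈ A, π i) (fun m => ∏ i ∈ A, sy (π i) m) =
    2 ^ S.card * Bv Ω (∏ i ∈ S, π i) (fun m => ∏ i ∈ S, hc (π i) m) := by
  have hSg := prod_ne hS
  have h1 : ∀ A ∈ S.powerset, (∏ i ∈ S \ A, ((π i : ℂ) - ∏ j ∈ A, sy (π j) (π i))) *
      Bv Ω (∏ i ∈ A, π i) (fun m => ∏ i ∈ A, sy (π i) m) =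
      Bv Ω (∏ i ∈ S, π i)
        (fun m => (∏ i ∈ A, sy (π i) m) * ∏ i ∈ S \ A, tr (π i) m) := by
    intro A hA
    rw [Finset.mem_powerset] at hA
    have hAg := prod_ne (hS.mono hA)
    rw [← Bv_rems hL hAg ?_ _ (S \ A) (hS.mono Finset.sdiff_subset) ?_]
    · rw [Finset.prod_sdiff hA]
    · exact Pe.prod fun p _ => sy_per (π p)
    · intro i hi
      rw [Finset.mem_sdiff] at hi
      exact Mu.prod (q := π i) (S := A) (f := fun j => sy (π j))
        (κ := fun j => sy (π j) (π i)) fun j hj m => (hS.pd j (hA hj)).mul _ _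
  rw [Finset.sum_congr rfl h1, ← Bv_sum hSg, ← Bv_smul hSg]
  congr 1
  funext m
  have h2 : ∏ i ∈ S, (sy (π i) m + tr (π i) m) =
      ∑ A ∈ S.powerset, (∏ i ∈ A, sy (π i) m) * ∏ i ∈ S \ A, tr (π i) m :=
    Finset.prod_add _ _ _
  have h3 : ∏ i ∈ S, (sy (π i) m + tr (π i) m) = 2 ^ S.card * ∏ i ∈ S, hc (π i) m := by
    rw [← Finset.prod_const, ← Finset.prod_mul_distrib]
    refine Finset.prod_congr rfl fun q _ => ?_
    unfold hc
    ring
  rw [← h2, h3]

lemma cop_of {ϖ x : eis} (h : Prime ϖ) (hx : x ∉ sp ϖ) : IsCoprime ϖ x := by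
  rw [h.irreducible.coprime_iff_not_dvd]
  rwa [Ideal.mem_span_singleton] at hx

lemma FX.cop {ι : Type} {S : Finset ι} {π : ι → eis} (h : FX S π) {i : ι} (hi : i ∈ S)
    {T : Finset ι} (hT : T ⊆ S) (hiT : i ∉ T) : IsCoprime (π i) (∏ j ∈ T, π j) :=
  IsCoprime.prod_right fun j hj => cop_of (h.pd i hi).pr fun h1 =>
    h.ne j (hT hj) i hi (fun h2 => hiT (h2 ▸ hj)) h1

/-- the number of the squares -/
theorem card_sq {ϖ : eis} (h : PX ϖ) : ∃ s : ℕ, (s : ZMod 2) = F4.tr (bt ϖ) ∧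
    ∑ᶠ x : eis ⧸ sp ϖ, hc ϖ x.out = (s : ℂ) := by
  classical
  have hm := maximal_sp h.pr.irreducible
  have f1 := fin_quot h.pr.ne_zero
  let i1 : Field (eis ⧸ sp ϖ) := Ideal.Quotient.field (sp ϖ)
  let i2 : Fintype (eis ⧸ sp ϖ) := Fintype.ofFinite _
  have hs : Function.Surjective (Ideal.Quotient.mk (sp ϖ)) := Ideal.Quotient.mk_surjective
  have hk : ∀ x, Ideal.Quotient.mk (sp ϖ) x = 0 ↔ x ∈ sp ϖ := fun x =>
    Ideal.Quotient.eq_zero_iff_mem
  have hsy := sy_eq (Ideal.Quotient.mk (sp ϖ)) hs hk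
  have h20 : (2 : eis ⧸ sp ϖ) ≠ 0 := by
    intro h0
    have h1 : Ideal.Quotient.mk (sp ϖ) 2 = 0 := by rw [map_ofNat]; exact h0
    exact two_notin h.odd h.pr ((hk 2).1 h1)
  have hch : ringChar (eis ⧸ sp ϖ) ≠ 2 := by
    intro h1
    apply h20
    have h2 := ringChar.Nat.cast_ringChar (R := eis ⧸ sp ϖ)
    rw [h1] at h2
    exact_mod_cast h2
  set s := (Finset.univ.filter fun x : eis ⧸ sp ϖ => quadraticChar (eis ⧸ sp ϖ) x = 1).card with hsd
  set t := (Finset.univ.filter fun x : eis ⧸ sp ϖ => quadraticChar (eis ⧸ sp ϖ) x = -1).card with htd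
  have hval : ∀ x : eis ⧸ sp ϖ, quadraticChar (eis ⧸ sp ϖ) x =
      (if quadraticChar (eis ⧸ sp ϖ) x = 1 then 1 else 0) -
        (if quadraticChar (eis ⧸ sp ϖ) x = -1 then 1 else 0) := by
    intro x
    by_cases hx : x = 0
    · rw [hx, MulChar.map_zero]
      norm_num
    · rcases quadraticChar_dichotomy hx with h1 | h1 <;> rw [h1] <;> norm_num
  have hst : (s : ℤ) = t := by
    have h1 := quadraticChar_sum_zero hch
    rw [Finset.sum_congr rfl (fun x _ => hval x), Finset.sum_sub_distrib, Finset.sum_boole,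
      Finset.sum_boole] at h1
    have h2 : ((s : ℕ) : ℤ) - (t : ℕ) = 0 := h1
    linarith
  have hcard : Fintype.card (eis ⧸ sp ϖ) = s + t + 1 := by
    have h1 : (Finset.univ : Finset (eis ⧸ sp ϖ)) =
        insert 0 ((Finset.univ.filter fun x : eis ⧸ sp ϖ => quadraticChar (eis ⧸ sp ϖ) x = 1) ∪
        (Finset.univ.filter fun x : eis ⧸ sp ϖ => quadraticChar (eis ⧸ sp ϖ) x = -1)) := by
      ext x
      simp only [Finset.mem_univ, Finset.mem_insert, Finset.mem_union, Finset.mem_filter,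
        true_and, true_iff]
      by_cases hx : x = 0
      · exact Or.inl hx
      · exact Or.inr (quadraticChar_dichotomy hx)
    rw [← Finset.card_univ, h1, Finset.card_insert_of_notMem, Finset.card_union_of_disjoint]
    · rw [Finset.disjoint_left]
      intro x hx hx'
      rw [Finset.mem_filter] at hx hx'
      rw [hx.2] at hx'
      norm_num at hx'
    · rw [Finset.mem_union, Finset.mem_filter, Finset.mem_filter, MulChar.map_zero]
      norm_num
  have hst' : s = t := by exact_mod_cast hst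
  refine ⟨s, ?_, ?_⟩
  · -- the parity
    obtain ⟨a, b, hab⟩ := h.half
    have h1 := card_half a b
    rw [← hab, Nat.card_eq_fintype_card, hcard, ← hst'] at h1
    have h2 : (s : ℤ) = 2 * a + 2 * a ^ 2 - b - 2 * a * b + 2 * b ^ 2 := by
      push_cast at h1
      linarith
    have h3 : ((s : ℤ) : ZMod 2) = (b : ZMod 2) := by
      rw [h2]
      push_cast
      have e2 : (2 : ZMod 2) = 0 := by decide
      have e3 : ∀ x : ZMod 2, -x = x := by decide
      rw [e2]
      linear_combination e3 (b : ZMod 2)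
    rw [hab, bt_ez]
    show ((s : ℕ) : ZMod 2) = (b : ZMod 2)
    rw [← h3]
    push_cast
    rfl
  · rw [finsum_eq_sum_of_fintype]
    have h1 : ∀ x : eis ⧸ sp ϖ, hc ϖ x.out =
        if quadraticChar (eis ⧸ sp ϖ) x = 1 then 1 else 0 := by
      intro x
      unfold hc
      rw [hsy, Ideal.Quotient.mk_out]
      unfold tr
      by_cases hx : x = 0
      · have h2 : Quotient.out x ∈ sp ϖ := by
          rw [← Ideal.Quotient.eq_zero_iff_mem, Ideal.Quotient.mk_out, hx]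
        rw [if_pos h2, hx, MulChar.map_zero]
        norm_num
      · have h2 : Quotient.out x ∉ sp ϖ := by
          rw [← Ideal.Quotient.eq_zero_iff_mem, Ideal.Quotient.mk_out]
          exact hx
        rw [if_neg h2]
        rcases quadraticChar_dichotomy hx with h1 | h1 <;> rw [h1] <;> norm_num
    rw [Finset.sum_congr rfl (fun x _ => h1 x), Finset.sum_boole]

theorem card_common {ι : Type} [DecidableEq ι] {S : Finset ι} {π : ι → eis} (hS : FX S π) :
    ∃ s : ℕ, (s : ZMod 2) = ∏ i ∈ S, F4.tr (bt (π i)) ∧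
      ∑ᶠ x : eis ⧸ sp (∏ i ∈ S, π i), ∏ i ∈ S, hc (π i) x.out = (s : ℂ) := by
  induction S using Finset.induction_on with
  | empty =>
    refine ⟨1, by simp, ?_⟩
    have f1 := fin_quot (one_ne_zero : (1 : eis) ≠ 0)
    simp only [Finset.prod_empty]
    let _ : Fintype (eis ⧸ sp (1 : eis)) := Fintype.ofFinite _
    have htop : sp (1 : eis) = ⊤ := Ideal.span_singleton_one
    have hsub : Subsingleton (eis ⧸ sp (1 : eis)) := by
      rw [htop]
      infer_instance
    rw [finsum_eq_sum_of_fintype, Finset.sum_const, Finset.card_univ,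
      Fintype.card_eq_one_iff.2 ⟨0, fun y => Subsingleton.elim _ _⟩]
    simp
  | insert q S hq ih =>
    have hSs : FX S π := hS.mono (Finset.subset_insert _ _)
    obtain ⟨s, h1, h2⟩ := ih hSs
    have hq1 := hS.pd q (Finset.mem_insert_self _ _)
    obtain ⟨t, h3, h4⟩ := card_sq hq1
    refine ⟨s * t, ?_, ?_⟩
    · rw [Finset.prod_insert hq]
      push_cast
      rw [h1, h3]
      ring
    · have h5 := sum_crt (a := π q) (f := ∏ i ∈ S, π i) hq1.ne (prod_ne hSs)
        (hS.cop (Finset.mem_insert_self _ _) (Finset.subset_insert _ _) hq)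
        (φ := fun m => ∏ i ∈ S, hc (π i) m) (ψ := hc (π q)) (Pe.prod fun p _ => hc_per (π p))
        (hc_per (π q))
      rw [h2, h4] at h5
      rw [Finset.prod_insert hq]
      push_cast
      rw [← h5]
      congr 1
      funext x
      rw [Finset.prod_insert hq]
      ring

end Pool.Agent.L0h86.F3
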