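import Pool.Agent.L0h86.F3.Cor
import Pool.Agent.L0h23.FR.Rec
import Pool.Agent.L0h23.FD.Fin
import Pool.Agent.L0h61.T3.Lin

/-!
# The theorem for a single curve `y² = x³ + D³`
-/

set_option autoImplicit false
set_option linter.unusedSectionVars false

open Filter MeasureTheory
open scoped Topology PeriodPair

namespace Pool.Agent.L0h86.F3

open Pool.Agent.Y696 Pool.Agent.Y715.T.Lat
open Pool.Agent.Y698 (tam)
open Pool.Agent.Y698.SG (ix tnum)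
open Pool.Agent.L0h86.F1
open Pool.Agent.L0h4.TW Pool.Agent.L0h4.TA Pool.Agent.L0h23.EV
open NumberField IsDedekindDomain WithZero WeierstrassCurve
open Pool.Agent.TH841.NF.D (Sha)
open Pool.Agent.Y698 (MinimalAt)

/-- **the theorem for `D`** -/
theorem coreM {D : ℕ} (h : AdmM D) (h1 : D ≠ 1) {ϖ : ℕ → eis} (hd : Dt (M2 D) (M1 D) ϖ) :
    (∀ v : HeightOneSpectrum (𝓞 ℚ), MinimalAt (WM ℚ D) v) ∧
    (∃ t : ℕ, Odd t ∧ tnum (WM ℚ D) = 2 * t) ∧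
    ∏ᶠ v : HeightOneSpectrum (𝓞 ℚ), tam (WM ℚ D) v =
      2 * (if D % 8 = 1 then 3 else 1) * 2 ^ ((M2 D).card + 2 * (M1 D).card) ∧
    (Cr4 (M2 D) (M1 D) ϖ → Finite (WM ℚ D).toAffine.Point ∧
      ∀ (n : ℕ) (x : Sha (WM ℚ D)), 2 ^ n • x = 0 → x = 0) ∧
    ∃ Λ : ℂ → ℂ, Differentiable ℂ Λ ∧ (∀ s : ℂ, 2 < s.re → Λ s = (WM ℚ D).LSeries s) ∧
      ∀ (Γ : Type) [LinearOrderedCommGroupWithZero Γ] (v : Valuation ℂ Γ), v 2 < 1 →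
        v (quoM D (Λ 1)) ≤ 1 ∧ (v (quoM D (Λ 1)) = 1 ↔ Cr4 (M2 D) (M1 D) ϖ) := by
  refine ⟨fun v => minimal_WM v h, tnum_WM h.sf.ne_zero, prodtam_WM h, fun hc => ?_,
    levelM h h1 hd⟩
  obtain ⟨k1, k2⟩ := Pool.Agent.L0h23.FDE.fin_cr4 Pool.Agent.L0h80.F3.t_GEN Pool.Agent.L0h23.FR.t_SUP
    Pool.Agent.L0h23.FR.t_REC Pool.Agent.L0h61.T3.t_LIN hd (adm_prod h) h.m4 hc
  exact ⟨k1, fun n x hx => k2 x n hx⟩

end Pool.Agent.L0h86.F3
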