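import Mathlib

/-!
# Removing one element does not change a density
-/

set_option autoImplicit false

open Filter Topology

namespace Pool.Agent.L0h86.F3

open Classical in
/-- removing `D = 1` -/
theorem dens_del {P Q : ℕ → Prop} {l : ℝ}
    (h : Tendsto (fun X : ℕ => (((Finset.Icc 1 X).filter fun D => P D ∧ Q D).card : ℝ) /
      (((Finset.Icc 1 X).filter fun D => P D).card : ℝ)) atTop (𝓝 l))
    (hb : Tendsto (fun X : ℕ => (((Finset.Icc 1 X).filter fun D => P D).card : ℝ)) atTop atTop) :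
    Tendsto (fun X : ℕ => (((Finset.Icc 1 X).filter fun D => (1 < D ∧ P D) ∧ Q D).card : ℝ) /
      (((Finset.Icc 1 X).filter fun D => 1 < D ∧ P D).card : ℝ)) atTop (𝓝 l) := by
  set a : ℕ → ℝ := fun X => (((Finset.Icc 1 X).filter fun D => P D ∧ Q D).card : ℝ) with ha
  set b : ℕ → ℝ := fun X => (((Finset.Icc 1 X).filter fun D => P D).card : ℝ) with hbd
  obtain ⟨ee, hee⟩ : ∃ ee : (ℕ → Prop) → ℝ, ee = fun R => if R 1 then 1 else 0 := ⟨_, rfl⟩
  have hab : ∀ R : ℕ → Prop, ∀ X : ℕ, 1 ≤ X →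
      (((Finset.Icc 1 X).filter fun D => 1 < D ∧ R D).card : ℝ) =
      (((Finset.Icc 1 X).filter fun D => R D).card : ℝ) - ee R := by
    intro R X hX
    rw [hee]
    beta_reduce
    have e : (Finset.Icc 1 X).filter (fun D => 1 < D ∧ R D) =
        ((Finset.Icc 1 X).filter fun D => R D).erase 1 := by
      ext D
      simp only [Finset.mem_filter, Finset.mem_erase, Finset.mem_Icc]
      constructor
      · rintro ⟨h1, h2, h3⟩
        exact ⟨by omega, h1, h3⟩
      · rintro ⟨h1, h2, h3⟩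
        exact ⟨h2, by omega, h3⟩
    rw [e]
    split_ifs with h1
    · have hm : 1 ∈ (Finset.Icc 1 X).filter fun D => R D :=
        Finset.mem_filter.2 ⟨Finset.mem_Icc.2 ⟨le_rfl, hX⟩, h1⟩
      have h2 := Finset.card_erase_add_one hm
      have h3 : ((((Finset.Icc 1 X).filter fun D => R D).erase 1).card : ℝ) + 1 =
          (((Finset.Icc 1 X).filter fun D => R D).card : ℝ) := by exact_mod_cast h2
      linarith
    · rw [Finset.erase_eq_of_notMem, sub_zero]
      intro hm
      exact h1 (Finset.mem_filter.1 hm).2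
  set e₁ : ℝ := ee (fun D => P D ∧ Q D) with he₁
  set e₂ : ℝ := ee P with he₂
  have hlim : Tendsto (fun X : ℕ => (a X / b X - e₁ / b X) * (1 - e₂ / b X)⁻¹) atTop (𝓝 l) := by
    have h1 : Tendsto (fun X : ℕ => e₁ / b X) atTop (𝓝 0) := hb.const_div_atTop e₁
    have h2 : Tendsto (fun X : ℕ => e₂ / b X) atTop (𝓝 0) := hb.const_div_atTop e₂
    have h4 : Tendsto (fun X : ℕ => (1 - e₂ / b X)⁻¹) atTop (𝓝 (1 - 0)⁻¹) :=
      ((tendsto_const_nhds (x := (1 : ℝ))).sub h2).inv₀ (by norm_num)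
    have h3 := (h.sub h1).mul h4
    simpa using h3
  refine hlim.congr' ?_
  filter_upwards [eventually_ge_atTop 1, hb.eventually (eventually_gt_atTop 1)] with X hX hbX
  have hb1 : (1 : ℝ) < b X := hbX
  have hb0 : b X ≠ 0 := by linarith
  have e1 : (((Finset.Icc 1 X).filter fun D => (1 < D ∧ P D) ∧ Q D).card : ℝ) = a X - e₁ := by
    refine Eq.trans ?_ ((hab (fun D => P D ∧ Q D) X hX).trans ?_)
    · congr 1
      refine congrArg Finset.card (Finset.ext fun D => ?_)
      simp only [Finset.mem_filter]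
      tauto
    · simp only [ha]
      congr!
  have e2 : (((Finset.Icc 1 X).filter fun D => 1 < D ∧ P D).card : ℝ) = b X - e₂ :=
    hab P X hX
  have h2 : e₂ ≤ 1 := by
    rw [he₂, hee]
    beta_reduce
    split_ifs <;> norm_num
  have hb2 : b X - e₂ ≠ 0 := by linarith
  rw [e1, e2]
  field_simp

end Pool.Agent.L0h86.F3
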