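import Pool.Agent.L0h86.F3.Mat
import Pool.Agent.L0h86.F3.Del
import Pool.Agent.L0h74.T3.Den

/-!
# The density of the `D > 1` whose matrix is not singular
-/

set_option autoImplicit false
set_option linter.unusedSectionVars false

open scoped Classical
open Filter Topology

namespace Pool.Agent.L0h86.F3

open Pool.Agent.L0h86.F1 (AdmM M1 M2)
open Pool.Agent.L0h74.T3 (RecA Gd)

/-- the number of the admissible `D` tends to infinity -/
lemma many : Tendsto (fun X : ℕ => (((Finset.Icc 1 X).filter fun D => AdmM D).card : ℝ))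
    atTop atTop := by
  have h1 : Tendsto (fun X : ℕ => 1 / 14 * (X : ℝ)) atTop atTop :=
    tendsto_natCast_atTop_atTop.const_mul_atTop (by norm_num)
  refine tendsto_atTop_mono' _ ?_ h1
  filter_upwards [Pool.Agent.L0h74.T3.KDL.low] with X hX
  refine hX.1.trans (le_of_eq ?_)
  congr 1
  refine congrArg Finset.card (Finset.ext fun D => ?_)
  unfold Pool.Agent.L0h74.T3.KDL.GS Pool.Agent.L0h74.T3.S4.GS
  rw [Finset.mem_filter, Finset.mem_filter]
  refine and_congr_right fun _ => ⟨fun h => ⟨h.1, h.2.1, fun h3 => h.2.2 (Nat.mod_eq_zero_of_dvd h3)⟩,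
    fun h => ⟨h.sf, h.m4, fun h3 => h.n3 (Nat.dvd_of_mod_eq_zero h3)⟩⟩

/-- **the density**, from the translation of the criterion -/
theorem dens_of {A : ℕ → ℕ → ZMod 2} {b : ℕ → ZMod 2} (hA : RecA A) {Q : ℕ → Prop}
    (htr : ∀ D : ℕ, AdmM D → (Q D ↔ Gd A b D.primeFactors)) :
    Tendsto (fun X : ℕ => (((Finset.Icc 1 X).filter fun D => (1 < D ∧ AdmM D) ∧ Q D).card : ℝ) /
      (((Finset.Icc 1 X).filter fun D => 1 < D ∧ AdmM D).card : ℝ))
    atTop (nhds ((∏' i : ℕ, (1 - (1 / 2 : ℝ) ^ (2 * i + 1))) / 2)) := by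
  refine dens_del ?_ many
  have h := Pool.Agent.L0h74.T3.Den.t_DEN A b hA
  unfold Pool.Agent.Y703.CQ.c2 at h
  refine h.congr fun X => congrArg₂ (fun a b : ℕ => (a : ℝ) / (b : ℝ)) ?_ ?_
  · refine congrArg Finset.card (Finset.ext fun D => ?_)
    rw [Finset.mem_filter, Finset.mem_filter]
    refine and_congr_right fun _ => ?_
    constructor
    · rintro ⟨h1, h2, h3, h4⟩
      exact ⟨⟨h1, h2, h3⟩, (htr D ⟨h1, h2, h3⟩).2 h4⟩
    · rintro ⟨h1, h4⟩
      exact ⟨h1.sf, h1.m4, h1.n3, (htr D h1).1 h4⟩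
  · refine congrArg Finset.card (Finset.ext fun D => ?_)
    rw [Finset.mem_filter, Finset.mem_filter]
    exact and_congr_right fun _ => ⟨fun h1 => ⟨h1.1, h1.2.1, h1.2.2⟩, fun h1 => ⟨h1.sf, h1.m4, h1.n3⟩⟩

end Pool.Agent.L0h86.F3
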