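import Pool.Agent.L0h86.F3.Def

/-!
# A recursion for determinants in characteristic two
-/

set_option autoImplicit false
set_option linter.unusedSectionVars false

namespace Pool.Agent.L0h86.F3

open Finset

variable {ι : Type} [DecidableEq ι] {K : Type} [CommRing K] [IsDomain K] [CharP K 2]

/-- coefficients -/
def co (K : Type) [CommRing K] (S A : Finset ι) : Option S → K
  | none => 1
  | some j => if (j : ι) ∈ A then 1 else 0

/-- rows -/
def rw' (c : ι → K) (r : ι → ι → K) (S : Finset ι) (i : S) : Option S → S → K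
  | none => fun k => if k = i then c i else 0
  | some j => fun k => if j = i then 0 else (if k = i then r i j else 0) + (if k = j then r i j else 0)

/-- the matrix `N_A` -/
def NA (c : ι → K) (r : ι → ι → K) (S A : Finset ι) : Matrix S S (K) :=
  Matrix.of fun i : S => ∑ o : Option S, co K S A o • rw' c r S i o

theorem det_NA_expand (c : ι → K) (r : ι → ι → K) (S A : Finset ι) :
    (NA c r S A).det = ∑ f : S → Option S, (∏ i, co K S A (f i)) *
      (Matrix.of fun i : S => rw' c r S i (f i)).det := by
  have h := (Matrix.detRowAlternating (n := S) (R := K)).toMultilinearMap.map_sum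
    (fun (i : S) (o : Option S) => co K S A o • rw' c r S i o)
  have h2 : (NA c r S A).det = (Matrix.detRowAlternating (n := S) (R := K)).toMultilinearMap
    (fun i : S => ∑ o : Option S, co K S A o • rw' c r S i o) := rfl
  rw [h2, h]
  refine Finset.sum_congr rfl fun f _ => ?_
  rw [MultilinearMap.map_smul_univ]
  rfl

theorem add_self_two (x : K) : x + x = 0 := CharTwo.add_self_eq_zero x

theorem sum_co_zero (S : Finset ι) (f : S → Option S) (j0 : S) (h : ∀ i, f i ≠ some j0) :
    ∑ A ∈ S.powerset, ∏ i, co K S A (f i) = 0 := by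
  refine Finset.sum_involution (fun A _ => if (j0 : ι) ∈ A then A.erase j0 else insert (j0 : ι) A)
    ?_ ?_ ?_ ?_
  · intro A _
    have : ∀ i, co K S A (f i) =
        co K S (if (j0 : ι) ∈ A then A.erase j0 else insert (j0 : ι) A) (f i) := by
      intro i
      rcases hfi : f i with _ | j
      · rfl
      · have hne : (j : ι) ≠ j0 := by
          intro e
          exact h i (by rw [hfi, Subtype.ext e])
        unfold co
        by_cases hA : (j0 : ι) ∈ A
        · rw [if_pos hA]
          simp [hne]
        · rw [if_neg hA]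
          simp [hne]
    rw [Finset.prod_congr rfl fun i _ => this i]
    exact add_self_two _
  · intro A _ _ heq
    by_cases hA : (j0 : ι) ∈ A
    · rw [if_pos hA] at heq
      have : (j0 : ι) ∈ A.erase j0 := by rw [heq]; exact hA
      exact Finset.notMem_erase _ _ this
    · rw [if_neg hA] at heq
      exact hA (by rw [← heq]; exact Finset.mem_insert_self _ _)
  · intro A hA
    rw [Finset.mem_powerset] at hA ⊢
    by_cases h' : (j0 : ι) ∈ A
    · rw [if_pos h']
      exact (Finset.erase_subset _ _).trans hA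
    · rw [if_neg h']
      exact Finset.insert_subset j0.2 hA
  · intro A _
    by_cases h' : (j0 : ι) ∈ A
    · simp only [if_pos h', Finset.notMem_erase, if_false]
      exact Finset.insert_erase h'
    · simp only [if_neg h', Finset.mem_insert_self, if_true]
      exact Finset.erase_insert h'

theorem det_rows_zero (c : ι → K) (r : ι → ι → K) (S : Finset ι) (hS : S.Nonempty)
    (f : S → Option S) (hf : ∀ j, ∃ i, f i = some j) :
    (Matrix.of fun i : S => rw' c r S i (f i)).det = 0 := by
  have hnone : ∀ i, f i ≠ none := by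
    intro i hi
    have hsurj : Function.Surjective f := by
      intro o
      rcases o with _ | j
      · exact ⟨i, hi⟩
      · exact hf j
    have := Fintype.card_le_of_surjective f hsurj
    rw [Fintype.card_option] at this
    omega
  rw [← Matrix.exists_mulVec_eq_zero_iff]
  refine ⟨fun _ => 1, ?_, ?_⟩
  · obtain ⟨a, ha⟩ := hS
    intro h
    have := congrFun h ⟨a, ha⟩
    simp at this
  · funext i
    simp only [Matrix.mulVec, dotProduct, mul_one, Matrix.of_apply, Pi.zero_apply]
    rcases hfi : f i with _ | j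
    · exact absurd hfi (hnone i)
    · unfold rw'
      by_cases hji : j = i
      · simp [hji]
      · simp only [if_neg hji]
        rw [Finset.sum_add_distrib, Finset.sum_ite_eq' Finset.univ i,
          Finset.sum_ite_eq' Finset.univ j]
        simp only [Finset.mem_univ, if_true]
        exact add_self_two _

theorem sum_det_NA (c : ι → K) (r : ι → ι → K) (S : Finset ι) (hS : S.Nonempty) :
    ∑ A ∈ S.powerset, (NA c r S A).det = 0 := by
  have h1 : ∑ A ∈ S.powerset, (NA c r S A).det =
      ∑ f : S → Option S, (∑ A ∈ S.powerset, ∏ i, co K S A (f i)) *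
        (Matrix.of fun i : S => rw' c r S i (f i)).det := by
    rw [Finset.sum_congr rfl fun A _ => det_NA_expand c r S A, Finset.sum_comm]
    refine Finset.sum_congr rfl fun f _ => ?_
    rw [Finset.sum_mul]
  rw [h1]
  refine Finset.sum_eq_zero fun f _ => ?_
  by_cases hf : ∀ j, ∃ i, f i = some j
  · rw [det_rows_zero c r S hS f hf, mul_zero]
  · push Not at hf
    obtain ⟨j0, hj0⟩ := hf
    rw [sum_co_zero S f j0 hj0, zero_mul]

theorem NA_diag (c : ι → K) (r : ι → ι → K) {S A : Finset ι} (hA : A ⊆ S) (i : S) :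
    NA c r S A i i = c i + ∑ k ∈ A.erase i, r i k := by
  unfold NA
  rw [Matrix.of_apply, Finset.sum_apply, Fintype.sum_option]
  congr 1
  · simp [co, rw']
  · have h1 : ∑ j : S, (co K S A (some j) • rw' c r S i (some j)) i
        = ∑ j : S, if (j : ι) ∈ A.erase i then r i j else 0 := by
      refine Finset.sum_congr rfl fun j _ => ?_
      simp only [co, rw', Pi.smul_apply, smul_eq_mul, Finset.mem_erase, ne_eq]
      by_cases hji : j = i
      · subst hji; simp
      · have hji' : (j : ι) ≠ i := fun e => hji (Subtype.ext e)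
        by_cases hjA : (j : ι) ∈ A
        · simp [hji, hji', hjA, Ne.symm hji]
        · simp [hjA]
    rw [h1, Finset.sum_coe_sort S (fun j => if j ∈ A.erase (i : ι) then r i j else 0),
      Finset.sum_ite_mem]
    congr 1
    rw [Finset.inter_eq_right]
    exact (Finset.erase_subset _ _).trans hA

theorem NA_off (c : ι → K) (r : ι → ι → K) {S A : Finset ι} {i k : S} (hik : k ≠ i) :
    NA c r S A i k = if (k : ι) ∈ A then r i k else 0 := by
  unfold NA
  rw [Matrix.of_apply, Finset.sum_apply, Fintype.sum_option]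
  have h0 : (co K S A none • rw' c r S i none) k = 0 := by simp [co, rw', hik]
  rw [h0, zero_add, Finset.sum_eq_single k]
  · simp only [co, rw', Pi.smul_apply, smul_eq_mul, if_neg hik]
    by_cases hkA : (k : ι) ∈ A <;> simp [hkA]
  · intro j _ hjk
    simp only [co, rw', Pi.smul_apply, smul_eq_mul]
    by_cases hji : j = i
    · simp [hji]
    · simp [hji, hik, Ne.symm hjk]
  · intro h
    exact absurd (Finset.mem_univ k) h

theorem det_NA (c : ι → K) (r : ι → ι → K) {S A : Finset ι} (hA : A ⊆ S) :
    (NA c r S A).det = gk c r A * ∏ i ∈ S \ A, (c i + ∑ j ∈ A, r i j) := by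
  rw [Matrix.twoBlockTriangular_det' (NA c r S A) (fun i : S => (i : ι) ∈ A)]
  · congr 1
    · -- the block of A
      let e : A ≃ {i : S // (i : ι) ∈ A} :=
        { toFun := fun a => ⟨⟨a, hA a.2⟩, a.2⟩
          invFun := fun i => ⟨i.1.1, i.2⟩
          left_inv := fun a => rfl
          right_inv := fun i => rfl }
      rw [← Matrix.det_submatrix_equiv_self e]
      unfold gk
      congr 1
      ext i j
      show NA c r S A ⟨i, hA i.2⟩ ⟨j, hA j.2⟩ =
        (if i = j then c i + ∑ k ∈ A.erase (i : ι), r i k else r i j)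
      by_cases hij : i = j
      · subst hij
        rw [if_pos rfl]
        exact NA_diag c r hA _
      · rw [if_neg hij]
        have hne : (⟨(j : ι), hA j.2⟩ : S) ≠ ⟨(i : ι), hA i.2⟩ := by
          intro h
          exact hij (Subtype.ext (congrArg Subtype.val h).symm)
        have := NA_off c r (A := A) hne
        rw [if_pos j.2] at this
        exact this
    · -- the diagonal block
      have h1 : Matrix.toSquareBlockProp (NA c r S A) (fun i : S => ¬ (i : ι) ∈ A)
          = Matrix.diagonal (fun i : {i : S // ¬ (i : ι) ∈ A} =>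
            c i.1 + ∑ j ∈ A, r i.1 j) := by
        ext i j
        rw [Matrix.toSquareBlockProp_def, Matrix.of_apply]
        by_cases hij : i = j
        · subst hij
          rw [Matrix.diagonal_apply_eq, NA_diag c r hA, Finset.erase_eq_of_notMem i.2]
        · rw [Matrix.diagonal_apply_ne _ hij]
          have hne : j.1 ≠ i.1 := fun h => hij (Subtype.ext h.symm)
          rw [NA_off c r hne, if_neg j.2]
      rw [h1, Matrix.det_diagonal]
      symm
      refine Finset.prod_bij' (fun i hi => (⟨⟨i, (Finset.mem_sdiff.mp hi).1⟩,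
        (Finset.mem_sdiff.mp hi).2⟩ : {i : S // ¬ (i : ι) ∈ A})) (fun i _ => (i.1 : ι))
        (fun _ _ => Finset.mem_univ _) (fun i _ => Finset.mem_sdiff.mpr ⟨i.1.2, i.2⟩)
        (fun _ _ => rfl) (fun _ _ => rfl) (fun _ _ => rfl)
  · intro i hi j hj
    have hne : j ≠ i := fun h => hj (h ▸ hi)
    rw [NA_off c r hne, if_neg hj]

/-- the recursion -/
theorem rec_aux (c : ι → K) (r : ι → ι → K) (S : Finset ι) (hS : S.Nonempty) :
    ∑ A ∈ S.powerset, gk c r A * ∏ i ∈ S \ A, (c i + ∑ j ∈ A, r i j) = 0 := by
  rw [← sum_det_NA c r S hS]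
  refine Finset.sum_congr rfl fun A hA => ?_
  rw [det_NA c r (Finset.mem_powerset.mp hA)]

/-- the recursion with other linear terms -/
theorem rec_gen (b c : ι → K) (r : ι → ι → K) (S : Finset ι) :
    ∑ A ∈ S.powerset, gk c r A * ∏ i ∈ S \ A, (b i + ∑ j ∈ A, r i j) = ∏ i ∈ S, (b i + c i) := by
  have h1 : ∀ A ∈ S.powerset, gk c r A * ∏ i ∈ S \ A, (b i + ∑ j ∈ A, r i j) =
      ∑ U ∈ S.powerset.filter (fun U => A ⊆ U),
        (∏ i ∈ S \ U, (b i + c i)) * (gk c r A * ∏ i ∈ U \ A, (c i + ∑ j ∈ A, r i j)) := by
    intro A hA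
    rw [Finset.mem_powerset] at hA
    have e : ∏ i ∈ S \ A, (b i + ∑ j ∈ A, r i j) =
        ∏ i ∈ S \ A, ((c i + ∑ j ∈ A, r i j) + (b i + c i)) :=
      Finset.prod_congr rfl fun i _ => by linear_combination -(add_self_two (c i))
    rw [e, Finset.prod_add, Finset.mul_sum]
    refine Finset.sum_nbij' (fun T => A ∪ T) (fun U => U \ A) ?_ ?_ ?_ ?_ ?_
    · intro T hT
      rw [Finset.mem_powerset] at hT
      rw [Finset.mem_filter, Finset.mem_powerset]
      exact ⟨Finset.union_subset hA (hT.trans Finset.sdiff_subset), Finset.subset_union_left⟩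
    · intro U hU
      rw [Finset.mem_filter, Finset.mem_powerset] at hU
      rw [Finset.mem_powerset]
      exact Finset.sdiff_subset_sdiff hU.1 subset_rfl
    · intro T hT
      rw [Finset.mem_powerset] at hT
      have hd : Disjoint A T := by
        rw [Finset.disjoint_left]
        intro x hx hx'
        exact (Finset.mem_sdiff.1 (hT hx')).2 hx
      show (A ∪ T) \ A = T
      rw [Finset.union_sdiff_cancel_left hd]
    · intro U hU
      rw [Finset.mem_filter, Finset.mem_powerset] at hU
      show A ∪ U \ A = U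
      exact Finset.union_sdiff_of_subset hU.2
    · intro T hT
      rw [Finset.mem_powerset] at hT
      have hd : Disjoint A T := by
        rw [Finset.disjoint_left]
        intro x hx hx'
        exact (Finset.mem_sdiff.1 (hT hx')).2 hx
      have e1 : (A ∪ T) \ A = T := Finset.union_sdiff_cancel_left hd
      have e2 : S \ (A ∪ T) = (S \ A) \ T := (sdiff_sdiff_left (a := S) (b := A) (c := T)).symm
      show gk c r A * ((∏ i ∈ T, (c i + ∑ j ∈ A, r i j)) * ∏ i ∈ (S \ A) \ T, (b i + c i)) =
        (∏ i ∈ S \ (A ∪ T), (b i + c i)) * (gk c r A * ∏ i ∈ (A ∪ T) \ A, (c i + ∑ j ∈ A, r i j))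
      rw [e1, e2]
      ring
  rw [Finset.sum_congr rfl h1]
  have h2 : ∑ A ∈ S.powerset, ∑ U ∈ S.powerset.filter (fun U => A ⊆ U),
        (∏ i ∈ S \ U, (b i + c i)) * (gk c r A * ∏ i ∈ U \ A, (c i + ∑ j ∈ A, r i j)) =
      ∑ U ∈ S.powerset, ∑ A ∈ U.powerset,
        (∏ i ∈ S \ U, (b i + c i)) * (gk c r A * ∏ i ∈ U \ A, (c i + ∑ j ∈ A, r i j)) := by
    refine Finset.sum_comm' ?_
    intro A U
    rw [Finset.mem_powerset, Finset.mem_filter, Finset.mem_powerset, Finset.mem_powerset]
    exact ⟨fun h => ⟨h.2.2, h.2.1⟩, fun h => ⟨h.1.trans h.2, h.2, h.1⟩⟩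
  rw [h2]
  have h3 : ∀ U ∈ S.powerset, ∑ A ∈ U.powerset,
        (∏ i ∈ S \ U, (b i + c i)) * (gk c r A * ∏ i ∈ U \ A, (c i + ∑ j ∈ A, r i j)) =
      if U = ∅ then ∏ i ∈ S, (b i + c i) else 0 := by
    intro U _
    rw [← Finset.mul_sum]
    split_ifs with h
    · subst h
      have e0 : gk c r ∅ = 1 := by
        unfold gk
        exact Matrix.det_isEmpty
      rw [Finset.powerset_empty, Finset.sum_singleton, e0]
      simp
    · rw [rec_aux c r U (Finset.nonempty_iff_ne_empty.2 h), mul_zero]
  rw [Finset.sum_congr rfl h3, Finset.sum_ite_eq' S.powerset ∅,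
    if_pos (Finset.empty_mem_powerset S)]

end Pool.Agent.L0h86.F3
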