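import Pool.Agent.L0h86.F3.Bv

/-!
# The sum over the multiples by the cube roots of unity
-/

set_option autoImplicit false
set_option linter.unusedSectionVars false

open Filter
open scoped Topology PeriodPair

namespace Pool.Agent.L0h86.F3

open H667R3 Pool.Agent.W192.HK Pool.Agent.TH936.CM Pool.Agent.TH936.PU
open Pool.Agent.Y696 Pool.Agent.Y715.T.Lat
open Pool.Agent.Y715.T.Three (lam lam_ne')
open Pool.Agent.Y698.SG (lg lg_one lg_neg_one lg_mul sgn_mul sgn_prod ix)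

variable {L : PeriodPair} {Ω : ℂ} {Γ : Type*} [LinearOrderedCommGroupWithZero Γ]
  {v : Valuation ℂ Γ}

lemma Ev_unit (hL : IsLat L eis Ω) {u : eis} (hu : IsUnit u) {z : ℂ} (hz : Tor L z) :
    Ev Ω (u * z) = (u : ℂ)⁻¹ * Ev Ω z := by
  refine tendsto_nhds_unique (ev_lim hL (hz.mul hL u)) ?_
  simp only [EE_unit hu]
  exact (ev_lim hL hz).const_mul _

lemma lam_eq : lam = 1 + 2 * om := by
  rw [← la_coe]
  unfold la
  rw [ez_coe]
  norm_num

lemma om_lam : om - om ^ 2 = lam := by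
  rw [lam_eq]
  linear_combination -om_sq

/-- the division point of order `√-3` -/
noncomputable def T3 (Ω : ℂ) : ℂ := -(om * Ω) / lam

lemma T3_coe : T3 Ω = Ω * ((-omr : eis) : ℂ) / ((la : eis) : ℂ) := by
  unfold T3
  push_cast
  rw [omr_coe, la_coe]
  ring

lemma T3_tor (hL : IsLat L eis Ω) : Tor L (T3 Ω) := by
  rw [T3_coe]
  exact Tor.of hL la_ne _

lemma P0_eq : P0 Ω = Ω / 2 + T3 Ω := by
  unfold P0 T3
  push_cast
  rw [two_coe, la_coe]
  have h := lam_ne'
  have h2 := lam_eq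
  field_simp
  linear_combination -Ω * h2

lemma om_T3 (hL : IsLat L eis Ω) : om * T3 Ω - T3 Ω ∈ L.lattice := by
  have h : om * T3 Ω - T3 Ω = Ω * (1 : eis) := by
    unfold T3
    have h := lam_ne'
    push_cast
    field_simp
    linear_combination Ω * om_lam
  rw [h]
  exact hL.mem_mul 1

lemma om2_T3 (hL : IsLat L eis Ω) : om ^ 2 * T3 Ω - T3 Ω ∈ L.lattice := by
  have h1 := om_T3 hL
  have h2 := hL.mul omr _ h1
  rw [omr_coe] at h2
  have h3 := add_mem h2 h1
  convert h3 using 1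
  ring

lemma half_tor (hL : IsLat L eis Ω) : Tor L (Ω / 2) := by
  have h := Tor.of hL two_ne 1
  have e : Ω * ((1 : eis) : ℂ) / ((2 : eis) : ℂ) = Ω / 2 := by
    rw [two_coe]
    push_cast
    ring
  rwa [e] at h

lemma Om_mem (hL : IsLat L eis Ω) (u : eis) : (u : ℂ) * Ω ∈ L.lattice := by
  rw [mul_comm]
  exact hL.mem_mul u

lemma two_nu : ¬ IsUnit (2 : eis) := by
  rw [isUnit_iff', two_coe]
  norm_num [Complex.normSq_apply]

lemma half_notMem (hL : IsLat L eis Ω) : Ω / 2 ∉ L.lattice := by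
  have h := div_mem_iff hL two_ne 1
  have e : Ω * ((1 : eis) : ℂ) / ((2 : eis) : ℂ) = Ω / 2 := by
    rw [two_coe]
    push_cast
    ring
  rw [e] at h
  rw [h, Ideal.mem_span_singleton]
  intro h1
  exact two_nu (isUnit_of_dvd_one h1)

lemma dwp_half (hL : IsLat L eis Ω) : ℘'[L] (Ω / 2) = 0 := by
  have h1 : ℘'[L] (-(Ω / 2)) = -℘'[L] (Ω / 2) := L.derivWeierstrassP_neg _
  have h2 : ℘'[L] (-(Ω / 2)) = ℘'[L] (Ω / 2) := by
    apply dwp_per
    have h3 := neg_mem (Om_mem hL 1)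
    convert h3 using 1
    push_cast
    ring
  rw [h2] at h1
  linear_combination h1 / 2

/-- the cube of the value at the half period -/
lemma e_cube (hC : Cur L Ω) : 4 * ℘[L] (Ω / 2) ^ 3 = -1 := by
  have h := hC.ode (half_notMem hC.lat)
  rw [dwp_half hC.lat] at h
  linear_combination -h

lemma e_ne (hC : Cur L Ω) : ℘[L] (Ω / 2) ≠ 0 := by
  intro h
  have h1 := e_cube hC
  rw [h] at h1
  norm_num at h1

theorem Hv_eval (hC : Cur L Ω) {z : ℂ} (hz : Tor L z) (h2 : 2 * (T3 Ω + z) ∉ L.lattice) :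
    Fv Ω z + Fv Ω (om * z) + Fv Ω (om ^ 2 * z) =
      6 * ℘[L] (Ω / 2) ^ 2 / ℘'[L] (T3 Ω + z) := by
  have hL := hC.lat
  set U := T3 Ω + z with hU
  have hUt : Tor L U := (T3_tor hL).add hL hz
  have hU0 : U ∉ L.lattice := two_mul_notMem_of L h2
  have hT := half_tor hL
  have hTn := half_notMem hL
  have key : ∀ u w : eis, w * u = 1 → (u : ℂ) * T3 Ω - T3 Ω ∈ L.lattice →
      ℘[L] U - (u : ℂ) ^ 2 * ℘[L] (Ω / 2) ≠ 0 ∧
      Fv Ω (u * z) = (w : ℂ) * (Ev Ω U + (1 / 2) *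
        (℘'[L] U / (℘[L] U - (u : ℂ) ^ 2 * ℘[L] (Ω / 2)))) := by
    intro u w hwu hu3
    have hu : IsUnit u := IsUnit.of_mul_eq_one w (by rw [mul_comm]; exact hwu)
    have hw : IsUnit w := IsUnit.of_mul_eq_one u hwu
    have hwu' : (w : ℂ) * u = 1 := by
      have := congrArg (fun t : eis => (t : ℂ)) hwu
      push_cast at this
      exact this
    have hui : (u : ℂ)⁻¹ = w := (eq_inv_of_mul_eq_one_left hwu').symm
    have hTw : Tor L ((w : ℂ) * (Ω / 2)) := hT.mul hL w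
    have n1 : (w : ℂ) * (Ω / 2) ∉ L.lattice := by rwa [lat_unit hL hw]
    have hwO := Om_mem hL w
    have n2 : U + (w : ℂ) * (Ω / 2) ∉ L.lattice := by
      intro h
      apply h2
      have h3 := sub_mem (add_mem h h) hwO
      convert h3 using 1
      ring
    have n3 : U - (w : ℂ) * (Ω / 2) ∉ L.lattice := by
      intro h
      apply h2
      have h3 := add_mem (add_mem h h) hwO
      convert h3 using 1
      ring
    have e1 : ℘[L] ((w : ℂ) * (Ω / 2)) = (u : ℂ) ^ 2 * ℘[L] (Ω / 2) := by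
      rw [wp_unit hL hw]
      congr 1
      rw [← inv_pow, ← hui, inv_inv]
    have hne := wp_sub_ne hU0 n1 n2 n3
    rw [e1] at hne
    refine ⟨hne, ?_⟩
    have h4 : Fv Ω (u * z) = Ev Ω (u * (U + w * (Ω / 2))) := by
      unfold Fv
      apply Ev_per hL
      rw [P0_eq]
      have h5 := neg_mem hu3
      convert h5 using 1
      rw [hU]
      linear_combination (-(Ω / 2)) * hwu'
    have h6 := Ev_sec hL hUt hTw hU0 n1 n2 n3
    have h7 : Ev Ω (U - (w : ℂ) * (Ω / 2)) = Ev Ω (U + (w : ℂ) * (Ω / 2)) := by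
      apply Ev_per hL
      have h8 := neg_mem hwO
      convert h8 using 1
      ring
    rw [h7] at h6
    unfold Dd at h6
    rw [e1] at h6
    rw [h4, Ev_unit hL hu (hUt.add hL hTw), hui]
    linear_combination ((w : ℂ) / 2) * h6
  have o3 := omr_cube
  obtain ⟨k1, f1⟩ := key 1 1 (one_mul 1) (by
    push_cast
    rw [one_mul, sub_self]
    exact zero_mem _)
  obtain ⟨k2, f2⟩ := key omr (omr ^ 2) (by rw [← o3]; ring) (by
    rw [omr_coe]
    exact om_T3 hL)
  obtain ⟨k3, f3⟩ := key (omr ^ 2) omr (by rw [← o3]; ring) (by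
    push_cast
    rw [omr_coe]
    exact om2_T3 hL)
  push_cast at k1 k2 k3 f1 f2 f3
  rw [omr_coe] at k2 k3 f2 f3
  rw [one_mul] at f1
  rw [f1, f2, f3]
  have h4e := e_cube hC
  have hode := hC.ode hU0
  set X := ℘[L] U
  set Y := ℘'[L] U
  set e := ℘[L] (Ω / 2)
  set E := Ev Ω U
  have e4 : (om ^ 2) ^ 2 = om := by linear_combination om * om_cube
  rw [e4] at k3 ⊢
  have hD : (X - e) * (X - om ^ 2 * e) * (X - om * e) = X ^ 3 - e ^ 3 := by
    linear_combination (-e * X ^ 2 + om * e ^ 2 * X - (om - 1) * e ^ 3) * om_sq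
  have k1' : X - e ≠ 0 := by
    rw [one_pow, one_mul] at k1
    exact k1
  have hD4 : 4 * ((X - e) * (X - om ^ 2 * e) * (X - om * e)) = Y ^ 2 := by
    rw [hD]
    linear_combination -h4e - hode
  have hY : Y ≠ 0 := by
    intro h0
    rw [h0] at hD4
    have h5 := mul_ne_zero (mul_ne_zero k1' k2) k3
    apply h5
    linear_combination hD4 / 4
  have hS : 1 / (X - e) + om ^ 2 * (1 / (X - om ^ 2 * e)) + om * (1 / (X - om * e)) =
      12 * e ^ 2 / Y ^ 2 := by
    rw [← hD4]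
    have hN : (X - om ^ 2 * e) * (X - om * e) + om ^ 2 * ((X - e) * (X - om * e)) +
        om * ((X - e) * (X - om ^ 2 * e)) = 3 * e ^ 2 := by
      linear_combination (X ^ 2 - 2 * om * e * X + 3 * e ^ 2 * (om - 1)) * om_sq
    have aux : ∀ a b c p q : ℂ, a ≠ 0 → b ≠ 0 → c ≠ 0 → 1 / a + p * (1 / b) + q * (1 / c) =
        4 * (b * c + p * (a * c) + q * (a * b)) / (4 * (a * b * c)) := by
      intro a b c p q ha hb hc
      field_simp
    rw [aux _ _ _ _ _ k1' k2 k3, hN]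
    congr 1
    ring
  have hfin : (1 : ℂ) * (E + 1 / 2 * (Y / (X - (1 : ℂ) ^ 2 * e))) +
      om ^ 2 * (E + 1 / 2 * (Y / (X - om ^ 2 * e))) +
      om * (E + 1 / 2 * (Y / (X - om * e))) =
      E * (om ^ 2 + om + 1) + (Y / 2) * (1 / (X - e) + om ^ 2 * (1 / (X - om ^ 2 * e)) +
        om * (1 / (X - om * e))) := by
    rw [one_pow, one_mul e]
    ring
  have hgoal : (Y / 2) * (12 * e ^ 2 / Y ^ 2) = 6 * e ^ 2 / Y := by
    field_simp
    ring
  rw [hS, om_sq, mul_zero, zero_add, hgoal] at hfin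
  exact hfin

end Pool.Agent.L0h86.F3
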