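import Pool.Agent.L0h86.F3.It
import Pool.Agent.L0h86.F3.Gd

/-!
# The 2-adic valuations of the weighted sums
-/

set_option autoImplicit false
set_option linter.unusedSectionVars false

open Filter
open scoped Topology PeriodPair

namespace Pool.Agent.L0h86.F3

open H667R3 Pool.Agent.W192.HK Pool.Agent.TH936.CM Pool.Agent.TH936.PU
open Pool.Agent.Y696 Pool.Agent.Y715.T.Lat
open Pool.Agent.Y715.T.Three (lam lam_ne')
open Pool.Agent.Y698.SG (lg lg_one lg_neg_one lg_mul sgn_mul sgn_prod ix)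

variable {L : PeriodPair} {Ω : ℂ} {Γ : Type*} [LinearOrderedCommGroupWithZero Γ]
  {v : Valuation ℂ Γ}

lemma v_sum_lt {κ : Type*} (s : Finset κ) (f : κ → ℂ) (h : ∀ i ∈ s, v (f i) < 1) :
    v (∑ i ∈ s, f i) < 1 := by
  classical
  induction s using Finset.induction_on with
  | empty => simp
  | insert i s hi ih =>
    rw [Finset.sum_insert hi]
    exact va_lt (h i (Finset.mem_insert_self _ _)) (ih fun j hj => h j
      (Finset.mem_insert_of_mem hj))

lemma v_near {z : ℂ} (h : v (z - 1) < 1) : v z = 1 := by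
  have h1 : v (z - 1) < v 1 := by
    rw [map_one]
    exact h
  have h2 := v.map_add_eq_of_lt_left h1
  rw [add_sub_cancel, map_one] at h2
  exact h2

/-! ### units -/

lemma omr_notin {ϖ : eis} (h : Prime ϖ) : omr ∉ sp ϖ := by
  intro h1
  rw [Ideal.mem_span_singleton] at h1
  exact h.not_isUnit (isUnit_of_dvd_unit h1 omr_unit)

lemma sy_omr {ϖ : eis} (h : Prime ϖ) : sy ϖ omr = 1 := by
  unfold sy
  rw [if_neg (omr_notin h), if_pos]
  refine ⟨Ideal.Quotient.mk (sp ϖ) (omr ^ 2), ?_⟩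
  rw [← map_mul]
  congr 1
  linear_combination (-omr) * omr_cube

lemma hc_omr {ϖ : eis} (h : Prime ϖ) (x : eis) : hc ϖ (omr * x) = hc ϖ x := by
  unfold hc
  rw [sy_mul' h, sy_omr h, one_mul, tr_mul h (omr_notin h)]

/-- multiplication by a unit -/
lemma Bv_rot (hL : IsLat L eis Ω) {n : eis} (hn : n ≠ 0) [Fintype (eis ⧸ sp n)] {u : eis}
    (hu : IsUnit u) {φ : eis → ℂ} (hφ : Pe n φ) (hu1 : ∀ x, φ (u * x) = φ x) :
    ∑ x : eis ⧸ sp n, φ x.out * Fv Ω (u * (Ω * x.out / (n : ℂ))) = Bv Ω n φ := by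
  rw [Bv_eq]
  have hg : Function.Bijective (fun y : eis ⧸ sp n => Ideal.Quotient.mk (sp n) (u * y.out)) := by
    obtain ⟨g, hg⟩ := hu.map (Ideal.Quotient.mk (sp n))
    have e1 : (fun y : eis ⧸ sp n => Ideal.Quotient.mk (sp n) (u * y.out)) =
        fun y => (g : eis ⧸ sp n) * y := by
      funext y
      rw [map_mul, Ideal.Quotient.mk_out, hg]
    rw [e1]
    exact (Units.mulLeft g).bijective
  rw [sum_rep _ hg (fun r : eis => φ r * Fv Ω (Ω * r / (n : ℂ)))
    (fun x y h => Bv_term hL hn hφ h)]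
  refine Finset.sum_congr rfl fun y _ => ?_
  rw [hu1]
  congr 2
  push_cast
  ring

/-! ### the values -/

lemma la_nu : ¬ IsUnit (la : eis) := by
  intro h
  have h1 : IsUnit (la * la) := h.mul h
  rw [la_sq, isUnit_iff'] at h1
  have e : ((-3 : eis) : ℂ) = -3 := rfl
  rw [e] at h1
  norm_num [Complex.normSq_apply] at h1

lemma la_odd : IsCoprime (2 : eis) la := by
  refine ⟨-omr, 1, ?_⟩
  unfold la ez
  push_cast
  ring

lemma omr_notin_la : (-omr : eis) ∉ sp (la : eis) := by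
  intro h
  rw [Ideal.mem_span_singleton] at h
  exact la_nu (isUnit_of_dvd_unit h omr_unit.neg)

lemma T3_val (hC : Cur L Ω) (t2 : v 2 < 1) : v (℘'[L] (T3 Ω) - 1) < 1 := by
  rw [T3_coe]
  exact dwp_odd hC t2 la_ne la_odd _ omr_notin_la

/-- the first value -/
lemma F0_eq (hC : Cur L Ω) : Fv Ω 0 = 2 * ℘[L] (Ω / 2) ^ 2 / ℘'[L] (T3 Ω) := by
  have hL := hC.lat
  have h0 : Tor L 0 := ⟨1, one_ne_zero, by rw [mul_zero]; exact zero_mem _⟩
  have h2 : 2 * (T3 Ω + 0) ∉ L.lattice := by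
    have e : 2 * (T3 Ω + 0) = Ω * ((2 * -omr : eis) : ℂ) / ((la : eis) : ℂ) := by
      rw [T3_coe]
      push_cast
      rw [two_coe]
      ring
    rw [e, div_mem_iff hL la_ne]
    have h3 := pow_notMem la_odd omr_notin_la 1
    rwa [pow_one] at h3
  have h := Hv_eval hC h0 h2
  rw [mul_zero, mul_zero, add_zero] at h
  linear_combination h / 3

lemma T3_ne (hC : Cur L Ω) : ℘'[L] (T3 Ω) ≠ 0 := by
  have hL := hC.lat
  intro h0
  have hT : T3 Ω ∉ L.lattice := by
    rw [T3_coe, div_mem_iff hL la_ne]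
    exact omr_notin_la
  -- the value at `ω T3`
  have h1 := wp_unit hL omr_unit (T3 Ω)
  rw [omr_coe] at h1
  have h2 := wp_per (om_T3 hL)
  rw [h2] at h1
  have h3 : ℘[L] (T3 Ω) * (om ^ 2 - 1) = 0 := by
    have ho : om ^ 2 ≠ 0 := pow_ne_zero 2 om_ne
    have h4 : om ^ 2 * ℘[L] (T3 Ω) = ℘[L] (T3 Ω) := by
      conv_lhs => rw [h1]
      exact mul_inv_cancel_left₀ ho _
    linear_combination h4
  have h4 : om ^ 2 - 1 ≠ 0 := by
    intro h
    have h5 := congrArg Complex.im h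
    have h6 : om ^ 2 = -1 - om := by linear_combination om_sq
    rw [h6] at h5
    simp at h5
    exact om_im.ne' h5
  have h5 := (mul_eq_zero.1 h3).resolve_right h4
  have h6 := hC.ode hT
  rw [h5, h0] at h6
  norm_num at h6

lemma F0_ne (hC : Cur L Ω) : Fv Ω 0 ≠ 0 := by
  rw [F0_eq hC]
  exact div_ne_zero (mul_ne_zero two_ne_zero (pow_ne_zero 2 (e_ne hC))) (T3_ne hC)

lemma F0_val (hC : Cur L Ω) (t2 : v 2 < 1) : v (Fv Ω 0) = v 2 * v (℘[L] (Ω / 2)) ^ 2 := by
  rw [F0_eq hC, map_div₀, v_near (T3_val hC t2), div_one, map_mul, map_pow]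

lemma N1.cop_la {n : eis} (h : N1 n) : IsCoprime la n := by
  obtain ⟨u, rfl⟩ := h
  exact ⟨-2 * u, 1, by ring⟩

lemma prod_N1 {ι : Type} {S : Finset ι} {π : ι → eis} (h : FX S π) : N1 (∏ i ∈ S, π i) := by
  classical
  have key : ∀ T : Finset ι, T ⊆ S → N1 (∏ i ∈ T, π i) := by
    intro T
    induction T using Finset.induction_on with
    | empty => exact fun _ => ⟨0, by simp⟩
    | insert i T hi ih =>
      intro hT
      rw [Finset.prod_insert hi]
      obtain ⟨u, hu⟩ := ih ((Finset.subset_insert _ _).trans hT)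
      obtain ⟨w, hw⟩ := (h.pd i (hT (Finset.mem_insert_self _ _))).n1
      rw [hu, hw]
      exact ⟨u + w + 2 * la * w * u, by ring⟩
  exact key S subset_rfl

/-- the quotient of the values -/
lemma Hv_ratio (hC : Cur L Ω) (t2 : v 2 < 1) {n : eis} (hn : n ≠ 0) (hodd : IsCoprime (2 : eis) n)
    (hn1 : N1 n) (x : eis) :
    v ((Fv Ω (Ω * x / n) + Fv Ω (om * (Ω * x / n)) + Fv Ω (om ^ 2 * (Ω * x / n))) /
      (3 * Fv Ω 0) - 1) < 1 := by
  have hL := hC.lat
  have hm : la * n ≠ 0 := mul_ne_zero la_ne hn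
  have hmo : IsCoprime (2 : eis) (la * n) := la_odd.mul_right hodd
  have e : T3 Ω + Ω * x / n = Ω * ((-omr * n + la * x : eis) : ℂ) / ((la * n : eis) : ℂ) := by
    rw [T3_coe]
    have h1 := coe_ne la_ne
    have h2 := coe_ne hn
    push_cast
    field_simp
  have hy : (-omr * n + la * x : eis) ∉ sp (la * n) := by
    intro h
    rw [Ideal.mem_span_singleton] at h
    have h1 : la ∣ -omr * n + la * x := (Dvd.intro _ rfl).trans h
    have h2 : la ∣ -omr * n := (dvd_add_left (Dvd.intro _ rfl)).1 h1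
    have h3 : la ∣ -omr := hn1.cop_la.dvd_of_dvd_mul_right h2
    exact la_nu (isUnit_of_dvd_unit h3 omr_unit.neg)
  have h2 : 2 * (T3 Ω + Ω * x / n) ∉ L.lattice := by
    have e2 : 2 * (T3 Ω + Ω * x / n) =
        Ω * ((2 * (-omr * n + la * x) : eis) : ℂ) / ((la * n : eis) : ℂ) := by
      rw [e]
      push_cast
      rw [two_coe]
      ring
    rw [e2, div_mem_iff hL hm]
    have h3 := pow_notMem hmo hy 1
    rwa [pow_one] at h3
  rw [Hv_eval hC (Tor.of hL hn x) h2, F0_eq hC]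
  have v1 := T3_val hC t2
  have v2 : v (℘'[L] (T3 Ω + Ω * x / n) - 1) < 1 := by
    rw [e]
    exact dwp_odd hC t2 hm hmo _ hy
  have hv2 := v_near v2
  have hne : ℘'[L] (T3 Ω + Ω * x / n) ≠ 0 := by
    intro h0
    rw [h0, map_zero] at hv2
    exact zero_ne_one hv2
  have hT := T3_ne hC
  have he := e_ne hC
  set A := ℘'[L] (T3 Ω)
  set B := ℘'[L] (T3 Ω + Ω * x / n)
  set E := ℘[L] (Ω / 2)
  have h3 : 6 * E ^ 2 / B / (3 * (2 * E ^ 2 / A)) - 1 = ((A - 1) - (B - 1)) / B := by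
    field_simp
    ring
  rw [h3, map_div₀, hv2, div_one]
  exact v.map_sub_lt v1 v2

/-- the sum over the common squares -/
theorem Bv_hc {ι : Type} [DecidableEq ι] (hC : Cur L Ω) (t2 : v 2 < 1) {S : Finset ι}
    {π : ι → eis} (hS : FX S π) :
    R4 v (Bv Ω (∏ i ∈ S, π i) (fun m => ∏ i ∈ S, hc (π i) m) / Fv Ω 0)
      (∏ i ∈ S, (bt (π i) + F4.cj (bt (π i)))) := by
  have hL := hC.lat
  have hn := prod_ne hS
  have ho := prod_odd hS
  have hn1 := prod_N1 hS
  obtain ⟨s, h1, h2⟩ := card_common hS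
  set n := ∏ i ∈ S, π i with hnd
  have f1 := fin_quot hn
  let _ : Fintype (eis ⧸ sp n) := Fintype.ofFinite _
  set H : eis → ℂ := fun m => ∏ i ∈ S, hc (π i) m with hH
  have hHp : Pe n H := Pe.prod fun p _ => hc_per (π p)
  have hHo : ∀ x, H (omr * x) = H x := fun x =>
    Finset.prod_congr rfl fun i hi => hc_omr (hS.pd i hi).pr x
  have hHo2 : ∀ x, H (omr ^ 2 * x) = H x := fun x => by
    rw [pow_two, mul_assoc, hHo, hHo]
  have r1 := Bv_rot hL hn omr_unit hHp hHo
  have r2 := Bv_rot hL hn (omr_unit.pow 2) hHp hHo2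
  rw [finsum_eq_sum_of_fintype] at h2
  have hF0 := F0_ne hC
  have e : Bv Ω n H / Fv Ω 0 = (s : ℂ) + ∑ x : eis ⧸ sp n, H x.out *
      ((Fv Ω (Ω * x.out / n) + Fv Ω (om * (Ω * x.out / n)) + Fv Ω (om ^ 2 * (Ω * x.out / n))) /
      (3 * Fv Ω 0) - 1) := by
    have e3 : 3 * Bv Ω n H = ∑ x : eis ⧸ sp n, H x.out *
        (Fv Ω (Ω * x.out / n) + Fv Ω (om * (Ω * x.out / n)) +
          Fv Ω (om ^ 2 * (Ω * x.out / n))) := by
      have b0 := Bv_eq (Ω := Ω) n H
      have b1 : ∑ x : eis ⧸ sp n, H x.out * Fv Ω (om * (Ω * x.out / n)) = Bv Ω n H := r1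
      have b2 : ∑ x : eis ⧸ sp n, H x.out * Fv Ω (om ^ 2 * (Ω * x.out / n)) = Bv Ω n H := by
        rw [← r2]
        push_cast
        rw [omr_coe]
      have e4 : 3 * Bv Ω n H = Bv Ω n H + Bv Ω n H + Bv Ω n H := by ring
      have e6 : ∑ x : eis ⧸ sp n, H x.out *
        (Fv Ω (Ω * x.out / n) + Fv Ω (om * (Ω * x.out / n)) +
          Fv Ω (om ^ 2 * (Ω * x.out / n))) = ∑ x : eis ⧸ sp n, H x.out * Fv Ω (Ω * x.out / n) +
          ∑ x : eis ⧸ sp n, H x.out * Fv Ω (om * (Ω * x.out / n)) +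
          ∑ x : eis ⧸ sp n, H x.out * Fv Ω (om ^ 2 * (Ω * x.out / n)) := by
        rw [← Finset.sum_add_distrib, ← Finset.sum_add_distrib]
        refine Finset.sum_congr rfl fun x _ => ?_
        ring
      rw [e6, b1, b2, ← b0]
      ring
    have e5 : ∑ x : eis ⧸ sp n, H x.out *
      ((Fv Ω (Ω * x.out / n) + Fv Ω (om * (Ω * x.out / n)) + Fv Ω (om ^ 2 * (Ω * x.out / n))) /
      (3 * Fv Ω 0) - 1) = (∑ x : eis ⧸ sp n, H x.out *
        (Fv Ω (Ω * x.out / n) + Fv Ω (om * (Ω * x.out / n)) +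
          Fv Ω (om ^ 2 * (Ω * x.out / n)))) / (3 * Fv Ω 0) - ∑ x : eis ⧸ sp n, H x.out := by
      rw [Finset.sum_div, ← Finset.sum_sub_distrib]
      refine Finset.sum_congr rfl fun x _ => ?_
      ring
    have h2' : ∑ x : eis ⧸ sp n, H x.out = (s : ℂ) := h2
    rw [e5, ← e3, h2']
    field_simp
    ring
  rw [e]
  have h3 : ∏ i ∈ S, (bt (π i) + F4.cj (bt (π i))) = F4.of (s : ZMod 2) := by
    rw [h1, map_prod]
    exact Finset.prod_congr rfl fun i _ => (F4.of_tr _).symm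
  rw [h3]
  refine (R4_nat t2 s).congr ?_
  rw [add_sub_cancel_left]
  refine v_sum_lt _ _ fun x _ => ?_
  rw [mul_comm]
  refine vm_lt (Hv_ratio hC t2 hn ho hn1 x.out) ?_
  rw [hH]
  beta_reduce
  rw [map_prod]
  refine Finset.prod_le_one' fun i _ => ?_
  rcases (hc_val (π i) x.out).1 with h | h <;> rw [h]
  · rw [map_zero]
    exact zero_le
  · rw [map_one]

/-- **the induction** -/
theorem indX {ι : Type} [DecidableEq ι] (hC : Cur L Ω) (t2 : v 2 < 1) {S0 : Finset ι}
    {π : ι → eis} (hS0 : FX S0 π) (S : Finset ι) (hSS : S ⊆ S0) :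
    R4 v (Bv Ω (∏ i ∈ S, π i) (fun m => ∏ i ∈ S, sy (π i) m) / (2 ^ S.card * Fv Ω 0))
      (g4 π S) := by
  have hL := hC.lat
  have hF0 := F0_ne hC
  set a : Finset ι → ℂ := fun A => Bv Ω (∏ i ∈ A, π i) (fun m => ∏ i ∈ A, sy (π i) m) with had
  have key : ∀ S : Finset ι, S ⊆ S0 → R4 v (a S / (2 ^ S.card * Fv Ω 0)) (g4 π S) := by
    intro S
    induction S using Finset.strongInduction with
    | H S ih =>
      intro hSS
      have hS := hS0.mono hSS
      have h2 := Bv_subsets hL S hS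
      rw [← Finset.add_sum_erase _ _ (Finset.mem_powerset_self S), Finset.sdiff_self,
        Finset.prod_empty, one_mul] at h2
      have h3 := Bv_hc hC t2 hS
      set Y := Bv Ω (∏ i ∈ S, π i) (fun m => ∏ i ∈ S, hc (π i) m) with hY
      have h20 : (2 : ℂ) ^ S.card ≠ 0 := pow_ne_zero _ two_ne_zero
      set t : Finset ι → ℂ := fun A =>
        (∏ i ∈ S \ A, (((π i : ℂ) - ∏ j ∈ A, sy (π j) (π i)) / 2)) *
          (a A / (2 ^ A.card * Fv Ω 0)) with ht
      have ht1 : ∀ A ∈ S.powerset.erase S, (∏ i ∈ S \ A, ((π i : ℂ) -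
          ∏ j ∈ A, sy (π j) (π i))) *
          Bv Ω (∏ i ∈ A, π i) (fun m => ∏ i ∈ A, sy (π i) m) =
          (2 ^ S.card * Fv Ω 0) * t A := by
        intro A hA
        rw [Finset.mem_erase, Finset.mem_powerset] at hA
        have hcs : S.card = (S \ A).card + A.card := (Finset.card_sdiff_add_card_eq_card hA.2).symm
        rw [ht]
        beta_reduce
        rw [Finset.prod_div_distrib, Finset.prod_const, hcs, pow_add]
        simp only [had]
        field_simp
      rw [Finset.sum_congr rfl ht1, ← Finset.mul_sum] at h2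
      have h4 : a S / (2 ^ S.card * Fv Ω 0) =
          Y / Fv Ω 0 + -∑ A ∈ S.powerset.erase S, t A := by
        have : a S = 2 ^ S.card * Y - (2 ^ S.card * Fv Ω 0) * ∑ A ∈ S.powerset.erase S, t A := by
          linear_combination h2
        rw [this]
        field_simp
        ring
      have h5 : g4 π S = ∏ i ∈ S, (bt (π i) + F4.cj (bt (π i))) +
          ∑ A ∈ S.powerset.erase S,
          (∏ i ∈ S \ A, (bt (π i) + ∑ j ∈ A, F4.of (mm π i j))) * g4 π A := by
        have h6 := rec_gen (fun i => bt (π i)) (fun i => F4.cj (bt (π i)))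
          (fun i j => F4.of (mm π i j)) S
        rw [← Finset.add_sum_erase _ _ (Finset.mem_powerset_self S), Finset.sdiff_self,
          Finset.prod_empty, mul_one] at h6
        rw [← h6, Finset.sum_congr rfl (fun A _ => mul_comm
          (gk (fun i => F4.cj (bt (π i))) (fun i j => F4.of (mm π i j)) A) _)]
        unfold g4
        rw [add_assoc, add_self_two, add_zero]
      rw [h4, h5]
      refine h3.add (R4.neg (R4.sum ?_))
      intro A hA
      rw [Finset.mem_erase, Finset.mem_powerset] at hA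
      have hss : A ⊂ S := hA.2.ssubset_of_ne hA.1
      refine R4.mul (R4.prod fun i hi => ?_) (ih A hss (hA.2.trans hSS))
      rw [Finset.mem_sdiff] at hi
      have hpi := hS.pd i hi.1
      have h7 := sgn_prod (s := A) (f := fun j => sy (π j) (π i)) fun j hj => sy_sgn
        (hS.ne i hi.1 j (hA.2 hj) fun h => hi.2 (h ▸ hj))
      have h8 : ∑ j ∈ A, F4.of (mm π i j) = F4.of (lg (∏ j ∈ A, sy (π j) (π i))) := by
        rw [h7.2, map_sum]
        rfl
      rw [h8]
      exact R4_euler hpi h7.1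
  exact key S hSS

end Pool.Agent.L0h86.F3
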