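import Pool.Agent.L0h86.F3.Hv

/-!
# The values at the points of odd order are integral
-/

set_option autoImplicit false
set_option linter.unusedSectionVars false

open Filter
open scoped Topology PeriodPair

namespace Pool.Agent.L0h86.F3

open H667R3 Pool.Agent.W192.HK Pool.Agent.TH936.CM Pool.Agent.TH936.PU
open Pool.Agent.Y696 Pool.Agent.Y715.T.Lat
open Pool.Agent.Y715.T.Three (lam lam_ne')
open Pool.Agent.Y698.SG (lg lg_one lg_neg_one lg_mul sgn_mul sgn_prod ix)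

variable {L : PeriodPair} {Ω : ℂ} {Γ : Type*} [LinearOrderedCommGroupWithZero Γ]
  {v : Valuation ℂ Γ}

lemma v_four (t2 : v 2 < 1) : v 4 < 1 := by
  have e : (4 : ℂ) = 2 * 2 := by norm_num
  rw [e]
  exact vm_lt t2 t2.le

/-- the duplication increases the values that are not integral -/
lemma dup_lt (hC : Cur L Ω) (t2 : v 2 < 1) {z : ℂ} (h2 : 2 * z ∉ L.lattice)
    (h : 1 < v (℘[L] z)) : v (℘[L] z) < v (℘[L] (2 * z)) := by
  have hd := hC.dup h2
  set X := ℘[L] z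
  set X2 := ℘[L] (2 * z)
  have h3 : 1 < v (X ^ 3) := by
    rw [map_pow]
    exact one_lt_pow₀ h (by norm_num)
  have h4 : v (X ^ 3 - 2) = v (X ^ 3) := v.map_sub_eq_of_lt_left (t2.trans h3)
  have h5 : v (4 * X ^ 3 + 1) < v (X ^ 3) := by
    refine v.map_add_lt ?_ (by rwa [map_one])
    rw [map_mul]
    calc v 4 * v (X ^ 3) < 1 * v (X ^ 3) :=
          mul_lt_mul_of_pos_right (v_four t2) (zero_lt_one.trans h3)
      _ = v (X ^ 3) := one_mul _
  have h6 : v X2 * v (4 * X ^ 3 + 1) = v X * v (X ^ 3) := by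
    rw [← h4, ← map_mul, ← map_mul, hd]
    congr 1
    ring
  by_contra hcon
  push Not at hcon
  have h7 : v X2 * v (4 * X ^ 3 + 1) ≤ v X * v (4 * X ^ 3 + 1) := mul_le_mul' hcon le_rfl
  have h8 : v X * v (4 * X ^ 3 + 1) < v X * v (X ^ 3) :=
    mul_lt_mul_of_pos_left h5 (zero_lt_one.trans h)
  exact absurd (h6 ▸ h7) (not_le.2 h8)

/-- `2` is invertible modulo odd elements -/
lemma two_pow_one {m : eis} (hm : m ≠ 0) (hodd : IsCoprime (2 : eis) m) :
    ∃ k : ℕ, 0 < k ∧ (2 : eis) ^ k - 1 ∈ (sp m : Ideal eis) := by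
  have f1 := fin_quot hm
  obtain ⟨u, w, huw⟩ := hodd
  have h1 : Ideal.Quotient.mk (sp m) u * Ideal.Quotient.mk (sp m) 2 = 1 := by
    rw [← map_mul, ← map_one (Ideal.Quotient.mk (sp m)), Ideal.Quotient.mk_eq_mk_iff_sub_mem,
      Ideal.mem_span_singleton']
    exact ⟨-w, by linear_combination -huw⟩
  have hu : IsUnit (Ideal.Quotient.mk (sp m) 2) := IsUnit.of_mul_eq_one_right _ h1
  obtain ⟨g, hg⟩ := hu
  obtain ⟨k, hk, hk1⟩ := (isOfFinOrder_iff_pow_eq_one.1 (isOfFinOrder_of_finite g))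
  refine ⟨k, hk, ?_⟩
  rw [← Ideal.Quotient.mk_eq_mk_iff_sub_mem, map_pow, ← hg, ← Units.val_pow_eq_pow_val, hk1,
    Units.val_one, map_one]

lemma pow_notMem {m : eis} (hodd : IsCoprime (2 : eis) m) {y : eis} (hy : y ∉ sp m)
    (n : ℕ) : (2 : eis) ^ n * y ∉ sp m := by
  intro h
  apply hy
  have h1 : IsCoprime ((2 : eis) ^ n) m := hodd.pow_left
  rw [Ideal.mem_span_singleton] at h ⊢
  exact h1.symm.dvd_of_dvd_mul_left h

theorem wp_odd (hC : Cur L Ω) (t2 : v 2 < 1) {m : eis} (hm : m ≠ 0)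
    (hodd : IsCoprime (2 : eis) m) (y : eis) (hy : y ∉ sp m) :
    v (℘[L] (Ω * y / m)) ≤ 1 := by
  by_contra h
  push Not at h
  have hL := hC.lat
  have key : ∀ n : ℕ, v (℘[L] (Ω * y / m)) ≤ v (℘[L] (Ω * ((2 : eis) ^ n * y : eis) / m)) ∧
      v (℘[L] (Ω * y / m)) < v (℘[L] (Ω * ((2 : eis) ^ (n + 1) * y : eis) / m)) := by
    intro n
    have step : ∀ n : ℕ, v (℘[L] (Ω * y / m)) ≤ v (℘[L] (Ω * ((2 : eis) ^ n * y : eis) / m)) →
        v (℘[L] (Ω * y / m)) < v (℘[L] (Ω * ((2 : eis) ^ (n + 1) * y : eis) / m)) := by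
      intro n hn
      have e : Ω * (((2 : eis) ^ (n + 1) * y : eis) : ℂ) / m =
          2 * (Ω * (((2 : eis) ^ n * y : eis) : ℂ) / m) := by
        push_cast
        rw [two_coe]
        ring
      rw [e]
      refine lt_of_le_of_lt hn (dup_lt hC t2 ?_ (h.trans_le hn))
      rw [← e, div_mem_iff hL hm]
      exact pow_notMem hodd hy (n + 1)
    induction n with
    | zero =>
      have h0 : v (℘[L] (Ω * y / m)) ≤ v (℘[L] (Ω * ((2 : eis) ^ 0 * y : eis) / m)) := by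
        rw [pow_zero, one_mul]
      exact ⟨h0, step 0 h0⟩
    | succ n ih => exact ⟨ih.2.le, step (n + 1) ih.2.le⟩
  obtain ⟨k, hk, hk1⟩ := two_pow_one hm hodd
  obtain ⟨j, rfl⟩ : ∃ j, k = j + 1 := ⟨k - 1, by omega⟩
  have h3 := (key j).2
  have h4 : ℘[L] (Ω * ((2 : eis) ^ (j + 1) * y : eis) / m) = ℘[L] (Ω * y / m) := by
    apply wp_per
    have h5 : (2 : eis) ^ (j + 1) * y - y ∈ (sp m : Ideal eis) := by
      have h6 := (sp m : Ideal eis).mul_mem_right y hk1
      convert h6 using 1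
      ring
    have h7 := (div_mem_iff hL hm _).2 h5
    convert h7 using 1
    push_cast
    ring
  rw [h4] at h3
  exact lt_irrefl _ h3

theorem dwp_odd (hC : Cur L Ω) (t2 : v 2 < 1) {m : eis} (hm : m ≠ 0)
    (hodd : IsCoprime (2 : eis) m) (y : eis) (hy : y ∉ sp m) :
    v (℘'[L] (Ω * y / m) - 1) < 1 := by
  have h1 := wp_odd hC t2 hm hodd y hy
  have hz : Ω * y / m ∉ L.lattice := by rwa [div_mem_iff hC.lat hm]
  have hode := hC.ode hz
  set X := ℘[L] (Ω * y / m)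
  set Y := ℘'[L] (Ω * y / m)
  have hW : ((Y - 1) / 2) * ((Y - 1) / 2 + 1) = X ^ 3 := by linear_combination hode / 4
  have hWv : v ((Y - 1) / 2) ≤ 1 := by
    by_contra hc
    push Not at hc
    have h2 : v ((Y - 1) / 2 + 1) = v ((Y - 1) / 2) := by
      have h9 : v 1 < v ((Y - 1) / 2) := by
        rw [map_one]
        exact hc
      exact v.map_add_eq_of_lt_left h9
    have h3 := congrArg v hW
    rw [map_mul, h2, map_pow] at h3
    have h4 : 1 < v ((Y - 1) / 2) * v ((Y - 1) / 2) := one_lt_mul'' hc hc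
    rw [h3] at h4
    exact absurd (pow_le_one' h1 3) (not_le.2 h4)
  have e : Y - 1 = 2 * ((Y - 1) / 2) := by ring
  rw [e]
  exact vm_lt t2 hWv

end Pool.Agent.L0h86.F3
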