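import Pool.Agent.L0h86.F3.Ind
import Pool.Agent.Y698.Prb

/-!
# Complex conjugation on the hexagonal lattice, and the real period
-/

set_option autoImplicit false
set_option linter.unusedSectionVars false

open Filter MeasureTheory
open scoped Topology PeriodPair

namespace Pool.Agent.L0h86.F3

open H667R3 Pool.Agent.W192.HK Pool.Agent.TH936.CM Pool.Agent.TH936.PU
open Pool.Agent.Y696 Pool.Agent.Y715.T.Lat
open Pool.Agent.Y715.T.Three (lam lam_ne' lam_sq)
open Pool.Agent.Y698 (RP real_of_conj dwp_per' dwp_neg' two_half)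

variable {L : PeriodPair} {Ω : ℂ}

lemma conj_om' : (starRingEnd ℂ) om = -1 - om := by
  rw [conj_om]
  linear_combination om_sq

lemma conj_lam : (starRingEnd ℂ) lam = -lam := by
  rw [lam_eq, map_add, map_mul, conj_om', map_one, Complex.conj_ofNat]
  ring

lemma cj_inv (x : eis) : cj (cj x) = x := Subtype.ext (Complex.conj_conj _)

/-- complex conjugation as a permutation of the ring -/
noncomputable def cjE : eis ≃ eis where
  toFun := cj
  invFun := cj
  left_inv := cj_inv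
  right_inv := cj_inv

/-- the lattice sum for the ring -/
noncomputable def SR (z : ℂ) : ℂ := ∑' r : eis, (1 / (z - r) ^ 2 - 1 / (r : ℂ) ^ 2)

lemma SR_conj (z : ℂ) : SR ((starRingEnd ℂ) z) = (starRingEnd ℂ) (SR z) := by
  unfold SR
  rw [Complex.conj_tsum, ← cjE.tsum_eq]
  refine tsum_congr fun r => ?_
  have h : ((cjE r : eis) : ℂ) = (starRingEnd ℂ) (r : ℂ) := cj_coe r
  rw [h]
  simp only [map_sub, map_div₀, map_one, map_pow]

lemma wp_SR (hL : IsLat L eis Ω) (z : ℂ) : ℘[L] (Ω * z) = (Ω ^ 2)⁻¹ * SR z := by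
  unfold PeriodPair.weierstrassP SR
  rw [← (latE hL).tsum_eq, ← tsum_mul_left]
  refine tsum_congr fun r => ?_
  rw [latE_coe]
  have h1 : Ω * z - Ω * r = Ω * (z - r) := by ring
  rw [h1, mul_pow, mul_pow, mul_sub, one_div, one_div, one_div, one_div, mul_inv, mul_inv]

/-- the sixth power of the period is real -/
lemma conj_six (hC : Cur L Ω) : (starRingEnd ℂ) (Ω ^ 6) = Ω ^ 6 := by
  have hΩ : Ω ≠ 0 := hC.lat.ne
  have h1 : 4 * ((Ω ^ 2)⁻¹ * SR (1 / 2)) ^ 3 = -1 := by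
    rw [← wp_SR hC.lat, ← e_cube hC]
    congr 3
    ring
  have h2 : Ω ^ 6 = -4 * SR (1 / 2) ^ 3 := by
    have h3 : (Ω ^ 2)⁻¹ ^ 3 * Ω ^ 6 = 1 := by
      rw [inv_pow, ← pow_mul]
      exact inv_mul_cancel₀ (pow_ne_zero _ hΩ)
    linear_combination (Ω ^ 6) * h1 - (4 * SR (1 / 2) ^ 3) * h3
  have h4 : (starRingEnd ℂ) (SR (1 / 2)) = SR (1 / 2) := by
    rw [← SR_conj, map_div₀, map_one, Complex.conj_ofNat]
  rw [h2, map_mul, map_pow, h4, map_neg, Complex.conj_ofNat]

/-- the conjugate of the period -/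
lemma conj_unit (hC : Cur L Ω) : ∃ u : eis, IsUnit u ∧ (starRingEnd ℂ) Ω = u * Ω := by
  have hΩ : Ω ≠ 0 := hC.lat.ne
  have h1 := conj_six hC
  rw [map_pow] at h1
  set w := (starRingEnd ℂ) Ω with hw
  -- `w ^ 6 = Ω ^ 6`
  have h2 : (w - Ω) * (w + Ω) * (w - om * Ω) * (w + om * Ω) * (w - om ^ 2 * Ω) *
      (w + om ^ 2 * Ω) = 0 := by
    have e : (w - Ω) * (w + Ω) * (w - om * Ω) * (w + om * Ω) * (w - om ^ 2 * Ω) *
      (w + om ^ 2 * Ω) = (w ^ 2 - Ω ^ 2) * (w ^ 2 - om ^ 2 * Ω ^ 2) * (w ^ 2 - om * Ω ^ 2) := by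
      linear_combination ((w ^ 2 - Ω ^ 2) * (w ^ 2 - om ^ 2 * Ω ^ 2)) * (-om * Ω ^ 2) * om_cube
    have e2 : (w ^ 2 - Ω ^ 2) * (w ^ 2 - om ^ 2 * Ω ^ 2) * (w ^ 2 - om * Ω ^ 2) =
        w ^ 6 - Ω ^ 6 := by
      linear_combination (-Ω ^ 2 * (w ^ 2) ^ 2 + om * (Ω ^ 2) ^ 2 * w ^ 2 -
        (om - 1) * (Ω ^ 2) ^ 3) * om_sq
    rw [e, e2, h1, sub_self]
  have o2 : ((omr ^ 2 : eis) : ℂ) = om ^ 2 := by push_cast; rw [omr_coe]
  have o1 : ((omr : eis) : ℂ) = om := omr_coe
  rcases mul_eq_zero.1 h2 with h2 | h2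
  · rcases mul_eq_zero.1 h2 with h2 | h2
    · rcases mul_eq_zero.1 h2 with h2 | h2
      · rcases mul_eq_zero.1 h2 with h2 | h2
        · rcases mul_eq_zero.1 h2 with h2 | h2
          · exact ⟨1, isUnit_one, by push_cast; linear_combination h2⟩
          · exact ⟨-1, isUnit_one.neg, by push_cast; linear_combination h2⟩
        · exact ⟨omr, omr_unit, by rw [o1]; linear_combination h2⟩
      · exact ⟨-omr, omr_unit.neg, by push_cast; rw [o1]; linear_combination h2⟩
    · exact ⟨omr ^ 2, omr_unit.pow 2, by rw [o2]; linear_combination h2⟩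
  · exact ⟨-omr ^ 2, (omr_unit.pow 2).neg, by push_cast; rw [o1]; linear_combination h2⟩

lemma conj_mem' (hC : Cur L Ω) {z : ℂ} (hz : z ∈ L.lattice) : (starRingEnd ℂ) z ∈ L.lattice := by
  obtain ⟨r, rfl⟩ := (hC.lat.mem z).1 hz
  obtain ⟨u, -, hu⟩ := conj_unit hC
  rw [map_mul, ← cj_coe, hu]
  refine (hC.lat.mem _).2 ⟨u * cj r, ?_⟩
  push_cast
  ring

lemma conj_mem_iff (hC : Cur L Ω) {z : ℂ} : (starRingEnd ℂ) z ∈ L.lattice ↔ z ∈ L.lattice := by
  refine ⟨fun h1 => ?_, conj_mem' hC⟩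
  have := conj_mem' hC h1
  rwa [Complex.conj_conj] at this

/-- multiplication of the period by a unit -/
lemma Cur.mulu (hC : Cur L Ω) {u : eis} (hu : IsUnit u) : Cur L (u * Ω) := by
  refine ⟨?_, hC.g2, hC.g3⟩
  have hL := hC.lat
  obtain ⟨w, hw⟩ := hu.exists_left_inv
  have hw' : (w : ℂ) * u = 1 := by
    have := congrArg (fun t : eis => (t : ℂ)) hw
    push_cast at this
    exact this
  refine ⟨mul_ne_zero (coe_ne hu.ne_zero) hL.ne, fun z => ?_⟩
  rw [hL.mem]
  constructor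
  · rintro ⟨r, rfl⟩
    refine ⟨w * r, ?_⟩
    push_cast
    linear_combination (-(Ω * r)) * hw'
  · rintro ⟨r, rfl⟩
    refine ⟨u * r, ?_⟩
    push_cast
    ring

/-- a period which is real or purely imaginary -/
structure CR (L : PeriodPair) (Ω : ℂ) : Prop where
  cur : Cur L Ω
  pm : (starRingEnd ℂ) Ω = Ω ∨ (starRingEnd ℂ) Ω = -Ω

lemma exists_CR (hC : Cur L Ω) : ∃ u : eis, IsUnit u ∧ CR L (u * Ω) := by
  obtain ⟨u0, hu0, h⟩ := conj_unit hC
  have o2 : ((omr ^ 2 : eis) : ℂ) = om ^ 2 := by push_cast; rw [omr_coe]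
  have o1 : ((omr : eis) : ℂ) = om := omr_coe
  have c1 : (starRingEnd ℂ) om = om ^ 2 := conj_om
  have c2 : (starRingEnd ℂ) (om ^ 2) = om := by
    rw [map_pow, c1]
    linear_combination om * om_cube
  rw [unit_list] at hu0
  simp only [Set.mem_insert_iff, Set.mem_singleton_iff] at hu0
  rcases hu0 with rfl | rfl | rfl | rfl | rfl | rfl
  · refine ⟨1, isUnit_one, Cur.mulu hC isUnit_one, Or.inl ?_⟩
    rw [map_mul, h]
    push_cast
    rw [map_one]
    ring
  · refine ⟨1, isUnit_one, Cur.mulu hC isUnit_one, Or.inr ?_⟩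
    rw [map_mul, h]
    push_cast
    rw [map_one]
    ring
  · refine ⟨omr ^ 2, omr_unit.pow 2, Cur.mulu hC (omr_unit.pow 2), Or.inl ?_⟩
    rw [map_mul, h, o2, o1, c2]
    ring
  · refine ⟨omr ^ 2, omr_unit.pow 2, Cur.mulu hC (omr_unit.pow 2), Or.inr ?_⟩
    rw [map_mul, h, o2, c2]
    push_cast
    rw [o1]
    ring
  · refine ⟨omr, omr_unit, Cur.mulu hC omr_unit, Or.inl ?_⟩
    rw [map_mul, h, o2, o1, c1]
    linear_combination (om * Ω) * om_cube
  · refine ⟨omr, omr_unit, Cur.mulu hC omr_unit, Or.inr ?_⟩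
    rw [map_mul, h, o1, c1]
    push_cast
    rw [o1]
    linear_combination (-om * Ω) * om_cube

lemma CR.conj_sq (h : CR L Ω) : (starRingEnd ℂ) (Ω ^ 2) = Ω ^ 2 := by
  rw [map_pow]
  rcases h.pm with h1 | h1
  · rw [h1]
  · rw [h1]
    ring

lemma CR.wp_conj (h : CR L Ω) (z : ℂ) : ℘[L] ((starRingEnd ℂ) z) = (starRingEnd ℂ) (℘[L] z) := by
  have hΩ : Ω ≠ 0 := h.cur.lat.ne
  have e : z = Ω * (z / Ω) := by field_simp
  have h1 : ℘[L] (Ω * (starRingEnd ℂ) (z / Ω)) = (starRingEnd ℂ) (℘[L] z) := by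
    conv_rhs => rw [e]
    rw [wp_SR h.cur.lat, wp_SR h.cur.lat, SR_conj, map_mul, map_inv₀, h.conj_sq]
  rw [← h1]
  rcases h.pm with h2 | h2
  · congr 1
    conv_lhs => rw [e]
    rw [map_mul, h2]
  · rw [← L.weierstrassP_neg]
    congr 1
    conv_lhs => rw [e]
    rw [map_mul, h2]
    ring

lemma CR.dwp_conj (h : CR L Ω) {z : ℂ} (hz : z ∉ L.lattice) :
    ℘'[L] ((starRingEnd ℂ) z) = (starRingEnd ℂ) (℘'[L] z) := by
  have hz' : (starRingEnd ℂ) z ∉ L.lattice := fun h1 => hz ((conj_mem_iff h.cur).1 h1)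
  have h1 := (hasDerivAt_weierstrassP L hz).conj_conj
  have h2 : (starRingEnd ℂ) ∘ ℘[L] ∘ (starRingEnd ℂ) = ℘[L] := by
    funext w
    simp only [Function.comp_apply, h.wp_conj, Complex.conj_conj]
  rw [h2] at h1
  exact (hasDerivAt_weierstrassP L hz').unique h1

lemma conj_ez (a b : ℤ) : (starRingEnd ℂ) ((ez a b : eis) : ℂ) = a - b - b * om := by
  rw [ez_coe, map_add, map_mul, conj_om', map_intCast, map_intCast]
  ring

theorem CR.exists_RP (h : CR L Ω) :
    ∃ ω : ℝ, RP L ω ∧ ((ω : ℂ) ^ 2 = Ω ^ 2 ∨ (ω : ℂ) ^ 2 = -3 * Ω ^ 2) := by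
  have hL := h.cur.lat
  have hΩ : Ω ≠ 0 := hL.ne
  have hlam : lam ≠ 0 := lam_ne'
  rcases h.pm with h1 | h1
  · -- `Ω` real
    obtain ⟨a, ha⟩ := Complex.conj_eq_iff_real.1 h1
    have ha0 : a ≠ 0 := by rintro rfl; exact hΩ (by rw [ha]; simp)
    refine ⟨|a|, ⟨abs_pos.2 ha0, ?_, ?_⟩, Or.inl ?_⟩
    · intro t
      constructor
      · intro ht
        obtain ⟨r, hr⟩ := (hL.mem _).1 ht
        obtain ⟨x, y, rfl⟩ := ez_ex r
        have h2 : (starRingEnd ℂ) (t : ℂ) = t := Complex.conj_ofReal t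
        rw [hr, map_mul, h1, conj_ez, ez_coe] at h2
        have h3 := mul_left_cancel₀ hΩ h2
        have h4 : (y : ℂ) * lam = 0 := by rw [lam_eq]; linear_combination -h3
        have h5 := (mul_eq_zero.1 h4).resolve_right hlam
        rw [ez_coe, h5, ha] at hr
        have h6 : t = a * x := by
          apply Complex.ofReal_injective
          push_cast
          rw [hr]
          ring
        rcases abs_choice a with h7 | h7
        · exact ⟨x, by rw [h7, h6]; ring⟩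
        · exact ⟨-x, by rw [h7, h6]; push_cast; ring⟩
      · rintro ⟨k, rfl⟩
        rcases abs_choice a with h7 | h7
        · refine (hL.mem _).2 ⟨(k : eis), ?_⟩
          rw [h7, ha]; push_cast; ring
        · refine (hL.mem _).2 ⟨(-k : eis), ?_⟩
          rw [h7, ha]; push_cast; ring
    · intro z hz
      obtain ⟨r, hr⟩ := (hL.mem _).1 hz
      obtain ⟨x, y, rfl⟩ := ez_ex r
      have h2 : (starRingEnd ℂ) (z - (starRingEnd ℂ) z) = -(z - (starRingEnd ℂ) z) := by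
        rw [map_sub, Complex.conj_conj]; ring
      rw [hr, map_mul, h1, conj_ez, ez_coe, ← mul_neg] at h2
      have h3 := mul_left_cancel₀ hΩ h2
      have h4 : (y : ℂ) = 2 * x := by linear_combination -h3
      rw [ez_coe, h4] at hr
      refine ⟨Ω * ((x : eis) * omr : eis), (hL.mem _).2 ⟨_, rfl⟩, ?_⟩
      push_cast
      rw [omr_coe, map_sub, map_mul, map_mul, h1, conj_om', map_intCast]
      linear_combination (-1 : ℂ) * hr
    · rw [ha, ← Complex.ofReal_pow, sq_abs, Complex.ofReal_pow]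
  · -- `Ω` imaginary
    have h1s : (starRingEnd ℂ) (Ω * lam) = Ω * lam := by rw [map_mul, h1, conj_lam]; ring
    obtain ⟨a, ha⟩ := Complex.conj_eq_iff_real.1 h1s
    have ha0 : a ≠ 0 := by
      rintro rfl
      exact mul_ne_zero hΩ hlam (by rw [ha]; simp)
    refine ⟨|a|, ⟨abs_pos.2 ha0, ?_, ?_⟩, Or.inr ?_⟩
    · intro t
      constructor
      · intro ht
        obtain ⟨r, hr⟩ := (hL.mem _).1 ht
        obtain ⟨x, y, rfl⟩ := ez_ex r
        have h2 : (starRingEnd ℂ) (t : ℂ) = t := Complex.conj_ofReal t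
        rw [hr, map_mul, h1, conj_ez, ez_coe, neg_mul, ← mul_neg] at h2
        have h3 := mul_left_cancel₀ hΩ h2
        have h4 : (y : ℂ) = 2 * x := by linear_combination h3
        have h6 : t = a * x := by
          apply Complex.ofReal_injective
          push_cast
          rw [hr, ← ha, ez_coe, h4, lam_eq]
          ring
        rcases abs_choice a with h7 | h7
        · exact ⟨x, by rw [h7, h6]; ring⟩
        · exact ⟨-x, by rw [h7, h6]; push_cast; ring⟩
      · rintro ⟨k, rfl⟩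
        have e : (la : ℂ) = lam := la_coe
        rcases abs_choice a with h7 | h7
        · refine (hL.mem _).2 ⟨(k : eis) * la, ?_⟩
          rw [h7]; push_cast
          rw [e, ← ha]; ring
        · refine (hL.mem _).2 ⟨(-k : eis) * la, ?_⟩
          rw [h7]; push_cast
          rw [e, ← ha]; ring
    · intro z hz
      obtain ⟨r, hr⟩ := (hL.mem _).1 hz
      obtain ⟨x, y, rfl⟩ := ez_ex r
      have h2 : (starRingEnd ℂ) (z - (starRingEnd ℂ) z) = -(z - (starRingEnd ℂ) z) := by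
        rw [map_sub, Complex.conj_conj]; ring
      rw [hr, map_mul, h1, conj_ez, ez_coe, neg_mul, neg_inj] at h2
      have h3 := mul_left_cancel₀ hΩ h2
      have h4 : (y : ℂ) * lam = 0 := by rw [lam_eq]; linear_combination -h3
      have h5 := (mul_eq_zero.1 h4).resolve_right hlam
      rw [ez_coe, h5] at hr
      refine ⟨-(Ω * ((x : eis) * omr : eis)), neg_mem ((hL.mem _).2 ⟨_, rfl⟩), ?_⟩
      push_cast
      rw [omr_coe, sub_neg_eq_add, map_add, map_mul, map_mul, h1, conj_om', map_intCast]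
      linear_combination (-1 : ℂ) * hr
    · rw [← Complex.ofReal_pow, sq_abs, Complex.ofReal_pow, ← ha, mul_pow, pow_two lam, lam_sq]
      ring

end Pool.Agent.L0h86.F3
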