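import Pool.Agent.L0h86.F3.Pc
import Pool.Agent.L0h86.F1.Per

/-!
# The real period integral of `y² = 4 x³ + 1`
-/

set_option autoImplicit false
set_option linter.unusedSectionVars false

open Filter MeasureTheory
open scoped Topology PeriodPair

namespace Pool.Agent.L0h86.F3

open H667R3 Pool.Agent.W192.HK Pool.Agent.TH936.CM Pool.Agent.TH936.PU
open Pool.Agent.Y696 Pool.Agent.Y715.T.Lat
open Pool.Agent.Y715.T.Three (lam lam_ne' lam_sq)
open Pool.Agent.Y698 (RP real_of_conj dwp_per' dwp_neg' two_half)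

variable {L : PeriodPair} {Ω : ℂ}

/-- the cubic -/
noncomputable def psR (x : ℝ) : ℝ := 4 * x ^ 3 + 1

variable {ω : ℝ}

lemma CR.X_real (h : CR L Ω) (t : ℝ) : (((℘[L] t).re : ℝ) : ℂ) = ℘[L] t := by
  apply real_of_conj
  rw [← h.wp_conj, Complex.conj_ofReal]

lemma CR.dX_real (h : CR L Ω) {t : ℝ} (ht : (t : ℂ) ∉ L.lattice) :
    (((℘'[L] t).re : ℝ) : ℂ) = ℘'[L] t := by
  apply real_of_conj
  rw [← h.dwp_conj ht, Complex.conj_ofReal]

lemma CR.ode_real (h : CR L Ω) {t : ℝ} (ht : (t : ℂ) ∉ L.lattice) :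
    (℘'[L] t).re ^ 2 = psR (℘[L] t).re := by
  apply Complex.ofReal_injective
  unfold psR
  push_cast
  rw [h.dX_real ht, h.X_real, h.cur.ode ht]

lemma CR.psi_pos (h : CR L Ω) (hω : RP L ω) {t : ℝ} (h0 : 0 < t) (h1 : t < ω / 2) :
    0 < psR (℘[L] t).re := by
  have hp := hω.pos
  have ht : (t : ℂ) ∉ L.lattice := hω.notMem h0 (by linarith)
  rw [← h.ode_real ht]
  have h2 : ℘'[L] (t : ℂ) ≠ 0 := wp'_ne_zero L (two_half hω h0 h1)
  have h3 : (℘'[L] t).re ≠ 0 := by
    intro h4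
    apply h2
    rw [← h.dX_real ht, h4]
    simp
  positivity

lemma wpx_eq_iff {z w : ℂ} (hz : z ∉ L.lattice) (hw : w ∉ L.lattice) :
    ℘[L] z = ℘[L] w ↔ z - w ∈ L.lattice ∨ z + w ∈ L.lattice := by
  rw [wp_eq_iff L hz hw, or_comm]

theorem CR.inj_real (h : CR L Ω) (hω : RP L ω) :
    Set.InjOn (fun t : ℝ => (℘[L] t).re) (Set.Ioo 0 (ω / 2)) := by
  intro t ht u hu e
  have hp := hω.pos
  have hL := h.cur.lat
  obtain ⟨ht0, ht1⟩ := ht
  obtain ⟨hu0, hu1⟩ := hu
  have h1 : ℘[L] t = ℘[L] u := by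
    rw [← h.X_real t, ← h.X_real u]
    exact congrArg (fun x : ℝ => (x : ℂ)) e
  rw [wpx_eq_iff (hω.notMem ht0 (by linarith)) (hω.notMem hu0 (by linarith))] at h1
  rcases h1 with h1 | h1
  · rcases lt_trichotomy t u with h2 | h2 | h2
    · exfalso
      have := neg_mem h1
      rw [neg_sub] at this
      refine hω.notMem (t := u - t) (by linarith) (by linarith) (by push_cast; exact this)
    · exact h2
    · exfalso
      refine hω.notMem (t := t - u) (by linarith) (by linarith) (by push_cast; exact h1)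
  · exfalso
    refine hω.notMem (t := t + u) (by linarith) (by linarith) (by push_cast; exact h1)


theorem CR.image_real (h : CR L Ω) (hω : RP L ω) :
    (fun t : ℝ => (℘[L] t).re) '' (Set.Ioo 0 (ω / 2)) = {x : ℝ | 0 < psR x} := by
  have hp := hω.pos
  have hL := h.cur.lat
  ext x
  constructor
  · rintro ⟨t, ⟨ht0, ht1⟩, rfl⟩
    exact h.psi_pos hω ht0 ht1
  · intro hx
    have hx' : 0 < psR x := hx
    obtain ⟨z, hz, hzx'⟩ := exists_wp_eq L (x : ℂ)
    -- `X'(z)` is a nonzero real number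
    have hode := h.cur.ode hz
    rw [hzx'] at hode
    have hsq : ℘'[L] z ^ 2 = ((Real.sqrt (psR x) : ℝ) : ℂ) ^ 2 := by
      rw [← Complex.ofReal_pow, Real.sq_sqrt hx'.le, hode]
      unfold psR
      push_cast
      ring
    have hs0 : 0 < Real.sqrt (psR x) := Real.sqrt_pos.2 hx'
    have hreal : (starRingEnd ℂ) (℘'[L] z) = ℘'[L] z := by
      rcases sq_eq_sq_iff_eq_or_eq_neg.1 hsq with h1 | h1
      · rw [h1, Complex.conj_ofReal]
      · rw [h1, map_neg, Complex.conj_ofReal]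
    have hne : ℘'[L] z ≠ 0 := by
      intro h0
      rw [h0] at hsq
      have : ((Real.sqrt (psR x) : ℝ) : ℂ) = 0 := by
        apply pow_eq_zero_iff (two_ne_zero) |>.1
        rw [← hsq]; ring
      exact hs0.ne' (by exact_mod_cast this)
    have hz' : (starRingEnd ℂ) z ∉ L.lattice := fun h1 => hz ((conj_mem_iff h.cur).1 h1)
    have hcz : ℘[L] z = ℘[L] ((starRingEnd ℂ) z) := by
      rw [h.wp_conj, hzx', Complex.conj_ofReal]
    rw [wpx_eq_iff hz hz'] at hcz
    have hsub : z - (starRingEnd ℂ) z ∈ L.lattice := by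
      rcases hcz with h1 | h1
      · exact h1
      · exfalso
        have h2 : ℘'[L] z = ℘'[L] (-(starRingEnd ℂ) z) := dwp_per' hz (by
          rw [sub_neg_eq_add]; exact h1)
        rw [dwp_neg' _ hz', h.dwp_conj hz, hreal] at h2
        apply hne
        linear_combination (1 / 2 : ℂ) * h2
    obtain ⟨l, hl, hzl⟩ := hω.conn z hsub
    set t₀ : ℝ := (z - l).re with ht₀
    have ht₀z : (t₀ : ℂ) = z - l := real_of_conj hzl
    have hXt₀ : ℘[L] t₀ = x := by
      rw [ht₀z, ← hzx']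
      apply wp_per
      rw [sub_sub_cancel_left]
      exact neg_mem hl
    have ht₀L : (t₀ : ℂ) ∉ L.lattice := by
      intro h1
      apply hz
      have := add_mem h1 hl
      rwa [ht₀z, sub_add_cancel] at this
    -- reduce modulo `ω`
    set k : ℤ := ⌊t₀ / ω⌋ with hk
    set t₁ : ℝ := t₀ - k * ω with ht₁
    have hk1 : (k : ℝ) * ω ≤ t₀ := by
      have := Int.floor_le (t₀ / ω)
      rwa [← hk, le_div_iff₀ hp] at this
    have hk2 : t₀ < (k + 1 : ℝ) * ω := by
      have := Int.lt_floor_add_one (t₀ / ω)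
      rwa [← hk, div_lt_iff₀ hp] at this
    have hkL : (((k : ℝ) * ω : ℝ) : ℂ) ∈ L.lattice := (hω.mem _).2 ⟨k, rfl⟩
    have hXt₁ : ℘[L] t₁ = x := by
      rw [← hXt₀]
      apply wp_per
      have e : (t₁ : ℂ) - t₀ = -(((k : ℝ) * ω : ℝ) : ℂ) := by rw [ht₁]; push_cast; ring
      rw [e]
      exact neg_mem hkL
    have ht₁L : (t₁ : ℂ) ∉ L.lattice := by
      intro h1
      apply ht₀L
      have := add_mem h1 hkL
      have e : (t₁ : ℂ) + (((k : ℝ) * ω : ℝ) : ℂ) = t₀ := by rw [ht₁]; push_cast; ring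
      rwa [e] at this
    have ht₁0 : 0 ≤ t₁ := by rw [ht₁]; linarith
    have ht₁w : t₁ < ω := by rw [ht₁]; linarith
    have ht₁pos : 0 < t₁ := by
      rcases ht₁0.lt_or_eq with h1 | h1
      · exact h1
      · exfalso
        apply ht₁L
        rw [← h1]
        simp
    have hhalf : t₁ ≠ ω / 2 := by
      intro h1
      have h2 : ℘'[L] (t₁ : ℂ) = 0 := Pool.Agent.Y698.dwp_half (L := L) (by
        have e : 2 * (t₁ : ℂ) = ω := by rw [h1]; push_cast; ring
        rw [e]
        exact (hω.mem ω).2 ⟨1, by push_cast; ring⟩)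
      have h3 := h.ode_real ht₁L
      have h4 : (℘[L] t₁).re = x := by rw [hXt₁]; simp
      rw [h2, h4] at h3
      simp at h3
      linarith
    rcases lt_or_gt_of_ne hhalf with h1 | h1
    · exact ⟨t₁, ⟨ht₁pos, h1⟩, by simp only [hXt₁, Complex.ofReal_re]⟩
    · refine ⟨ω - t₁, ⟨by linarith, by linarith⟩, ?_⟩
      have e : ℘[L] ((ω - t₁ : ℝ) : ℂ) = x := by
        rw [← hXt₁, ← L.weierstrassP_neg (t₁ : ℂ)]
        apply wp_per
        have e2 : ((ω - t₁ : ℝ) : ℂ) - -(t₁ : ℂ) = ω := by push_cast; ring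
        rw [e2]
        exact (hω.mem ω).2 ⟨1, by push_cast; ring⟩
      simp only [e, Complex.ofReal_re]

/-- **the real period** -/
theorem CR.real_period (h : CR L Ω) (hω : RP L ω) :
    ∫ x in {x : ℝ | 0 < psR x}, 2 / Real.sqrt (psR x) = ω := by
  have hp := hω.pos
  rw [← h.image_real hω, integral_image_eq_integral_abs_deriv_smul
    (f' := fun t => (℘'[L] (t : ℂ)).re) measurableSet_Ioo]
  · have h1 : ∀ t ∈ Set.Ioo 0 (ω / 2), |(℘'[L] (t : ℂ)).re| • (2 / Real.sqrt (psR (℘[L] t).re)) = 2 := by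
      rintro t ⟨ht0, ht1⟩
      have ht : (t : ℂ) ∉ L.lattice := hω.notMem ht0 (by linarith)
      rw [← h.ode_real ht, Real.sqrt_sq_eq_abs, smul_eq_mul]
      have h2 : |(℘'[L] (t : ℂ)).re| ≠ 0 := by
        rw [abs_ne_zero]
        intro h3
        have := h.psi_pos hω ht0 ht1
        rw [← h.ode_real ht, h3] at this
        simp at this
      field_simp
    rw [setIntegral_congr_fun measurableSet_Ioo h1, setIntegral_const]
    simp only [Measure.real, Real.volume_Ioo, smul_eq_mul]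
    rw [ENNReal.toReal_ofReal (by linarith)]
    ring
  · rintro t ⟨ht0, ht1⟩
    have ht : (t : ℂ) ∉ L.lattice := hω.notMem ht0 (by linarith)
    exact (hasDerivAt_weierstrassP L ht).real_of_complex.hasDerivWithinAt
  · exact h.inj_real hω

end Pool.Agent.L0h86.F3
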