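import Pool.Agent.L0h86.F3.Sy

/-!
# Reduction to the field with four elements
-/

set_option autoImplicit false
set_option linter.unusedSectionVars false

open Filter
open scoped Topology PeriodPair

namespace Pool.Agent.L0h86.F3

open H667R3 Pool.Agent.W192.HK Pool.Agent.TH936.CM Pool.Agent.TH936.PU
open Pool.Agent.Y696 Pool.Agent.Y715.T.Lat
open Pool.Agent.Y698.SG (lg lg_one lg_neg_one lg_mul sgn_mul sgn_prod ix)

variable {Γ : Type*} [LinearOrderedCommGroupWithZero Γ] {v : Valuation ℂ Γ}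

lemma va_le {x y : ℂ} (hx : v x ≤ 1) (hy : v y ≤ 1) : v (x + y) ≤ 1 := v.map_add_le hx hy

lemma va_lt {x y : ℂ} (hx : v x < 1) (hy : v y < 1) : v (x + y) < 1 := v.map_add_lt hx hy

lemma vm_le {x y : ℂ} (hx : v x ≤ 1) (hy : v y ≤ 1) : v (x * y) ≤ 1 := by
  rw [map_mul]
  exact mul_le_one' hx hy

lemma vm_lt {x y : ℂ} (hx : v x < 1) (hy : v y ≤ 1) : v (x * y) < 1 := by
  rw [map_mul]
  exact mul_lt_one_of_lt_of_le hx hy

lemma v_int' (n : ℤ) : v (n : ℂ) ≤ 1 := Pool.Agent.Y715.Two.v_int n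

lemma v_nat' (n : ℕ) : v (n : ℂ) ≤ 1 := Pool.Agent.Y715.Two.v_nat n

lemma v_om : v om = 1 := by
  have h : v om ^ 3 = 1 := by rw [← map_pow, om_cube, map_one]
  exact (pow_eq_one_iff_of_nonneg zero_le (by norm_num)).1 h

/-- the elements of the ring are integral -/
lemma v_eis (r : eis) : v (r : ℂ) ≤ 1 := by
  obtain ⟨a, b, rfl⟩ := ez_ex r
  rw [ez_coe]
  refine va_le (v_int' _) (vm_le (v_int' _) v_om.le)

lemma two_coe : ((2 : eis) : ℂ) = 2 := rfl

lemma rho_zero {r : eis} (h : rho r = 0) : ∃ t : eis, r = 2 * t := by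
  obtain ⟨a, b, rfl⟩ := ez_ex r
  rw [rho_ez] at h
  have h1 : ((a : ℤ) : ZMod 2) = 0 := congrArg F4.re h
  have h2 : ((b : ℤ) : ZMod 2) = 0 := congrArg F4.im h
  rw [ZMod.intCast_zmod_eq_zero_iff_dvd] at h1 h2
  obtain ⟨c, hc⟩ := h1
  obtain ⟨d, hd⟩ := h2
  refine ⟨ez c d, ?_⟩
  have e2 : (2 : eis) = ez 2 0 := by
    rw [ez_int]
    norm_num
  rw [e2, ez_mul]
  push_cast at hc hd
  congr 1 <;> [rw [hc]; rw [hd]] <;> ring

lemma rho_surj (a : F4) : ∃ r : eis, rho r = a := by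
  refine ⟨ez a.re.val a.im.val, ?_⟩
  rw [rho_ez]
  ext
  · show ((a.re.val : ℤ) : ZMod 2) = a.re
    push_cast
    exact ZMod.natCast_zmod_val _
  · show ((a.im.val : ℤ) : ZMod 2) = a.im
    push_cast
    exact ZMod.natCast_zmod_val _

lemma R4.of_eis (r : eis) : R4 v (r : ℂ) (rho r) := ⟨r, rfl, by rw [sub_self, map_zero]; exact zero_lt_one⟩

lemma R4.le {z : ℂ} {a : F4} (h : R4 v z a) : v z ≤ 1 := by
  obtain ⟨r, -, h1⟩ := h
  have e : z = (z - r) + r := by ring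
  rw [e]
  exact va_le h1.le (v_eis r)

lemma R4.one : R4 v 1 1 := by
  have h := R4.of_eis (v := v) 1
  rw [map_one] at h
  exact h

lemma R4.zero_iff (t2 : v 2 < 1) {z : ℂ} : R4 v z 0 ↔ v z < 1 := by
  constructor
  · rintro ⟨r, h0, h1⟩
    obtain ⟨t, rfl⟩ := rho_zero h0
    have e : z = (z - ((2 * t : eis) : ℂ)) + 2 * t := by
      push_cast
      rw [two_coe]
      ring
    rw [e]
    exact va_lt h1 (vm_lt t2 (v_eis t))
  · intro h
    exact ⟨0, map_zero _, by simpa using h⟩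

lemma R4.add {z z' : ℂ} {a a' : F4} (h : R4 v z a) (h' : R4 v z' a') :
    R4 v (z + z') (a + a') := by
  obtain ⟨r, rfl, h1⟩ := h
  obtain ⟨r', rfl, h1'⟩ := h'
  refine ⟨r + r', map_add _ _ _, ?_⟩
  have e : z + z' - ((r + r' : eis) : ℂ) = (z - r) + (z' - r') := by
    push_cast
    ring
  rw [e]
  exact va_lt h1 h1'

lemma R4.mul {z z' : ℂ} {a a' : F4} (h : R4 v z a) (h' : R4 v z' a') :
    R4 v (z * z') (a * a') := by
  have hl := h'.le
  obtain ⟨r, rfl, h1⟩ := h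
  obtain ⟨r', rfl, h1'⟩ := h'
  refine ⟨r * r', map_mul _ _ _, ?_⟩
  have e : z * z' - ((r * r' : eis) : ℂ) = (z - r) * z' + (z' - r') * r := by
    push_cast
    ring
  rw [e]
  exact va_lt (vm_lt h1 hl) (vm_lt h1' (v_eis r))

lemma R4.neg {z : ℂ} {a : F4} (h : R4 v z a) : R4 v (-z) a := by
  obtain ⟨r, rfl, h1⟩ := h
  refine ⟨-r, ?_, ?_⟩
  · rw [map_neg]
    exact CharTwo.neg_eq _
  · have e : -z - ((-r : eis) : ℂ) = -(z - r) := by
      push_cast
      ring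
    rw [e, Valuation.map_neg]
    exact h1

lemma R4.sum {κ : Type*} {s : Finset κ} {f : κ → ℂ} {g : κ → F4}
    (h : ∀ i ∈ s, R4 v (f i) (g i)) : R4 v (∑ i ∈ s, f i) (∑ i ∈ s, g i) := by
  classical
  induction s using Finset.induction_on with
  | empty =>
    rw [Finset.sum_empty, Finset.sum_empty]
    exact ⟨0, map_zero _, by simp⟩
  | insert i s hi ih =>
    rw [Finset.sum_insert hi, Finset.sum_insert hi]
    exact R4.add (h i (Finset.mem_insert_self _ _))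
      (ih fun j hj => h j (Finset.mem_insert_of_mem hj))

lemma R4.prod {κ : Type*} {s : Finset κ} {f : κ → ℂ} {g : κ → F4}
    (h : ∀ i ∈ s, R4 v (f i) (g i)) : R4 v (∏ i ∈ s, f i) (∏ i ∈ s, g i) := by
  classical
  induction s using Finset.induction_on with
  | empty =>
    rw [Finset.prod_empty, Finset.prod_empty]
    exact R4.one
  | insert i s hi ih =>
    rw [Finset.prod_insert hi, Finset.prod_insert hi]
    exact R4.mul (h i (Finset.mem_insert_self _ _))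
      (ih fun j hj => h j (Finset.mem_insert_of_mem hj))

/-- congruent numbers have the same reduction -/
lemma R4.congr {z z' : ℂ} {a : F4} (h : R4 v z a) (h' : v (z' - z) < 1) : R4 v z' a := by
  obtain ⟨r, rfl, h1⟩ := h
  refine ⟨r, rfl, ?_⟩
  have e : z' - r = (z' - z) + (z - r) := by ring
  rw [e]
  exact va_lt h' h1

lemma R4.lt_iff (t2 : v 2 < 1) {z : ℂ} {a : F4} (h : R4 v z a) : v z < 1 ↔ a = 0 := by
  constructor
  · intro h1
    by_contra h0
    obtain ⟨r, hr⟩ := rho_surj a⁻¹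
    have h2 := h.mul (R4.of_eis (v := v) r)
    rw [hr, mul_inv_cancel₀ h0] at h2
    have h3 : v (z * r) < 1 := vm_lt h1 (v_eis r)
    obtain ⟨s, hs, hs1⟩ := h2
    have h4 : rho (s - 1) = 0 := by rw [map_sub, hs, map_one, sub_self]
    obtain ⟨t, ht⟩ := rho_zero h4
    have h5 : (1 : ℂ) = -(z * r - s) + z * r + 2 * (-t : eis) := by
      have h6 : (s : ℂ) - 1 = 2 * t := by
        have := congrArg (fun x : eis => (x : ℂ)) ht
        push_cast at this
        rw [two_coe] at this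
        exact this
      push_cast
      linear_combination -h6
    have h7 : v (1 : ℂ) < 1 := by
      rw [h5]
      refine va_lt (va_lt ?_ h3) (vm_lt t2 (v_eis _))
      rw [Valuation.map_neg]
      exact hs1
    rw [map_one] at h7
    exact lt_irrefl _ h7
  · rintro rfl
    exact (R4.zero_iff t2).1 h

lemma R4.unit_iff (t2 : v 2 < 1) {z : ℂ} {a : F4} (h : R4 v z a) : v z = 1 ↔ a ≠ 0 := by
  rw [Ne, ← h.lt_iff t2, not_lt]
  exact ⟨fun h => h.ge, fun h1 => le_antisymm h.le h1⟩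

/-! ### the primes -/

variable {ϖ : eis}

lemma PX.half (h : PX ϖ) : ∃ a b : ℤ, ϖ = 1 + 2 * ez a b := by
  obtain ⟨u, hu⟩ := h.n1
  obtain ⟨a, b, hab⟩ := ez_ex (la * u)
  exact ⟨a, b, by rw [hu, ← hab]; ring⟩

lemma bt_ez (a b : ℤ) : bt (1 + 2 * ez a b) = ⟨(a : ZMod 2), (b : ZMod 2)⟩ := by
  rw [bt_eq, rho_ez]

lemma PX.odd (h : PX ϖ) : IsCoprime (2 : eis) ϖ := by
  obtain ⟨a, b, hab⟩ := h.half
  exact ⟨-ez a b, 1, by rw [hab]; ring⟩

lemma PX.ne (h : PX ϖ) : ϖ ≠ 0 := h.pr.ne_zero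

lemma PX.mul (h : PX ϖ) (x y : eis) : sy ϖ (x * y) = sy ϖ x * sy ϖ y := sy_mul' h.pr x y

lemma two_notin (hodd : IsCoprime (2 : eis) ϖ) (h : Prime ϖ) : (2 : eis) ∉ sp ϖ := by
  intro h1
  rw [Ideal.mem_span_singleton] at h1
  have h2 := hodd.isUnit_of_dvd' h1 dvd_rfl
  exact h.not_isUnit h2

/-- the number of the residue classes -/
lemma card_quot (x : eis) : (Nat.card (eis ⧸ sp x) : ℝ) = Complex.normSq (x : ℂ) :=
  (lbasic eis om qr).2.2.2.2.1 x

lemma card_half (a b : ℤ) : (Nat.card (eis ⧸ sp (1 + 2 * ez a b)) : ℤ) =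
    1 + 4 * a + 4 * a ^ 2 - 2 * b - 4 * a * b + 4 * b ^ 2 := by
  have h1 := card_quot (1 + 2 * ez a b)
  have e : ((1 + 2 * ez a b : eis) : ℂ) = ((1 + 2 * a : ℤ) : ℂ) + ((2 * b : ℤ) : ℂ) * om := by
    push_cast
    rw [two_coe, ez_coe]
    ring
  rw [e, norm_rep] at h1
  have h2 : (Nat.card (eis ⧸ sp (1 + 2 * ez a b)) : ℤ) =
      (1 + 2 * a) ^ 2 - (1 + 2 * a) * (2 * b) + (2 * b) ^ 2 := by
    exact_mod_cast h1
  rw [h2]
  ring

/-- the Euler factor -/
lemma R4_euler (h : PX ϖ) {κ : ℂ} (hκ : κ = 1 ∨ κ = -1) :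
    R4 v (((ϖ : ℂ) - κ) / 2) (bt ϖ + F4.of (lg κ)) := by
  obtain ⟨a, b, rfl⟩ := h.half
  have e : ((((1 + 2 * ez a b : eis) : ℂ) - κ) / 2) = (ez a b : eis) + (1 - κ) / 2 := by
    push_cast
    rw [two_coe]
    ring
  rw [e, bt_eq]
  refine (R4.of_eis _).add ?_
  rcases hκ with rfl | rfl
  · rw [lg_one, map_zero, sub_self, zero_div]
    exact ⟨0, map_zero _, by simp⟩
  · rw [lg_neg_one, map_one]
    have e : ((1 : ℂ) - -1) / 2 = 1 := by norm_num
    rw [e]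
    exact R4.one

/-- natural numbers -/
lemma R4_nat (t2 : v 2 < 1) (s : ℕ) : R4 v (s : ℂ) (F4.of (s : ZMod 2)) := by
  rcases Nat.even_or_odd' s with ⟨k, hk | hk⟩
  · have : (s : ZMod 2) = 0 := by rw [ZMod.natCast_eq_zero_iff]; exact ⟨k, hk⟩
    rw [this, map_zero, R4.zero_iff t2, hk]
    push_cast
    exact vm_lt t2 (v_nat' k)
  · have : (s : ZMod 2) = 1 := by
      have h8 : ((s : ℕ) : ZMod 2) = ((1 : ℕ) : ZMod 2) := by
        rw [ZMod.natCast_eq_natCast_iff]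
        show s % 2 = 1 % 2
        omega
      rw [h8, Nat.cast_one]
    rw [this, map_one]
    refine R4.one.congr ?_
    rw [hk]
    push_cast
    rw [add_sub_cancel_right]
    exact vm_lt t2 (v_nat' k)

end Pool.Agent.L0h86.F3
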