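import Pool.Agent.L0h86.F3.Ind

/-!
# The units modulo `2√-3`
-/

set_option autoImplicit false
set_option linter.unusedSectionVars false

open Filter
open scoped Topology PeriodPair

namespace Pool.Agent.L0h86.F3

open H667R3 Pool.Agent.W192.HK Pool.Agent.TH936.CM Pool.Agent.TH936.PU
open Pool.Agent.Y696 Pool.Agent.Y715.T.Lat
open Pool.Agent.Y715.T.Three (lam lam_ne' lam_sq)
open Pool.Agent.Y715.T.LF (rd rd_ez rd_eq_zero)

lemma mem_six {a b : ℤ} : ez a b ∈ (sp (2 * la) : Ideal eis) ↔ 2 ∣ a ∧ 2 ∣ b ∧ 3 ∣ a + b := by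
  have e2 : (2 : eis) = ez 2 0 := by
    rw [ez_int]
    norm_num
  rw [Ideal.mem_span_singleton']
  constructor
  · rintro ⟨t, ht⟩
    obtain ⟨x, y, rfl⟩ := ez_ex t
    unfold la at ht
    rw [e2, ez_mul, ez_mul] at ht
    obtain ⟨h1, h2⟩ := ez_inj ht
    omega
  · rintro ⟨⟨c, hc⟩, ⟨d, hd⟩, h3⟩
    have h4 : rd (ez c d) = 0 := by
      rw [rd_ez, ZMod.intCast_zmod_eq_zero_iff_dvd]
      push_cast
      omega
    obtain ⟨t, ht⟩ := rd_eq_zero h4
    refine ⟨t, ?_⟩
    have h5 : ez a b = 2 * ez c d := by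
      rw [e2, ez_mul, hc, hd]
      congr 1 <;> ring
    rw [h5, ht]
    ring

lemma mod_six {x : eis} (h : IsCoprime x (2 * la)) :
    ∃ u : eis, IsUnit u ∧ x - u ∈ (sp (2 * la) : Ideal eis) := by
  obtain ⟨a, b, rfl⟩ := ez_ex x
  obtain ⟨s, t, hst⟩ := h
  have hla : rd la = 0 := by
    unfold la
    rw [rd_ez]
    decide
  have h1 : ¬ (3 : ℤ) ∣ a + b := by
    intro h0
    have h2 := congrArg rd hst
    rw [map_add, map_mul, map_mul, map_mul, hla, rd_ez,
      (ZMod.intCast_zmod_eq_zero_iff_dvd (a + b) 3).2 (by push_cast; exact h0), map_one] at h2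
    simp at h2
  have h2 : ¬ ((2 : ℤ) ∣ a ∧ (2 : ℤ) ∣ b) := by
    rintro ⟨h3, h4⟩
    have h5 := congrArg rho hst
    have h6 : rho (ez a b) = 0 := by
      rw [rho_ez, (ZMod.intCast_zmod_eq_zero_iff_dvd a 2).2 (by push_cast; exact h3),
        (ZMod.intCast_zmod_eq_zero_iff_dvd b 2).2 (by push_cast; exact h4)]
      rfl
    have h7 : rho (2 : eis) = 0 := by
      rw [map_ofNat]
      rfl
    rw [map_add, map_mul, map_mul, map_mul, h6, h7, map_one] at h5
    simp at h5
  have hu : ∀ v ∈ ({1, -1, omr, -omr, omr ^ 2, -omr ^ 2} : Set eis), IsUnit v := fun v hv =>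
    (unit_list v).2 hv
  simp only [Set.mem_insert_iff, Set.mem_singleton_iff] at hu
  have e1 : (1 : eis) = ez 1 0 := ez_one.symm
  have e2 : (-1 : eis) = ez (-1) 0 := by
    rw [ez_int]
    norm_num
  have e3 : omr = ez 0 1 := ez_omr.symm
  have e4 : -omr = ez 0 (-1) := by
    unfold ez
    push_cast
    ring
  have e5 : omr ^ 2 = ez (-1) (-1) := by
    unfold ez
    push_cast
    linear_combination omr_sq
  have e6 : -omr ^ 2 = ez 1 1 := by
    unfold ez
    push_cast
    linear_combination -omr_sq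
  by_cases hs : (a + b) % 3 = 1
  · rcases Int.emod_two_eq_zero_or_one a with ha | ha <;>
      rcases Int.emod_two_eq_zero_or_one b with hb | hb
    · exact absurd ⟨Int.dvd_of_emod_eq_zero ha, Int.dvd_of_emod_eq_zero hb⟩ h2
    · refine ⟨omr, hu _ (by simp), ?_⟩
      rw [e3, ez_sub, mem_six]
      omega
    · refine ⟨1, hu _ (by simp), ?_⟩
      rw [e1, ez_sub, mem_six]
      omega
    · refine ⟨omr ^ 2, hu _ (by simp), ?_⟩
      rw [e5, ez_sub, mem_six]
      omega
  · rcases Int.emod_two_eq_zero_or_one a with ha | ha <;>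
      rcases Int.emod_two_eq_zero_or_one b with hb | hb
    · exact absurd ⟨Int.dvd_of_emod_eq_zero ha, Int.dvd_of_emod_eq_zero hb⟩ h2
    · refine ⟨-omr, hu _ (by simp), ?_⟩
      rw [e4, ez_sub, mem_six]
      omega
    · refine ⟨-1, hu _ (by simp), ?_⟩
      rw [e2, ez_sub, mem_six]
      omega
    · refine ⟨-omr ^ 2, hu _ (by simp), ?_⟩
      rw [e6, ez_sub, mem_six]
      omega

lemma normSq_f6 : Complex.normSq ((2 * la : eis) : ℂ) = 12 := by
  push_cast
  rw [Complex.normSq_mul, two_coe, la_coe]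
  have h1 : Complex.normSq (2 : ℂ) = 4 := by norm_num [Complex.normSq_apply]
  have h2 : Complex.normSq lam = 3 := by
    unfold lam
    rw [Complex.normSq_mk]
    have h3 : √3 * √3 = 3 := Real.mul_self_sqrt (by norm_num)
    rw [h3]
    norm_num
  rw [h1, h2]
  norm_num

/-- units are distinct modulo `2√-3` -/
lemma unit_mod6 {u v : eis} (hu : IsUnit u) (hv : IsUnit v)
    (h : u - v ∈ (sp (2 * la) : Ideal eis)) : u = v := by
  rw [Ideal.mem_span_singleton'] at h
  obtain ⟨t, ht⟩ := h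
  by_contra hne
  have h1 : Complex.normSq ((u - v : eis) : ℂ) = 12 * Complex.normSq (t : ℂ) := by
    rw [← ht]
    have e : ((t * (2 * la) : eis) : ℂ) = (t : ℂ) * ((2 * la : eis) : ℂ) := by push_cast; ring
    rw [e, Complex.normSq_mul, normSq_f6]
    ring
  have h2 : Complex.normSq (u : ℂ) = 1 := (isUnit_iff' u).1 hu
  have h3 : Complex.normSq (v : ℂ) = 1 := (isUnit_iff' v).1 hv
  have h4 : Complex.normSq ((u - v : eis) : ℂ) ≤ 4 := by
    push_cast
    have h5 : ‖(u : ℂ) - v‖ ≤ 2 := by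
      refine (norm_sub_le _ _).trans ?_
      rw [Complex.normSq_eq_norm_sq] at h2 h3
      have h6 : ‖(u : ℂ)‖ = 1 := by
        have := norm_nonneg (u : ℂ)
        nlinarith
      have h7 : ‖(v : ℂ)‖ = 1 := by
        have := norm_nonneg (v : ℂ)
        nlinarith
      rw [h6, h7]
      norm_num
    rw [Complex.normSq_eq_norm_sq]
    have := norm_nonneg ((u : ℂ) - v)
    nlinarith
  obtain ⟨n, hn⟩ := norm_int t
  rw [hn] at h1
  have h5 : (12 * n : ℝ) ≤ 4 := by linarith
  have h6 : n = 0 := by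
    have : 12 * n ≤ 4 := by exact_mod_cast h5
    omega
  rw [h6] at hn
  have h7 : t = 0 := by
    apply coe_inj'
    simpa using hn
  rw [h7, zero_mul] at ht
  exact hne (sub_eq_zero.1 ht.symm)

lemma six_sum6 (F : eis → ℂ) (hF0 : ∀ x, ¬ IsCoprime x (2 * la) → F x = 0)
    (hper : ∀ x y : eis, x - y ∈ (sp (2 * la) : Ideal eis) → F x = F y) [Fintype (eis ⧸ (sp (2 * la) : Ideal eis))] :
    ∑ y : eis ⧸ (sp (2 * la) : Ideal eis), F y.out =
      F 1 + F (-1) + F omr + F (-omr) + F (omr ^ 2) + F (-omr ^ 2) := by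
  classical
  set U : Finset eis := {1, -1, omr, -omr, omr ^ 2, -omr ^ 2} with hU
  have hUu : ∀ u ∈ U, IsUnit u := by
    intro u hu
    rw [unit_list]
    simpa [hU] using hu
  have him : ∀ z : ℂ, z = om → z.im ≠ 0 := by rintro z rfl; exact om_im.ne'
  have hne : ∀ x y : ℤ, y ≠ 0 → ∀ a b : ℤ, b = 0 → (x : ℂ) + y * om ≠ a + b * om := by
    intro x y hy a b hb h
    have := congrArg Complex.im h
    simp [hb] at this
    rcases this with h1 | h1
    · exact hy h1
    · exact om_im.ne' h1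
  have hinj : ∀ x y a b : ℤ, (x : ℂ) + y * om = a + b * om → x = a ∧ y = b := by
    intro x y a b h
    have h1 := congrArg Complex.im h
    simp at h1
    have h2 : y = b := by
      rcases h1 with h1 | h1
      · exact h1
      · exact absurd h1 om_im.ne'
    subst h2
    have h3 : (x : ℂ) = a := add_right_cancel h
    exact ⟨by exact_mod_cast h3, rfl⟩
  have e1 : ((1 : eis) : ℂ) = ((1 : ℤ) : ℂ) + ((0 : ℤ) : ℂ) * om := by push_cast; ring
  have e2 : ((-1 : eis) : ℂ) = ((-1 : ℤ) : ℂ) + ((0 : ℤ) : ℂ) * om := by push_cast; ring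
  have e3 : ((omr : eis) : ℂ) = ((0 : ℤ) : ℂ) + ((1 : ℤ) : ℂ) * om := by
    push_cast [omr_coe]; ring
  have e4 : ((-omr : eis) : ℂ) = ((0 : ℤ) : ℂ) + ((-1 : ℤ) : ℂ) * om := by
    push_cast [omr_coe]; ring
  have e5 : ((omr ^ 2 : eis) : ℂ) = ((-1 : ℤ) : ℂ) + ((-1 : ℤ) : ℂ) * om := by
    push_cast [omr_coe]; linear_combination om_sq
  have e6 : ((-omr ^ 2 : eis) : ℂ) = ((1 : ℤ) : ℂ) + ((1 : ℤ) : ℂ) * om := by
    push_cast [omr_coe]; linear_combination -om_sq
  have hd : ∀ {s t : eis} {x y a b : ℤ}, (s : ℂ) = (x : ℂ) + y * om → (t : ℂ) = (a : ℂ) + b * om →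
      ¬ (x = a ∧ y = b) → s ≠ t := by
    intro s t x y a b hs ht h hst
    apply h
    apply hinj
    rw [← hs, ← ht, hst]
  have hsum : ∑ u ∈ U, F u = F 1 + F (-1) + F omr + F (-omr) + F (omr ^ 2) + F (-omr ^ 2) := by
    rw [hU, Finset.sum_insert, Finset.sum_insert, Finset.sum_insert, Finset.sum_insert,
      Finset.sum_insert, Finset.sum_singleton]
    · ring
    all_goals
      simp only [Finset.mem_insert, Finset.mem_singleton, not_or]
    · exact hd e5 e6 (by norm_num)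
    · exact ⟨hd e4 e5 (by norm_num), hd e4 e6 (by norm_num)⟩
    · exact ⟨hd e3 e4 (by norm_num), hd e3 e5 (by norm_num), hd e3 e6 (by norm_num)⟩
    · exact ⟨hd e2 e3 (by norm_num), hd e2 e4 (by norm_num), hd e2 e5 (by norm_num),
        hd e2 e6 (by norm_num)⟩
    · exact ⟨hd e1 e2 (by norm_num), hd e1 e3 (by norm_num), hd e1 e4 (by norm_num),
        hd e1 e5 (by norm_num), hd e1 e6 (by norm_num)⟩
  rw [← hsum]
  set g : eis → eis ⧸ (sp (2 * la) : Ideal eis) := fun x => Ideal.Quotient.mk _ x with hg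
  have hginj : Set.InjOn g U := by
    intro u hu v hv huv
    refine unit_mod6 (hUu u hu) (hUu v hv) ?_
    rw [← Ideal.Quotient.mk_eq_mk_iff_sub_mem]
    exact huv
  have h1 : ∑ u ∈ U, F u = ∑ y ∈ U.image g, F y.out := by
    rw [Finset.sum_image hginj]
    refine Finset.sum_congr rfl fun u _ => hper _ _ ?_
    exact out_mk _ u
  rw [h1]
  symm
  refine Finset.sum_subset (Finset.subset_univ _) fun y _ hy => hF0 _ ?_
  intro hcop
  obtain ⟨u, hu, hu'⟩ := mod_six hcop
  apply hy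
  rw [Finset.mem_image]
  refine ⟨u, ?_, ?_⟩
  · rw [unit_list] at hu
    simpa [hU] using hu
  · rw [hg]
    simp only
    rw [← Ideal.Quotient.mk_out y, eq_comm, Ideal.Quotient.mk_eq_mk_iff_sub_mem]
    exact hu'

end Pool.Agent.L0h86.F3
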