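import Pool.Agent.L0h86.F3.Ev

/-!
# The symbols modulo the prime elements
-/

set_option autoImplicit false
set_option linter.unusedSectionVars false

open Filter
open scoped Topology PeriodPair

namespace Pool.Agent.L0h86.F3

open H667R3 Pool.Agent.W192.HK Pool.Agent.TH936.CM Pool.Agent.TH936.PU
open Pool.Agent.Y696 Pool.Agent.Y715.T.Lat
open Pool.Agent.Y698.SG (lg lg_one lg_neg_one lg_mul sgn_mul sgn_prod ix)

/-- periodic functions -/
def Pe (n : eis) (φ : eis → ℂ) : Prop := ∀ x y : eis, x - y ∈ sp n → φ x = φ y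

lemma Pe.mono {m n : eis} (h : m ∣ n) {φ : eis → ℂ} (hφ : Pe m φ) : Pe n φ := fun a b hab =>
  hφ a b ((Ideal.span_singleton_le_span_singleton.2 h) hab)

lemma Pe.mul {n : eis} {φ φ' : eis → ℂ} (h : Pe n φ) (h' : Pe n φ') :
    Pe n (fun m => φ m * φ' m) := fun a b hab => by
  show φ a * φ' a = φ b * φ' b
  rw [h a b hab, h' a b hab]

lemma sp_mem_iff {ϖ x y : eis} (h : x - y ∈ sp ϖ) : x ∈ sp ϖ ↔ y ∈ sp ϖ := by
  constructor
  · intro hx
    have := sub_mem hx h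
    rwa [sub_sub_cancel] at this
  · intro hy
    have := add_mem h hy
    rwa [sub_add_cancel] at this

lemma sy_per (ϖ : eis) : Pe ϖ (sy ϖ) := by
  intro x y h
  have h1 := sp_mem_iff h
  unfold sy
  rw [(Ideal.Quotient.mk_eq_mk_iff_sub_mem x y).2 h]
  by_cases hx : x ∈ sp ϖ
  · rw [if_pos hx, if_pos (h1.1 hx)]
  · rw [if_neg hx, if_neg (fun h => hx (h1.2 h))]

open Classical in
/-- the trivial character -/
noncomputable def tr (ϖ x : eis) : ℂ := if x ∈ sp ϖ then 0 else 1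

lemma tr_per (ϖ : eis) : Pe ϖ (tr ϖ) := by
  intro x y h
  have h1 := sp_mem_iff h
  unfold tr
  by_cases hx : x ∈ sp ϖ
  · rw [if_pos hx, if_pos (h1.1 hx)]
  · rw [if_neg hx, if_neg (fun h => hx (h1.2 h))]

lemma sy_val (ϖ x : eis) : (x ∈ sp ϖ ∧ sy ϖ x = 0) ∨ (x ∉ sp ϖ ∧ (sy ϖ x = 1 ∨ sy ϖ x = -1)) := by
  unfold sy
  by_cases h : x ∈ sp ϖ
  · left; exact ⟨h, if_pos h⟩
  · right
    refine ⟨h, ?_⟩
    rw [if_neg h]
    split_ifs
    · exact Or.inl rfl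
    · exact Or.inr rfl

lemma sy_sgn {ϖ x : eis} (h : x ∉ sp ϖ) : sy ϖ x = 1 ∨ sy ϖ x = -1 := by
  rcases sy_val ϖ x with h1 | h1
  · exact absurd h1.1 h
  · exact h1.2

lemma prime_mem {ϖ : eis} (h : Prime ϖ) {x y : eis} (hx : x ∉ sp ϖ) : x * y ∈ sp ϖ ↔ y ∈ sp ϖ := by
  rw [Ideal.mem_span_singleton] at hx
  rw [Ideal.mem_span_singleton, Ideal.mem_span_singleton]
  constructor
  · intro h1
    exact (h.dvd_or_dvd h1).resolve_left hx
  · exact fun h1 => Dvd.dvd.mul_left h1 _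

lemma tr_mul {ϖ : eis} (h : Prime ϖ) {x : eis} (hx : x ∉ sp ϖ) (m : eis) :
    tr ϖ (x * m) = tr ϖ m := by
  have h1 := prime_mem h (y := m) hx
  unfold tr
  by_cases hm : m ∈ sp ϖ
  · rw [if_pos hm, if_pos (h1.2 hm)]
  · rw [if_neg hm, if_neg (fun h => hm (h1.1 h))]

/-- multipliers -/
def Mu (q : eis) (φ : eis → ℂ) (κ : ℂ) : Prop := ∀ m : eis, φ (q * m) = κ * φ m

lemma Mu.mul {q : eis} {φ φ' : eis → ℂ} {κ κ' : ℂ} (h : Mu q φ κ) (h' : Mu q φ' κ') :
    Mu q (fun m => φ m * φ' m) (κ * κ') := fun m => by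
  show φ _ * φ' _ = _ * (φ m * φ' m)
  rw [h m, h' m]
  ring

lemma Mu.prod {ι : Type} {q : eis} {S : Finset ι} {f : ι → eis → ℂ} {κ : ι → ℂ}
    (h : ∀ i ∈ S, Mu q (f i) (κ i)) : Mu q (fun m => ∏ i ∈ S, f i m) (∏ i ∈ S, κ i) := fun m => by
  show ∏ i ∈ S, f i (q * m) = _ * ∏ i ∈ S, f i m
  rw [← Finset.prod_mul_distrib]
  exact Finset.prod_congr rfl fun i hi => h i hi m

lemma Pe.prod {ι : Type} {S : Finset ι} {π : ι → eis} {f : ι → eis → ℂ}
    (h : ∀ i ∈ S, Pe (π i) (f i)) : Pe (∏ i ∈ S, π i) (fun m => ∏ i ∈ S, f i m) := fun a b hab =>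
  Finset.prod_congr rfl fun i hi => (h i hi).mono (Finset.dvd_prod_of_mem _ hi) a b hab

/-- half the sum of the two characters -/
noncomputable def hc (ϖ m : eis) : ℂ := (sy ϖ m + tr ϖ m) / 2

lemma hc_val (ϖ m : eis) : (hc ϖ m = 0 ∨ hc ϖ m = 1) ∧ (m ∈ sp ϖ → hc ϖ m = 0) := by
  unfold hc tr
  rcases sy_val ϖ m with ⟨h, h1⟩ | ⟨h, h1 | h1⟩
  · rw [h1, if_pos h]
    norm_num
  · rw [h1, if_neg h]
    exact ⟨Or.inr (by norm_num), fun h' => absurd h' h⟩
  · rw [h1, if_neg h]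
    exact ⟨Or.inl (by norm_num), fun h' => absurd h' h⟩

lemma hc_per (ϖ : eis) : Pe ϖ (hc ϖ) := by
  intro a b hab
  unfold hc
  rw [sy_per ϖ a b hab, tr_per ϖ a b hab]

lemma maximal_sp {π : eis} (h : Irreducible π) : (sp π).IsMaximal :=
  PrincipalIdealRing.isMaximal_of_irreducible h

lemma sy_eq {F : Type*} [Field F] [Fintype F] [DecidableEq F] {ϖ : eis} (φ : eis →+* F)
    (hs : Function.Surjective φ) (hk : ∀ x, φ x = 0 ↔ x ∈ sp ϖ) (x : eis) :
    sy ϖ x = ((quadraticChar F (φ x) : ℤ) : ℂ) := by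
  classical
  have hsq : IsSquare (Ideal.Quotient.mk (sp ϖ) x) ↔ IsSquare (φ x) := by
    constructor
    · rintro ⟨y, hy⟩
      obtain ⟨y, rfl⟩ := Ideal.Quotient.mk_surjective y
      refine ⟨φ y, ?_⟩
      rw [← map_mul, Ideal.Quotient.eq, ← hk, map_sub, map_mul, sub_eq_zero] at hy
      exact hy
    · rintro ⟨y, hy⟩
      obtain ⟨y, rfl⟩ := hs y
      refine ⟨Ideal.Quotient.mk _ y, ?_⟩
      rw [← map_mul, Ideal.Quotient.eq, ← hk, map_sub, map_mul, sub_eq_zero]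
      exact hy
  unfold sy
  rw [quadraticChar_apply, quadraticCharFun]
  by_cases h0 : x ∈ sp ϖ
  · rw [if_pos h0, if_pos ((hk x).2 h0)]
    simp
  · rw [if_neg h0, if_neg (fun h => h0 ((hk x).1 h))]
    by_cases h1 : IsSquare (φ x)
    · rw [if_pos (hsq.2 h1), if_pos h1]
      simp
    · rw [if_neg (fun h => h1 (hsq.1 h)), if_neg h1]
      simp

section
variable {ϖ : eis}

/-- the symbol is the quadratic character of the residue field -/
lemma sy_quot (h : Prime ϖ) : ∃ (F : Type) (_ : Field F) (_ : Fintype F) (_ : DecidableEq F)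
    (φ : eis →+* F), Function.Surjective φ ∧ (∀ x, φ x = 0 ↔ x ∈ sp ϖ) ∧
      (∀ x, sy ϖ x = ((quadraticChar F (φ x) : ℤ) : ℂ)) := by
  classical
  have hm := maximal_sp h.irreducible
  have f1 := fin_quot h.ne_zero
  let i1 : Field (eis ⧸ sp ϖ) := Ideal.Quotient.field (sp ϖ)
  let i2 : Fintype (eis ⧸ sp ϖ) := Fintype.ofFinite _
  have hs : Function.Surjective (Ideal.Quotient.mk (sp ϖ)) := Ideal.Quotient.mk_surjective
  have hk : ∀ x, Ideal.Quotient.mk (sp ϖ) x = 0 ↔ x ∈ sp ϖ := fun x =>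
    Ideal.Quotient.eq_zero_iff_mem
  refine ⟨eis ⧸ sp ϖ, i1, i2, inferInstance, Ideal.Quotient.mk (sp ϖ), hs, hk,
    fun x => sy_eq _ hs hk x⟩

lemma sy_mul' (h : Prime ϖ) (x y : eis) : sy ϖ (x * y) = sy ϖ x * sy ϖ y := by
  obtain ⟨F, _, _, _, φ, -, -, h1⟩ := sy_quot h
  rw [h1, h1, h1, map_mul, map_mul]
  push_cast
  rfl

lemma neg_one_notin (h : Prime ϖ) : (-1 : eis) ∉ sp ϖ := by
  intro h1
  rw [Ideal.mem_span_singleton] at h1
  exact h.not_isUnit (isUnit_of_dvd_unit h1 isUnit_one.neg)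

lemma sy_neg_one (h : Prime ϖ) : sy ϖ (-1) = 1 ∨ sy ϖ (-1) = -1 := sy_sgn (neg_one_notin h)

end

/-- sums of products of periodic functions -/
lemma sum_crt {a f : eis} (ha : a ≠ 0) (hf : f ≠ 0) (hcop : IsCoprime a f) {φ ψ : eis → ℂ}
    (hφ : Pe f φ) (hψ : Pe a ψ) : ∑ᶠ x : eis ⧸ sp (a * f), φ x.out * ψ x.out =
      (∑ᶠ x : eis ⧸ sp f, φ x.out) * ∑ᶠ x : eis ⧸ sp a, ψ x.out := by
  have haf : a * f ≠ 0 := mul_ne_zero ha hf
  have f1 := fin_quot ha
  have f2 := fin_quot hf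
  have f3 := fin_quot haf
  let _ : Fintype (eis ⧸ sp a) := Fintype.ofFinite _
  let _ : Fintype (eis ⧸ sp f) := Fintype.ofFinite _
  let _ : Fintype (eis ⧸ sp (a * f)) := Fintype.ofFinite _
  rw [finsum_eq_sum_of_fintype, finsum_eq_sum_of_fintype, finsum_eq_sum_of_fintype]
  have hb := bij_mul (R := eis) (a := a) (f := f) hf
  rw [sum_rep _ hb (fun x : eis => φ x * ψ x) (fun x y h => by
    show φ x * ψ x = φ y * ψ y
    rw [hφ.mono (Dvd.intro_left a rfl) x y h, hψ.mono (Dvd.intro _ rfl) x y h]),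
    Fintype.sum_prod_type, Finset.sum_mul]
  refine Finset.sum_congr rfl fun y _ => ?_
  have h1 : ∀ t : eis ⧸ sp a, φ (y.out + f * t.out) = φ y.out := by
    intro t
    apply hφ
    rw [add_sub_cancel_left, Ideal.mem_span_singleton']
    exact ⟨t.out, mul_comm _ _⟩
  simp only [h1]
  rw [← Finset.mul_sum]
  congr 1
  have hg : Function.Bijective (fun t : eis ⧸ sp a => Ideal.Quotient.mk (sp a)
      (y.out + f * t.out)) := by
    have hu : IsUnit (Ideal.Quotient.mk (sp a) f) := by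
      obtain ⟨s, t, hst⟩ := hcop
      refine IsUnit.of_mul_eq_one (Ideal.Quotient.mk (sp a) t) ?_
      rw [← map_mul, ← map_one (Ideal.Quotient.mk (sp a)), Ideal.Quotient.mk_eq_mk_iff_sub_mem,
        Ideal.mem_span_singleton']
      exact ⟨-s, by linear_combination -hst⟩
    obtain ⟨u, hu⟩ := hu
    have e1 : (fun t : eis ⧸ sp a => Ideal.Quotient.mk (sp a) (y.out + f * t.out)) =
        fun t => (Equiv.addLeft (Ideal.Quotient.mk (sp a) y.out)) ((Units.mulLeft u) t) := by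
      funext t
      rw [map_add, map_mul, Ideal.Quotient.mk_out, Units.mulLeft_apply, hu]
      rfl
    rw [e1]
    exact (Equiv.bijective _).comp (Units.mulLeft u).bijective
  exact (sum_rep _ hg ψ (fun x y h => hψ x y h)).symm

end Pool.Agent.L0h86.F3
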