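import Pool.Agent.L0h86.F3.Six

/-!
# The central values of the `L`-series
-/

set_option autoImplicit false
set_option linter.unusedSectionVars false

open Filter
open scoped Topology PeriodPair

namespace Pool.Agent.L0h86.F3

open H667R3 Pool.Agent.W192.HK Pool.Agent.TH936.CM Pool.Agent.TH936.PU
open Pool.Agent.W192.CM (nu)
open Pool.Agent.Y696 Pool.Agent.Y715.T.Lat Pool.Agent.Y715.Dist
open Pool.Agent.Y715.T.LF (nu_eq)
open Pool.Agent.Y715.T.Three (lam lam_ne' lam_sq)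
open Pool.Agent.Y698.SG (lg lg_one lg_neg_one lg_mul sgn_mul sgn_prod ix)

variable {L : PeriodPair} {Ω : ℂ} {Γ : Type*} [LinearOrderedCommGroupWithZero Γ]
  {v : Valuation ℂ Γ}

section

variable {ψ : Ideal eis → ℂ} (hψ : HC 1 (sp (2 * la : eis)) ψ)

include hψ

lemma ee6_u {u : eis} (hu : IsUnit u) : ee ψ u = u := ee_unit hψ nr hu

lemma ee6_ncop {x : eis} (hx : ¬ IsCoprime x (2 * la)) : ee ψ x = 0 := by
  have h : ψ (sp x) = 0 := by
    rw [hψ.zero]
    right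
    rwa [Ideal.isCoprime_span_singleton_iff]
  unfold ee fp
  rw [h, zero_div, map_zero]

/-- one unit -/
lemma term_ee (hL : IsLat L eis Ω) {z : ℂ} (hz : Tor L z) {u w : eis} (hwu : w * u = 1) :
    ee ψ u * Ev Ω (Ω * u / ((2 * la : eis) : ℂ) + z) = Fv Ω (w * z) := by
  have hu : IsUnit u := IsUnit.of_mul_eq_one w (by rw [mul_comm]; exact hwu)
  have hwu' : (w : ℂ) * u = 1 := by
    have := congrArg (fun t : eis => (t : ℂ)) hwu
    push_cast at this
    exact this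
  have hu0 : (u : ℂ) ≠ 0 := coe_ne hu.ne_zero
  rw [ee6_u hψ hu]
  have e : Ω * u / ((2 * la : eis) : ℂ) + z = u * (P0 Ω + w * z) := by
    unfold P0
    linear_combination (-z) * hwu'
  rw [e, Ev_unit hL hu ((P0_tor hL).add hL (hz.mul hL w)), mul_inv_cancel_left₀ hu0]
  rfl

/-- the sum over the residue classes modulo `2√-3` -/
theorem sum_ee (hL : IsLat L eis Ω) [Fintype (eis ⧸ (sp (2 * la) : Ideal eis))] {z : ℂ}
    (hz : Tor L z) : ∑ y : eis ⧸ (sp (2 * la) : Ideal eis), ee ψ y.out *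
      Ev Ω (Ω * y.out / ((2 * la : eis) : ℂ) + z) =
    Fv Ω ((1 : eis) * z) + Fv Ω ((-1 : eis) * z) + Fv Ω ((omr ^ 2 : eis) * z) +
      Fv Ω ((-omr ^ 2 : eis) * z) + Fv Ω ((omr : eis) * z) + Fv Ω ((-omr : eis) * z) := by
  have he := ee_eo lfp qr hψ
  have hper : ∀ x y : eis, x - y ∈ (sp (2 * la) : Ideal eis) →
      ee ψ x * Ev Ω (Ω * x / ((2 * la : eis) : ℂ) + z) =
        ee ψ y * Ev Ω (Ω * y / ((2 * la : eis) : ℂ) + z) := by
    intro x y hxy
    rw [he.per x y hxy]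
    congr 1
    apply Ev_per hL
    have := (div_mem_iff hL f6_ne (x - y)).2 hxy
    convert this using 1
    push_cast
    ring
  rw [six_sum6 (fun y => ee ψ y * Ev Ω (Ω * y / ((2 * la : eis) : ℂ) + z))
    (fun x hx => by rw [ee6_ncop hψ hx, zero_mul]) hper]
  have o3 := omr_cube
  rw [term_ee hψ hL hz (u := 1) (w := 1) (one_mul 1),
    term_ee hψ hL hz (u := -1) (w := -1) (by ring),
    term_ee hψ hL hz (u := omr) (w := omr ^ 2) (by rw [← o3]; ring),
    term_ee hψ hL hz (u := -omr) (w := -omr ^ 2) (by rw [← o3]; ring),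
    term_ee hψ hL hz (u := omr ^ 2) (w := omr) (by rw [← o3]; ring),
    term_ee hψ hL hz (u := -omr ^ 2) (w := -omr) (by rw [← o3]; ring)]

/-- the weighted sums of the function `HH` -/
theorem HH_Bv (hL : IsLat L eis Ω) [Fintype (eis ⧸ (sp (2 * la) : Ideal eis))] {c : eis}
    (hc : c ≠ 0) (hfc : IsCoprime (2 * la) c) [Fintype (eis ⧸ sp c)] {χ : eis → ℂ}
    (hχ : Xo c χ) (hu : ∀ u : eis, IsUnit u → ∀ x, χ (u * x) = χ x) :
    ∑ x : eis ⧸ sp c, χ x.out * HH L Ω (2 * la) (ee ψ) (Ω * x.out / c) = 6 * Bv Ω c χ := by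
  have he := ee_eo lfp qr hψ
  set Ef : ℂ := ∑ y : eis ⧸ (sp (2 * la) : Ideal eis), ee ψ y.out *
    Ev Ω (Ω * y.out / ((2 * la : eis) : ℂ)) with hEf
  have h0 : Tendsto (fun δ : ℝ => ∑ y : eis ⧸ (sp (2 * la) : Ideal eis), ee ψ y.out *
      EE eis Ω δ (Ω * y.out / ((2 * la : eis) : ℂ))) (𝓝[>] 0) (𝓝 Ef) :=
    tendsto_finsetSum _ fun y _ => (ev_lim hL (Tor.of hL f6_ne _)).const_mul _
  have h1 : ∀ x : eis, Ph L Ω (2 * la) (ee ψ) Ef c x =
      ∑ y : eis ⧸ (sp (2 * la) : Ideal eis), ee ψ y.out *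
        Ev Ω (Ω * y.out / ((2 * la : eis) : ℂ) + Ω * x / c) := by
    intro x
    refine tendsto_nhds_unique (lim_Ph hL f6_ne hc hfc he h0 x) ?_
    exact tendsto_finsetSum _ fun y _ => (ev_lim hL ((Tor.of hL f6_ne _).add hL
      (Tor.of hL hc x))).const_mul _
  have h2 : ∑ x : eis ⧸ sp c, χ x.out * HH L Ω (2 * la) (ee ψ) (Ω * x.out / c) =
      ∑ x : eis ⧸ sp c, χ x.out * Ph L Ω (2 * la) (ee ψ) Ef c x.out := by
    have h3 : ∀ x : eis ⧸ sp c, χ x.out * Ph L Ω (2 * la) (ee ψ) Ef c x.out =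
        χ x.out * HH L Ω (2 * la) (ee ψ) (Ω * x.out / c) + χ x.out * Ef := by
      intro x
      by_cases hx : x.out ∈ sp c
      · rw [hχ.zero _ hx]
        ring
      · rw [Ph_of_notMem hx]
        ring
    rw [Finset.sum_congr rfl fun x _ => h3 x, Finset.sum_add_distrib, ← Finset.sum_mul, hχ.sum,
      zero_mul, add_zero]
  rw [h2]
  have h4 : ∀ x : eis ⧸ sp c, χ x.out * Ph L Ω (2 * la) (ee ψ) Ef c x.out =
      χ x.out * Fv Ω ((1 : eis) * (Ω * x.out / c)) +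
      χ x.out * Fv Ω ((-1 : eis) * (Ω * x.out / c)) +
      χ x.out * Fv Ω ((omr ^ 2 : eis) * (Ω * x.out / c)) +
      χ x.out * Fv Ω ((-omr ^ 2 : eis) * (Ω * x.out / c)) +
      χ x.out * Fv Ω ((omr : eis) * (Ω * x.out / c)) +
      χ x.out * Fv Ω ((-omr : eis) * (Ω * x.out / c)) := by
    intro x
    rw [h1, sum_ee hψ hL (Tor.of hL hc _)]
    ring
  rw [Finset.sum_congr rfl fun x _ => h4 x]
  simp only [Finset.sum_add_distrib]
  have hφ : Pe c χ := hχ.per
  have r : ∀ u : eis, IsUnit u → ∑ x : eis ⧸ sp c, χ x.out * Fv Ω (u * (Ω * x.out / c)) =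
      Bv Ω c χ := fun u h => Bv_rot hL hc h hφ (hu u h)
  rw [r 1 isUnit_one, r (-1) isUnit_one.neg, r (omr ^ 2) (omr_unit.pow 2),
    r (-omr ^ 2) (omr_unit.pow 2).neg, r omr omr_unit, r (-omr) omr_unit.neg]
  ring

end

lemma v_three (t2 : v 2 < 1) : v 3 = 1 := by
  have h : v ((3 : ℂ) - 1) < 1 := by
    have e : (3 : ℂ) - 1 = 2 := by norm_num
    rwa [e]
  exact v_near h

lemma v_la (t2 : v 2 < 1) : v (la : ℂ) = 1 := by
  have h1 : v (la : ℂ) ^ 2 = 1 := by
    rw [← map_pow, la_coe, pow_two, lam_sq, Valuation.map_neg, v_three t2]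
  exact (pow_eq_one_iff_of_nonneg zero_le (by norm_num)).1 h1

lemma v_N1 (t2 : v 2 < 1) {n : eis} (h : N1 n) : v (n : ℂ) = 1 := by
  obtain ⟨u, rfl⟩ := h
  apply v_near
  have e : ((1 + 2 * la * u : eis) : ℂ) - 1 = 2 * ((la * u : eis) : ℂ) := by
    push_cast
    rw [two_coe]
    ring
  rw [e]
  exact vm_lt t2 (v_eis _)

lemma XD_val (D : ℕ) (I : Ideal eis) : XD D I = 0 ∨ XD D I = 1 ∨ XD D I = -1 := by
  unfold XD
  rcases jacobiSym.trichotomy ((Nat.card (eis ⧸ I) : ℕ) : ℤ) D with h | h | h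
  · left
    rw [h, Int.cast_zero]
  · right
    left
    rw [h, Int.cast_one]
  · right
    right
    rw [h]
    norm_num

lemma XD_conj (D : ℕ) (I : Ideal eis) : (starRingEnd ℂ) (XD D I) = XD D I := by
  unfold XD
  exact map_intCast _ _

set_option maxHeartbeats 1600000 in
/-- **the values of the `L`-series** -/
theorem val_of (hpsi : S_PSI) (hhcd : S_HCD) (hgen : S_GEN) : S_VAL := by
  intro Q P ϖ D hdt hD hne
  obtain ⟨hFX, hprod, -, -, -, hsy⟩ := hgen Q P ϖ D hdt hD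
  set S := ix Q P with hS
  set π := pf Q ϖ with hπ
  set c : eis := ∏ i ∈ S, π i with hc
  have hcD : sp c = sp (D : eis) := by
    rcases hprod with ⟨h, -⟩ | ⟨h, -⟩
    · rw [h]
    · rw [h]
      exact Ideal.span_singleton_eq_span_singleton.2 (Associated.refl _).neg_left
  have hc0 : c ≠ 0 := prod_ne hFX
  have hc1 : N1 c := prod_N1 hFX
  have hco : IsCoprime (2 : eis) c := prod_odd hFX
  have hfc : IsCoprime (2 * la) c := hco.mul_left hc1.cop_la
  have hψ : HC 1 (sp (2 * la : eis)) psi6 := hpsi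
  have hχ : HC 0 (sp c) (XD D) := by
    rw [hcD]
    exact hhcd Q P D hdt.q hdt.p hD hne
  obtain ⟨F, g1, g2, g3⟩ := val lbasic lfp lcnt ldec lafe lprod qr hψ hχ
    ((Ideal.isCoprime_span_singleton_iff _ _).2 hfc)
  refine ⟨F, g1, g2, ?_⟩
  intro Γ _ v t2 L Ω hC
  have hL := hC.lat
  have hct : sp c ≠ ⊤ := by
    rw [Ne, Ideal.span_singleton_eq_top]
    intro hu
    obtain ⟨q, hq⟩ := hne
    have hi : (q, false) ∈ S := by
      rw [hS]
      unfold ix
      rw [Finset.mem_union]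
      left
      rw [Finset.mem_product]
      exact ⟨hq, Finset.mem_singleton_self _⟩
    exact (hFX.pd _ hi).pr.not_isUnit (isUnit_of_dvd_unit (Finset.dvd_prod_of_mem π hi) hu)
  have f1 := fin_quot f6_ne
  have f2 := fin_quot hc0
  let _ : Fintype (eis ⧸ (sp (2 * la) : Ideal eis)) := Fintype.ofFinite _
  let _ : Fintype (eis ⧸ sp c) := Fintype.ofFinite _
  have g4' := g3 hct L Ω hL
  have hXo := xb_xo lfp qr hχ hct
  have hunit : ∀ u : eis, IsUnit u → ∀ x, xb (XD D) (u * x) = xb (XD D) x := by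
    intro u hu x
    have e : sp (u * x) = sp x := Ideal.span_singleton_mul_left_unit hu x
    unfold xb
    rw [e]
  rw [HH_Bv hψ hL hc0 hfc hXo hunit, nu_eq] at g4'
  have hfun : xb (XD D) = fun m => ∏ i ∈ S, sy (π i) m := by
    funext m
    rw [hsy m]
    unfold xb
    exact XD_conj D _
  have hind := indX hC t2 hFX S subset_rfl
  rw [hfun] at g4'
  refine ⟨_, hind, ?_⟩
  set B := Bv Ω c (fun m => ∏ i ∈ S, sy (π i) m) with hB
  have hF0 := F0_ne hC
  have hΩ := hL.ne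
  have hee : ee psi6 c = 1 := by
    have h5 : c - 1 ∈ (sp (2 * la) : Ideal eis) := by
      obtain ⟨u, hu⟩ := hc1
      rw [hu, Ideal.mem_span_singleton']
      exact ⟨u, by ring⟩
    unfold ee fp
    rw [hψ.princ c hc0 h5, div_self (pow_ne_zero _ (coe_ne hc0)), map_one]
  have hx6 : v (∏ i ∈ S, sy (π i) (2 * la)) = 1 := by
    rw [hsy]
    rcases XD_val D (sp (2 * la)) with h | h | h
    · exfalso
      rw [hχ.zero] at h
      rcases h with h | h
      · rw [Ideal.span_singleton_eq_bot] at h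
        exact f6_ne h
      · exact h ((Ideal.isCoprime_span_singleton_iff _ _).2 hfc)
    · rw [h, map_one]
    · rw [h, Valuation.map_neg, map_one]
  rw [hee, one_mul] at g4'
  have hf0 : ((2 * la : eis) : ℂ) ≠ 0 := coe_ne f6_ne
  have hc0' : (c : ℂ) ≠ 0 := coe_ne hc0
  have h20 : (2 : ℂ) ^ S.card ≠ 0 := pow_ne_zero _ two_ne_zero
  have e1 : (starRingEnd ℂ) (F 1) / Ω = (((2 * la : eis) : ℂ) * c)⁻¹ *
      (∏ i ∈ S, sy (π i) (2 * la)) * (2 ^ S.card * Fv Ω 0) *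
        (B / (2 ^ S.card * Fv Ω 0)) := by
    have e2 : (starRingEnd ℂ) (F 1) = (6 : ℂ)⁻¹ * (((6 : ℕ) : ℂ) * (starRingEnd ℂ) (F 1)) := by
      push_cast
      ring
    rw [e2, g4']
    field_simp
  have vf : v ((2 * la : eis) : ℂ) = v 2 := by
    push_cast
    rw [map_mul, v_la t2, mul_one, two_coe]
  have hv2 : v 2 ≠ 0 := by
    rw [Ne, map_eq_zero]
    norm_num
  rw [e1]
  simp only [map_mul, map_inv₀, vf, v_N1 t2 hc1, hx6, F0_val hC t2, map_pow, mul_one]
  field_simp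

end Pool.Agent.L0h86.F3
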