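import Pool.Agent.L0h86.F3.Pd
import Pool.Agent.L0h86.F3.Val

/-!
# The valuation of the real period of `y² = x³ + D³`
-/

set_option autoImplicit false
set_option linter.unusedSectionVars false

open Filter MeasureTheory
open scoped Topology PeriodPair

namespace Pool.Agent.L0h86.F3

open H667R3 Pool.Agent.W192.HK Pool.Agent.TH936.CM Pool.Agent.TH936.PU
open Pool.Agent.Y696 Pool.Agent.Y715.T.Lat
open Pool.Agent.Y698 (RP v_oddI)
open Pool.Agent.L0h86.F1 (psM real_periodM)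
open Pool.Agent.L0h23.EV (int_all)

/-- the cube root of four -/
noncomputable def c4 : ℝ := (4 : ℝ) ^ ((1 : ℝ) / 3)

lemma c4_pos : 0 < c4 := Real.rpow_pos_of_pos (by norm_num) _

lemma c4_cube : c4 ^ 3 = 4 := by
  unfold c4
  rw [← Real.rpow_natCast, ← Real.rpow_mul (by norm_num)]
  norm_num

/-- the real period integral of `y² = x³ + 1` -/
theorem period_one : (∫ x in {x : ℝ | 0 < psM 1 x}, 2 / Real.sqrt (psM 1 x)) =
    c4 / 2 * ∫ x in {x : ℝ | 0 < psR x}, 2 / Real.sqrt (psR x) := by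
  rw [int_all (psM 1), int_all psR]
  have hc := c4_pos
  have e2 := Measure.integral_comp_mul_left (fun y : ℝ => 2 / Real.sqrt (psM 1 y)) c4
  have e3 : (∫ x : ℝ, (fun y : ℝ => 2 / Real.sqrt (psM 1 y)) (c4 * x)) =
      ∫ x : ℝ, 1 / 2 * (2 / Real.sqrt (psR x)) := by
    congr 1
    funext x
    beta_reduce
    have e5 : psM 1 (c4 * x) = 2 ^ 2 * psR x := by
      unfold psM psR
      rw [mul_pow, c4_cube]
      push_cast
      ring
    rw [e5, Real.sqrt_mul (by positivity), Real.sqrt_sq (by positivity)]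
    by_cases h5 : Real.sqrt (psR x) = 0
    · rw [h5]
      simp
    · field_simp
  rw [e3, integral_const_mul] at e2
  have e5 : |c4⁻¹| = c4⁻¹ := abs_of_pos (by positivity)
  rw [e5, smul_eq_mul] at e2
  have e6 : (∫ x : ℝ, 2 / Real.sqrt (psM 1 x)) =
      c4 * (1 / 2 * ∫ x : ℝ, 2 / Real.sqrt (psR x)) := by
    rw [e2]
    field_simp
  rw [e6]
  ring

section
variable {Γ : Type} [LinearOrderedCommGroupWithZero Γ] {v : Valuation ℂ Γ} {L : PeriodPair} {Ω : ℂ}

lemma v_unit {u : eis} (hu : IsUnit u) : v (u : ℂ) = 1 := by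
  obtain ⟨w, hw⟩ := hu.exists_left_inv
  have h1 : (w : ℂ) * u = 1 := by
    have := congrArg (fun t : eis => (t : ℂ)) hw
    push_cast at this
    exact this
  have h2 : v (w : ℂ) * v (u : ℂ) = 1 := by rw [← map_mul, h1, map_one]
  refine le_antisymm (v_eis u) ?_
  rw [← h2]
  calc v (w : ℂ) * v (u : ℂ) ≤ 1 * v (u : ℂ) := mul_le_mul_left (v_eis w) _
    _ = v (u : ℂ) := one_mul _

lemma v_of_sq {a b : ℂ} (h : v a ^ 2 = v b ^ 2) : v a = v b :=
  (pow_left_inj₀ zero_le zero_le two_ne_zero).1 h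

/-- the valuation of the real period of the model `y² = 4 x³ + 1` -/
theorem v_real (t2 : v 2 < 1) (hC : Cur L Ω) :
    v ((∫ x in {x : ℝ | 0 < psR x}, 2 / Real.sqrt (psR x) : ℝ) : ℂ) = v Ω := by
  obtain ⟨u, hu, hR⟩ := exists_CR hC
  obtain ⟨ω, hω, h1⟩ := hR.exists_RP
  rw [hR.real_period hω]
  apply v_of_sq
  rw [← map_pow, ← map_pow]
  have hu1 : v (u : ℂ) = 1 := v_unit hu
  rcases h1 with h1 | h1
  · rw [h1, map_pow, map_mul, hu1, one_mul, map_pow]
  · rw [h1, map_mul, map_pow, map_mul, hu1, one_mul, Valuation.map_neg, v_three t2, one_mul,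
      map_pow]

lemma v_c4 : v ((c4 : ℝ) : ℂ) ^ 3 = v 2 ^ 2 := by
  rw [← map_pow, ← map_pow, ← Complex.ofReal_pow, c4_cube]
  norm_num

/-- the valuation of the real period -/
theorem v_periodM (t2 : v 2 < 1) (hC : Cur L Ω) {D : ℕ} (hD : D % 2 = 1) :
    v ((∫ x in {x : ℝ | 0 < psM D x}, 2 / Real.sqrt (psM D x) : ℝ) : ℂ) * v 2 =
      v ((c4 : ℝ) : ℂ) * v Ω := by
  have hD0 : 0 < D := by omega
  have hv2 : v 2 ≠ 0 := (v.ne_zero_iff).2 two_ne_zero
  have hs : v ((Real.sqrt D : ℝ) : ℂ) = 1 := by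
    rw [← map_one v]
    apply v_of_sq
    rw [← map_pow, ← Complex.ofReal_pow, Real.sq_sqrt (Nat.cast_nonneg D), map_one, one_pow]
    have := v_oddI v t2 (m := (D : ℤ)) (by exact_mod_cast Nat.odd_iff.2 hD)
    push_cast at this ⊢
    exact this
  rw [real_periodM hD0, period_one]
  push_cast
  rw [map_div₀, hs, div_one, map_mul, v_real t2 hC, map_div₀]
  field_simp

/-- the valuation of `℘(Ω / 2)` -/
lemma v_half (hC : Cur L Ω) : v ((c4 : ℝ) : ℂ) * v (℘[L] (Ω / 2)) = 1 := by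
  have h1 : v 2 ^ 2 * v (℘[L] (Ω / 2)) ^ 3 = 1 := by
    have := congrArg v (e_cube hC)
    rw [map_mul, map_pow, Valuation.map_neg, map_one] at this
    rw [← this, ← map_pow]
    norm_num
  rw [← v_c4, ← mul_pow] at h1
  exact (pow_eq_one_iff_of_nonneg zero_le (by norm_num)).1 h1

end

end Pool.Agent.L0h86.F3
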